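import Mathlib

/-!
# Heights over `F(t)`: the polynomial part
-/

namespace OddCov

open Polynomial

variable {F : Type*} [Field F]

/-- a quadratic form in three variables -/
def quad {R : Type*} [CommRing R] (c : Fin 6 → R) (z : Fin 3 → R) : R :=
  c 0 * z 0 ^ 2 + c 1 * (z 0 * z 1) + c 2 * (z 0 * z 2) + c 3 * z 1 ^ 2 + c 4 * (z 1 * z 2) +
    c 5 * z 2 ^ 2

/-- the maximal degree -/
noncomputable def size {n : ℕ} (z : Fin n → F[X]) : ℕ := Finset.univ.sup fun i => (z i).natDegree

theorem le_size {n : ℕ} (z : Fin n → F[X]) (i : Fin n) : (z i).natDegree ≤ size z :=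
  Finset.le_sup (f := fun i => (z i).natDegree) (Finset.mem_univ i)

theorem size_le {n m : ℕ} {z : Fin n → F[X]} (h : ∀ i, (z i).natDegree ≤ m) : size z ≤ m :=
  Finset.sup_le fun i _ => h i

theorem exists_size {n : ℕ} (z : Fin (n + 1) → F[X]) : ∃ i, (z i).natDegree = size z := by
  obtain ⟨i, -, hi⟩ := Finset.exists_mem_eq_sup (Finset.univ : Finset (Fin (n + 1)))
    Finset.univ_nonempty fun i => (z i).natDegree
  exact ⟨i, hi.symm⟩

theorem natDegree_quad_le (c : Fin 6 → F[X]) (z : Fin 3 → F[X]) :
    (quad c z).natDegree ≤ size c + 2 * size z := by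
  have h : ∀ i j k, (c i * (z j * z k)).natDegree ≤ size c + 2 * size z := by
    intro i j k
    refine natDegree_mul_le.trans ?_
    have h1 := le_size c i
    have h2 := natDegree_mul_le (p := z j) (q := z k)
    have h3 := le_size z j
    have h4 := le_size z k
    omega
  unfold quad
  rw [sq, sq, sq]
  refine (natDegree_add_le _ _).trans (max_le ?_ (h _ _ _))
  refine (natDegree_add_le _ _).trans (max_le ?_ (h _ _ _))
  refine (natDegree_add_le _ _).trans (max_le ?_ (h _ _ _))
  refine (natDegree_add_le _ _).trans (max_le ?_ (h _ _ _))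
  exact (natDegree_add_le _ _).trans (max_le (h _ _ _) (h _ _ _))

/-- a primitive vector -/
def Prim (z : Fin 3 → F[X]) : Prop := Ideal.span (Set.range z) = ⊤

/-- the degree inequalities for a morphism given by quadratic forms -/
theorem morph_bound (Φ : Fin 3 → Fin 6 → F[X]) (cc : Fin 3 → Fin 3 → Fin 6 → F[X]) {R : F[X]}
    (hR : R ≠ 0) (hid : ∀ z : Fin 3 → F[X], ∀ i, ∑ j, quad (cc i j) z * quad (Φ j) z =
      R * z i ^ 4) :
    ∃ C : ℕ, ∀ (z z' : Fin 3 → F[X]) (g : F[X]), Prim z → g ≠ 0 →
      (∀ j, quad (Φ j) z = g * z' j) → size z' ≤ 2 * size z + C ∧ 2 * size z ≤ size z' + C := by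
  let C₁ : ℕ := Finset.univ.sup fun j => size (Φ j)
  let C₂ : ℕ := Finset.univ.sup fun i => Finset.univ.sup fun j => size (cc i j)
  have hC₁ : ∀ j, size (Φ j) ≤ C₁ := fun j =>
    Finset.le_sup (f := fun j => size (Φ j)) (Finset.mem_univ j)
  have hC₂ : ∀ i j, size (cc i j) ≤ C₂ := fun i j =>
    (Finset.le_sup (f := fun j => size (cc i j)) (Finset.mem_univ j)).trans
      (Finset.le_sup (f := fun i => Finset.univ.sup fun j => size (cc i j)) (Finset.mem_univ i))
  refine ⟨max C₁ C₂, fun z z' g hz hg h => ⟨?_, ?_⟩⟩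
  · refine size_le fun j => ?_
    have h1 : (g * z' j).natDegree ≤ C₁ + 2 * size z := by
      rw [← h j]
      refine (natDegree_quad_le _ _).trans ?_
      have := hC₁ j
      omega
    by_cases hj : z' j = 0
    · rw [hj, natDegree_zero]; exact Nat.zero_le _
    · rw [natDegree_mul hg hj] at h1
      have := le_max_left C₁ C₂
      omega
  · -- `g` divides `R`
    have hgR : g ∣ R := by
      have h1 : ∀ i, g ∣ R * z i ^ 4 := by
        intro i
        rw [← hid z i]
        refine Finset.dvd_sum fun j _ => ?_
        rw [h j]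
        exact (Dvd.intro _ rfl : g ∣ g * z' j).mul_left _
      have h2 : Ideal.span (Set.range fun i => z i ^ 4) = ⊤ := by
        have := Ideal.span_pow_eq_top _ hz 4
        rwa [← Set.range_comp] at this
      have h3 : (1 : F[X]) ∈ Ideal.span (Set.range fun i => z i ^ 4) := by
        rw [h2]; trivial
      have h4 : ∀ x ∈ Ideal.span (Set.range fun i => z i ^ 4), g ∣ R * x := by
        intro x hx
        induction hx using Submodule.span_induction with
        | mem x hx =>
          obtain ⟨i, rfl⟩ := hx
          exact h1 i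
        | zero => rw [mul_zero]; exact dvd_zero _
        | add x y _ _ hx hy => rw [mul_add]; exact dvd_add hx hy
        | smul a x _ hx =>
          rw [smul_eq_mul, mul_left_comm]
          exact hx.mul_left _
      have := h4 1 h3
      rwa [mul_one] at this
    have hdg : g.natDegree ≤ R.natDegree := natDegree_le_of_dvd hgR hR
    obtain ⟨i, hi⟩ := exists_size z
    by_cases hz0 : z i = 0
    · rw [hz0, natDegree_zero] at hi
      omega
    have h1 : (R * z i ^ 4).natDegree = R.natDegree + 4 * size z := by
      rw [natDegree_mul hR (pow_ne_zero _ hz0), natDegree_pow, hi]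
    have h2 : (R * z i ^ 4).natDegree ≤ (C₂ + 2 * size z) + (g.natDegree + size z') := by
      rw [← hid z i]
      refine natDegree_sum_le_of_forall_le _ _ fun j _ => ?_
      refine natDegree_mul_le.trans (add_le_add ?_ ?_)
      · refine (natDegree_quad_le _ _).trans ?_
        have := hC₂ i j
        omega
      · rw [h j]
        refine natDegree_mul_le.trans ?_
        have := le_size z' j
        omega
    have := le_max_right C₁ C₂
    omega

/-- the symmetric square -/
def sym {R : Type*} [CommRing R] (p q : Fin 2 → R) : Fin 3 → R :=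
  ![p 0 * q 0, p 0 * q 1 + p 1 * q 0, p 1 * q 1]

theorem prim_sym {p q : Fin 2 → F[X]} (hp : IsCoprime (p 0) (p 1)) (hq : IsCoprime (q 0) (q 1)) :
    Prim (sym p q) := by
  unfold Prim
  by_contra h
  obtain ⟨m, hm, hle⟩ := Ideal.exists_le_maximal _ h
  have hmp := hm.isPrime
  have hmem : ∀ i, sym p q i ∈ m := fun i => hle (Ideal.subset_span ⟨i, rfl⟩)
  have h0 : p 0 * q 0 ∈ m := hmem 0
  have h1 : p 0 * q 1 + p 1 * q 0 ∈ m := hmem 1
  have h2 : p 1 * q 1 ∈ m := hmem 2
  have hne : (1 : F[X]) ∉ m := fun h => hmp.ne_top ((Ideal.eq_top_iff_one _).2 h)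
  have cop : ∀ {a b : F[X]}, IsCoprime a b → a ∈ m → b ∉ m := by
    rintro a b ⟨x, y, hxy⟩ ha hb
    apply hne
    rw [← hxy]
    exact m.add_mem (m.mul_mem_left _ ha) (m.mul_mem_left _ hb)
  rcases hmp.mem_or_mem h0 with ha | ha
  · have hb := cop hp ha
    have hd := (hmp.mem_or_mem h2).resolve_left hb
    have hc : q 0 ∉ m := fun h => cop hq h hd
    have h3 : p 1 * q 0 ∈ m := by
      have := m.sub_mem h1 (m.mul_mem_right (q 1) ha)
      rwa [add_sub_cancel_left] at this
    exact (hmp.mem_or_mem h3).elim hb hc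
  · have hd := cop hq ha
    have hb := (hmp.mem_or_mem h2).resolve_right hd
    have hc : p 0 ∉ m := fun h => cop hp h hb
    have h3 : p 0 * q 1 ∈ m := by
      have := m.sub_mem h1 (m.mul_mem_left (p 1) ha)
      rwa [add_sub_cancel_right] at this
    exact (hmp.mem_or_mem h3).elim hc hd

theorem coeff_size_ne {p : Fin 2 → F[X]} (hp : IsCoprime (p 0) (p 1)) :
    (p 0).coeff (size p) ≠ 0 ∨ (p 1).coeff (size p) ≠ 0 := by
  obtain ⟨i, hi⟩ := exists_size p
  by_cases h : size p = 0
  · by_contra hc
    push Not at hc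
    have h0 : p 0 = 0 := by
      have h1 := eq_C_of_natDegree_le_zero ((le_size p 0).trans h.le)
      rw [h] at hc
      rw [h1, hc.1, C_0]
    have h1 : p 1 = 0 := by
      have h1 := eq_C_of_natDegree_le_zero ((le_size p 1).trans h.le)
      rw [h] at hc
      rw [h1, hc.2, C_0]
    rw [h0, h1] at hp
    exact not_isCoprime_zero_zero hp
  · have hne : p i ≠ 0 := by
      intro h1
      rw [h1, natDegree_zero] at hi
      exact h hi.symm
    have : (p i).coeff (size p) ≠ 0 := by
      rw [← hi]
      exact leadingCoeff_ne_zero.2 hne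
    fin_cases i
    · exact Or.inl this
    · exact Or.inr this

theorem size_sym {p q : Fin 2 → F[X]} (hp : IsCoprime (p 0) (p 1)) (hq : IsCoprime (q 0) (q 1)) :
    size (sym p q) = size p + size q := by
  apply le_antisymm
  · refine size_le fun i => ?_
    have h : ∀ i j, (p i * q j).natDegree ≤ size p + size q := fun i j =>
      natDegree_mul_le.trans (add_le_add (le_size p i) (le_size q j))
    fin_cases i
    · exact h 0 0
    · exact (natDegree_add_le _ _).trans (max_le (h 0 1) (h 1 0))
    · exact h 1 1
  · by_contra hlt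
    push Not at hlt
    have hc : ∀ i, (sym p q i).coeff (size p + size q) = 0 := fun i =>
      coeff_eq_zero_of_natDegree_lt ((le_size _ i).trans_lt hlt)
    have hm : ∀ i j, (p i * q j).coeff (size p + size q) =
        (p i).coeff (size p) * (q j).coeff (size q) := fun i j =>
      coeff_mul_add_eq_of_natDegree_le (le_size p i) (le_size q j)
    have h0 : (p 0).coeff (size p) * (q 0).coeff (size q) = 0 := by
      rw [← hm]; exact hc 0
    have h1 : (p 0).coeff (size p) * (q 1).coeff (size q) +
        (p 1).coeff (size p) * (q 0).coeff (size q) = 0 := by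
      rw [← hm, ← hm, ← coeff_add]; exact hc 1
    have h2 : (p 1).coeff (size p) * (q 1).coeff (size q) = 0 := by
      rw [← hm]; exact hc 2
    have hp' := coeff_size_ne hp
    have hq' := coeff_size_ne hq
    rcases mul_eq_zero.1 h0 with ha | ha
    · rw [ha, zero_mul, zero_add] at h1
      have hb := hp'.resolve_left (not_not.2 ha)
      have hc := (mul_eq_zero.1 h1).resolve_left hb
      have hd := (mul_eq_zero.1 h2).resolve_left hb
      exact hq'.elim (fun h => h hc) (fun h => h hd)
    · rw [ha, mul_zero, add_zero] at h1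
      have hb := hq'.resolve_left (not_not.2 ha)
      have hc := (mul_eq_zero.1 h1).resolve_right hb
      have hd := (mul_eq_zero.1 h2).resolve_right hb
      exact hp'.elim (fun h => h hc) (fun h => h hd)

end OddCov
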