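import Pool.Agent.Helper9.BSD.Poly

/-!
# Covers of odd degree with one place above the branch points
-/

namespace OddCov

open WithZero Polynomial IsDedekindDomain

variable {F : Type*} [Field F] [DecidableEq (RatFunc F)]

/-- `u : P¹ → P¹` has odd degree, and exactly one place above `∞` and above each `s ∈ S`. -/
structure Cover (u : RatFunc F) (S : Set F) : Prop where
  odd : Odd (max u.num.natDegree u.denom.natDegree)
  fin : ∀ s ∈ S, ∃! w : Place F, plv w (u - RatFunc.C s) < 1
  inf : ∃! w : Place F, 1 < plv w u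

omit [DecidableEq (RatFunc F)] in
theorem vo_eq {π ρ : F[X]} (hρ : Irreducible ρ) {v : HeightOneSpectrum F[X]}
    (hv : v.asIdeal = Ideal.span {π}) (h : vo hρ = v) : Associated ρ π := by
  rw [← Ideal.span_singleton_eq_span_singleton, ← hv, ← h, vo_asIdeal]

/-- a rational function with a unique zero, of odd degree -/
theorem unique_zero {N D : F[X]} (hN : N ≠ 0) (hD : D ≠ 0) (hco : IsCoprime N D)
    (hodd : Odd (max N.natDegree D.natDegree)) {x : RatFunc F}
    (hx : x = algebraMap F[X] (RatFunc F) N / algebraMap F[X] (RatFunc F) D) {w : Place F}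
    (hw : plv w x < 1) (huniq : ∀ w', plv w' x < 1 → w' = w) : OddV (plv w) x ∧ OddPl w := by
  have hN' : algebraMap F[X] (RatFunc F) N ≠ 0 := by simpa using hN
  have hD' : algebraMap F[X] (RatFunc F) D ≠ 0 := by simpa using hD
  have hinf : RatFunc.inftyValuation F x = exp ((N.natDegree : ℤ) - D.natDegree) := by
    rw [hx, map_div₀, infty_poly hN, infty_poly hD, exp_sub]
  -- the place of an irreducible factor of `N`
  have hfac : ∀ (ρ : F[X]) (hρ : Irreducible ρ), ρ ∣ N → (some (vo hρ) : Place F) = w := by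
    intro ρ hρ hρN
    apply huniq
    change (vo hρ).valuation (RatFunc F) x < 1
    have h1 : ¬ ρ ∣ D := fun h => hρ.not_isUnit (hco.isUnit_of_dvd' hρN h)
    rw [hx, map_div₀, (val_poly_eq (vo_asIdeal hρ) D).2 h1, div_one]
    exact (val_poly_lt (vo_asIdeal hρ) N).2 hρN
  match w, hw, huniq, hfac with
  | none, hw, huniq, hfac =>
    change RatFunc.inftyValuation F x < 1 at hw
    rw [hinf, ← exp_zero, exp_lt_exp] at hw
    have hN0 : N.natDegree = 0 := by
      by_contra h
      obtain ⟨ρ, hρ, hρN⟩ := exists_irreducible_of_natDegree_pos (Nat.pos_of_ne_zero h)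
      exact absurd (hfac ρ hρ hρN) (by simp)
    refine ⟨?_, trivial⟩
    rw [hN0] at hodd hinf
    rw [Nat.zero_max] at hodd
    obtain ⟨k, hk⟩ := hodd
    refine ⟨-(k : ℤ) - 1, ?_⟩
    change RatFunc.inftyValuation F x = _
    rw [hinf, hk]
    congr 1
    push_cast; ring
  | some v, hw, huniq, hfac =>
    obtain ⟨π, hπ, hv⟩ := exists_gen v
    change v.valuation (RatFunc F) x < 1 at hw
    have hDN : D.natDegree ≤ N.natDegree := by
      by_contra h
      have : (none : Place F) = some v := by
        apply huniq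
        change RatFunc.inftyValuation F x < 1
        rw [hinf, ← exp_zero, exp_lt_exp]
        omega
      exact absurd this (by simp)
    rw [max_eq_left hDN] at hodd
    have hπN : π ∣ N := by
      by_contra h
      rw [hx, map_div₀, (val_poly_eq hv N).2 h] at hw
      have h1 : v.valuation (RatFunc F) (algebraMap F[X] (RatFunc F) D) ≤ 1 := by
        rw [v.valuation_of_algebraMap]
        exact v.intValuation_le_one D
      have h2 : 0 < v.valuation (RatFunc F) (algebraMap F[X] (RatFunc F) D) :=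
        zero_lt_iff.2 ((Valuation.ne_zero_iff _).2 hD')
      rw [div_lt_one₀ h2] at hw
      exact absurd hw (not_lt.2 h1)
    have hπD : ¬ π ∣ D := fun h => hπ.not_isUnit (hco.isUnit_of_dvd' hπN h)
    obtain ⟨M, hNM, hM⟩ :=
      (FiniteMultiplicity.of_not_isUnit hπ.not_isUnit hN).exists_eq_pow_mul_and_not_dvd
    set e := multiplicity π N with he
    have hM0 : M ≠ 0 := by
      rintro rfl
      exact hM (dvd_zero _)
    have hMd : M.natDegree = 0 := by
      by_contra h
      obtain ⟨ρ, hρ, hρM⟩ := exists_irreducible_of_natDegree_pos (Nat.pos_of_ne_zero h)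
      have h1 := hfac ρ hρ (by rw [hNM]; exact hρM.mul_left _)
      have h2 : Associated ρ π := vo_eq hρ hv (Option.some_injective _ h1)
      exact hM (h2.symm.dvd.trans hρM)
    have hdeg : N.natDegree = e * π.natDegree := by
      rw [hNM, natDegree_mul (pow_ne_zero _ hπ.ne_zero) hM0, natDegree_pow, hMd, add_zero]
    rw [hdeg, Nat.odd_mul] at hodd
    refine ⟨?_, π, hπ, hv, hodd.2⟩
    obtain ⟨k, hk⟩ := hodd.1
    refine ⟨-(k : ℤ) - 1, ?_⟩
    change v.valuation (RatFunc F) x = _
    rw [hx, map_div₀, (val_poly_eq hv D).2 hπD, div_one, hNM, map_mul, map_pow, map_mul, map_pow,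
      (val_poly_eq hv M).2 hM, mul_one, val_gen hv hπ.ne_zero, ← exp_nsmul, hk]
    congr 1
    simp only [nsmul_eq_mul]
    push_cast; ring

omit [DecidableEq (RatFunc F)] in
theorem sub_C_rep (u : RatFunc F) (s : F) : u - RatFunc.C s =
    algebraMap F[X] (RatFunc F) (u.num - C s * u.denom) / algebraMap F[X] (RatFunc F) u.denom := by
  have hD' : algebraMap F[X] (RatFunc F) u.denom ≠ 0 := by simpa using u.denom_ne_zero
  rw [map_sub, map_mul, RatFunc.algebraMap_C, sub_div, u.num_div_denom, mul_div_cancel_right₀ _ hD']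

omit [DecidableEq (RatFunc F)] in
theorem max_deg_sub (N D : F[X]) (s : F) :
    max (N - C s * D).natDegree D.natDegree = max N.natDegree D.natDegree := by
  have h1 : (C s * D).natDegree ≤ D.natDegree := natDegree_C_mul_le s D
  rcases lt_or_ge D.natDegree N.natDegree with h | h
  · rw [natDegree_sub_eq_left_of_natDegree_lt (h1.trans_lt h)]
  · rw [max_eq_right h, max_eq_right]
    exact (natDegree_sub_le _ _).trans (max_le h h1)

omit [DecidableEq (RatFunc F)] in
theorem coprime_sub {N D : F[X]} (h : IsCoprime N D) (s : F) : IsCoprime (N - C s * D) D := by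
  have := IsCoprime.add_mul_right_left (x := N) (y := D) h (-C s)
  rwa [neg_mul, ← sub_eq_add_neg] at this

variable {u : RatFunc F} {S : Set F}

theorem Cover.at_fin (hu : Cover u S) {s : F} (hs : s ∈ S) : ∃ w : Place F,
    OddV (plv w) (u - RatFunc.C s) ∧ OddPl w ∧
      ∀ w', plv w' (u - RatFunc.C s) < 1 ↔ w' = w := by
  obtain ⟨w, hw, huniq⟩ := hu.fin s hs
  have hD := u.denom_ne_zero
  have hco := coprime_sub (RatFunc.isCoprime_num_denom u) s
  have hN : u.num - C s * u.denom ≠ 0 := by
    intro h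
    have h1 : max (u.num - C s * u.denom).natDegree u.denom.natDegree = 0 := by
      rw [h] at hco ⊢
      have h2 : IsUnit u.denom := isCoprime_zero_left.1 hco
      rw [natDegree_zero, natDegree_eq_zero_of_isUnit h2, max_self]
    have h3 := hu.odd
    rw [max_deg_sub] at h1
    rw [h1] at h3
    exact absurd h3 (by decide)
  obtain ⟨h1, h2⟩ := unique_zero hN hD hco (by rw [max_deg_sub]; exact hu.odd) (sub_C_rep u s) hw
    huniq
  exact ⟨w, h1, h2, fun w' => ⟨fun h => huniq w' h, fun h => h ▸ hw⟩⟩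

theorem Cover.ne_zero (hu : Cover u S) : u ≠ 0 := by
  rintro rfl
  obtain ⟨w, hw, -⟩ := hu.inf
  rw [map_zero] at hw
  exact not_lt_zero hw

omit [DecidableEq (RatFunc F)] in
theorem oddV_inv {v : Valuation (RatFunc F) ℤᵐ⁰} {x : RatFunc F} (h : OddV v x) :
    OddV v x⁻¹ := by
  obtain ⟨m, hm⟩ := h
  refine ⟨-m - 1, ?_⟩
  rw [map_inv₀, hm, ← exp_neg]
  congr 1; ring

theorem Cover.at_inf (hu : Cover u S) : ∃ w : Place F,
    OddV (plv w) u ∧ OddPl w ∧ ∀ w', 1 < plv w' u ↔ w' = w := by
  obtain ⟨w, hw, huniq⟩ := hu.inf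
  have hu0 := hu.ne_zero
  have hD := u.denom_ne_zero
  have hN : u.num ≠ 0 := RatFunc.num_ne_zero hu0
  have key : ∀ w', plv w' u⁻¹ < 1 ↔ 1 < plv w' u := by
    intro w'
    rw [map_inv₀]
    exact inv_lt_one₀ (zero_lt_iff.2 ((Valuation.ne_zero_iff _).2 hu0))
  have hx : u⁻¹ = algebraMap F[X] (RatFunc F) u.denom / algebraMap F[X] (RatFunc F) u.num := by
    rw [← inv_div, u.num_div_denom]
  obtain ⟨h1, h2⟩ := unique_zero hD hN (RatFunc.isCoprime_num_denom u).symm
    (by rw [max_comm]; exact hu.odd) hx ((key w).2 hw) (fun w' h => huniq w' ((key w').1 h))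
  refine ⟨w, ?_, h2, fun w' => ⟨fun h => huniq w' h, fun h => h ▸ hw⟩⟩
  have := oddV_inv h1
  rwa [inv_inv] at this

end OddCov
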