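import Pool.Agent.Helper9.BSD.Defs

/-!
# 2-descent on `y² = x (x + 1) (x + l)`
-/

namespace OddCov

open WeierstrassCurve WeierstrassCurve.Affine

variable {K : Type*} [Field K]

/-- x-coordinate (0 at the point at infinity) -/
def xc {l : K} : E l → K
  | .zero => 0
  | .some x _ _ => x

/-- y-coordinate (0 at the point at infinity) -/
def yc {l : K} : E l → K
  | .zero => 0
  | .some _ y _ => y

theorem W_eq (l x y : K) :
    (W l).Equation x y ↔ y ^ 2 = x * (x + 1) * (x + l) := by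
  rw [equation_iff]
  simp only [W]
  constructor <;> intro h <;> linear_combination h

@[simp] theorem W_negY (l x y : K) : (W l).negY x y = -y := by
  simp [negY, W]

theorem W_disc (l : K) : (W l).Δ = 16 * l ^ 2 * (l - 1) ^ 2 := by
  simp only [WeierstrassCurve.Δ, WeierstrassCurve.b₂, WeierstrassCurve.b₄, WeierstrassCurve.b₆,
    WeierstrassCurve.b₈, W]
  ring

theorem W_nonsing [NeZero (2 : K)] {l : K} (h0 : l ≠ 0) (h1 : l ≠ 1) {x y : K}
    (h : y ^ 2 = x * (x + 1) * (x + l)) : (W l).Nonsingular x y := by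
  rw [← equation_iff_nonsingular_of_Δ_ne_zero]
  · exact (W_eq l x y).2 h
  · rw [W_disc]
    have : (16 : K) = 2 ^ 4 := by norm_num
    rw [this]
    exact mul_ne_zero (mul_ne_zero (pow_ne_zero _ two_ne_zero) (pow_ne_zero _ h0))
      (pow_ne_zero _ (sub_ne_zero.2 h1))

/-- constructor of affine points -/
def mkP [NeZero (2 : K)] {l : K} (h0 : l ≠ 0) (h1 : l ≠ 1) (x y : K)
    (h : y ^ 2 = x * (x + 1) * (x + l)) : E l :=
  .some x y (W_nonsing h0 h1 h)

@[simp] theorem xc_mkP [NeZero (2 : K)] {l : K} (h0 : l ≠ 0) (h1 : l ≠ 1) (x y : K)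
    (h : y ^ 2 = x * (x + 1) * (x + l)) : xc (mkP h0 h1 x y h) = x := rfl

@[simp] theorem yc_mkP [NeZero (2 : K)] {l : K} (h0 : l ≠ 0) (h1 : l ≠ 1) (x y : K)
    (h : y ^ 2 = x * (x + 1) * (x + l)) : yc (mkP h0 h1 x y h) = y := rfl

theorem mkP_ne [NeZero (2 : K)] {l : K} (h0 : l ≠ 0) (h1 : l ≠ 1) (x y : K)
    (h : y ^ 2 = x * (x + 1) * (x + l)) : mkP h0 h1 x y h ≠ 0 :=
  Point.some_ne_zero _

@[simp] theorem xc_neg {l : K} (P : E l) : xc (-P) = xc P := by
  cases P <;> rfl

@[simp] theorem yc_neg {l : K} (P : E l) : yc (-P) = - yc P := by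
  cases P with
  | zero => exact neg_zero.symm
  | some x y h =>
    change (W l).negY x y = - y
    exact W_negY l x y

theorem curve_eq {l : K} {P : E l} (hP : P ≠ 0) :
    yc P ^ 2 = xc P * (xc P + 1) * (xc P + l) := by
  cases P with
  | zero => exact absurd rfl hP
  | some x y h => exact (W_eq l x y).1 h.1

theorem pt_ext {l : K} {P Q : E l} (hP : P ≠ 0) (hQ : Q ≠ 0) (hx : xc P = xc Q)
    (hy : yc P = yc Q) : P = Q := by
  cases P with
  | zero => exact absurd rfl hP
  | some x y h =>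
    cases Q with
    | zero => exact absurd rfl hQ
    | some x' y' h' =>
      have h1 : x = x' := hx
      have h2 : y = y' := hy
      subst h1 h2
      rfl

theorem xc_eq_iff {l : K} {P Q : E l} (hP : P ≠ 0) (hQ : Q ≠ 0) :
    xc P = xc Q ↔ P = Q ∨ P = -Q := by
  cases P with
  | zero => exact absurd rfl hP
  | some x y h =>
    cases Q with
    | zero => exact absurd rfl hQ
    | some x' y' h' => exact Point.X_eq_iff

theorem neg_ne {l : K} {P : E l} (hP : P ≠ 0) : -P ≠ 0 := by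
  intro h
  apply hP
  have : - - P = - 0 := by rw [h]
  simpa using this

/-! ### the classes -/

/-- the derivative of `x (x + 1) (x + l)` -/
def dif (l e : K) : K := (e + 1) * (e + l) + e * (e + l) + e * (e + 1)

open Classical in
/-- the class of `x - e`, for a root `e` -/
noncomputable def cls {l : K} (e : K) (P : E l) : K :=
  if P = 0 then 1 else if xc P = e then dif l e else xc P - e

theorem cls_zero {l : K} (e : K) : cls e (0 : E l) = 1 := by
  unfold cls; rw [if_pos rfl]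

theorem cls_ne {l : K} {e : K} {P : E l} (hP : P ≠ 0) (h : xc P ≠ e) : cls e P = xc P - e := by
  unfold cls; rw [if_neg hP, if_neg h]

theorem cls_eq {l : K} {e : K} {P : E l} (hP : P ≠ 0) (h : xc P = e) : cls e P = dif l e := by
  unfold cls; rw [if_neg hP, if_pos h]

theorem cls_neg {l : K} (e : K) (P : E l) : cls e (-P) = cls e P := by
  by_cases hP : P = 0
  · rw [hP]; rfl
  · by_cases h : xc P = e
    · rw [cls_eq hP h, cls_eq (neg_ne hP) (by rw [xc_neg, h])]
    · rw [cls_ne hP h, cls_ne (neg_ne hP) (by rw [xc_neg]; exact h), xc_neg]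

/-- `e` is a root, and the derivative there is nonzero -/
structure Root (l e : K) : Prop where
  root : e * (e + 1) * (e + l) = 0
  dif_ne : dif l e ≠ 0

theorem Root.cls_ne_zero {l e : K} (he : Root l e) (P : E l) : cls e P ≠ 0 := by
  by_cases hP : P = 0
  · rw [hP, cls_zero]; exact one_ne_zero
  · by_cases h : xc P = e
    · rw [cls_eq hP h]; exact he.dif_ne
    · rw [cls_ne hP h]; exact sub_ne_zero.2 h

theorem Root.yc {l e : K} (he : Root l e) {P : E l} (hP : P ≠ 0) (h : xc P = e) :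
    yc P = 0 := by
  have := curve_eq hP
  rw [h, he.root] at this
  exact pow_eq_zero_iff two_ne_zero |>.1 this

theorem Root.unique {l e : K} (he : Root l e) {P Q : E l} (hP : P ≠ 0) (hQ : Q ≠ 0)
    (h : xc P = e) (h' : xc Q = e) : P = Q :=
  pt_ext hP hQ (by rw [h, h']) (by rw [he.yc hP h, he.yc hQ h'])

variable [DecidableEq K]

/-- The fundamental collinearity statement. -/
theorem line_of_add_eq_zero {l : K} {P Q R : E l} (hP : P ≠ 0) (hQ : Q ≠ 0) (hR : R ≠ 0)
    (h : P + Q + R = 0) : ∃ L c : K, yc P = L * xc P + c ∧ yc Q = L * xc Q + c ∧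
      yc R = L * xc R + c ∧ xc P + xc Q + xc R = L ^ 2 - (1 + l) ∧
      xc P * xc Q + xc P * xc R + xc Q * xc R = l - 2 * L * c ∧
      xc P * xc Q * xc R = c ^ 2 := by
  have hR' : R = -(P + Q) := by
    rw [eq_neg_iff_add_eq_zero, add_comm]; exact h
  cases P with
  | zero => exact absurd rfl hP
  | some x₁ y₁ h₁ =>
    cases Q with
    | zero => exact absurd rfl hQ
    | some x₂ y₂ h₂ =>
      by_cases hxy : x₁ = x₂ ∧ y₁ = (W l).negY x₂ y₂
      · exfalso
        apply hR
        rw [hR', Point.add_of_Y_eq hxy.1 hxy.2]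
        rfl
      · set L := (W l).slope x₁ x₂ y₁ y₂ with hL
        have hadd : Point.some x₁ y₁ h₁ + Point.some x₂ y₂ h₂ =
            -Point.some _ _ (nonsingular_negAdd h₁ h₂ hxy) := by
          rw [Point.add_some hxy]
          rfl
        have hRR : R = Point.some _ _ (nonsingular_negAdd h₁ h₂ hxy) := by
          rw [hR', hadd, neg_neg]
        have hpoly := addPolynomial_slope h₁.1 h₂.1 hxy
        have hpoly2 := (W l).addPolynomial_eq x₁ y₁ L
        rw [← hL] at hpoly
        set x₃ := (W l).addX x₁ x₂ L with hx₃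
        have hx₃' : x₃ = L ^ 2 - (1 + l) - x₁ - x₂ := by
          rw [hx₃, addX]; simp [W]
        have hev : ∀ t : K, -((t - x₁) * (t - x₂) * (t - x₃)) =
            -(t ^ 3 + (- L ^ 2 + (1 + l)) * t ^ 2 + (2 * x₁ * L ^ 2 + (- 2 * y₁) * L + l) * t
              + (- x₁ ^ 2 * L ^ 2 + 2 * x₁ * y₁ * L - y₁ ^ 2)) := by
          intro t
          have := congrArg (Polynomial.eval t) (hpoly.symm.trans hpoly2)
          simp only [Cubic.toPoly, Polynomial.eval_neg, Polynomial.eval_mul, Polynomial.eval_sub,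
            Polynomial.eval_X, Polynomial.eval_C, Polynomial.eval_add, Polynomial.eval_pow] at this
          rw [this]
          simp only [W]
          ring
        have h0 := hev 0
        have h1 := hev 1
        refine ⟨L, y₁ - L * x₁, ?_, ?_, ?_, ?_, ?_, ?_⟩
        · change y₁ = L * x₁ + (y₁ - L * x₁)
          ring
        · change y₂ = L * x₂ + (y₁ - L * x₁)
          by_cases hx : x₁ = x₂
          · have hy : y₁ ≠ (W l).negY x₂ y₂ := fun hy => hxy ⟨hx, hy⟩
            have := Y_eq_of_Y_ne h₁.1 h₂.1 hx hy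
            rw [hx, this]; ring
          · rw [hL, slope_of_X_ne hx]
            have : x₁ - x₂ ≠ 0 := sub_ne_zero.2 hx
            field_simp
            ring
        · rw [hRR]
          change (W l).negAddY x₁ x₂ y₁ L = L * x₃ + (y₁ - L * x₁)
          rw [negAddY, ← hx₃]
          ring
        · rw [hRR]
          change x₁ + x₂ + x₃ = _
          rw [hx₃']; ring
        · rw [hRR]
          change x₁ * x₂ + x₁ * x₃ + x₂ * x₃ = _
          rw [hx₃'] at h0 h1 ⊢
          linear_combination h0 - h1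
        · rw [hRR]
          change x₁ * x₂ * x₃ = _
          linear_combination h0

theorem add_self_of_yc {l : K} {P : E l} (h : yc P = 0) : P + P = 0 := by
  cases P with
  | zero => exact add_zero _
  | some x y h' =>
    have : y = 0 := h
    apply Point.add_self_of_Y_eq
    rw [W_negY, this, neg_zero]

theorem yc_of_add_self [NeZero (2 : K)] {l : K} {P : E l} (h : P + P = 0) : yc P = 0 := by
  have h1 : P = -P := eq_neg_iff_add_eq_zero.2 h
  have h2 : yc P = - yc P := by
    conv_lhs => rw [h1]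
    exact yc_neg P
  have : 2 * yc P = 0 := by linear_combination h2
  exact (mul_eq_zero.1 this).resolve_left two_ne_zero

/-- if the third point is the 2-torsion point, the product is the derivative -/
theorem Root.tors {l e : K} (he : Root l e) {P Q R : E l} (hP : P ≠ 0) (hQ : Q ≠ 0)
    (hR : R ≠ 0) (h : P + Q + R = 0) (hxR : xc R = e) :
    (xc P - e) * (xc Q - e) = dif l e := by
  obtain ⟨L, c, -, -, h3, h4, h5, h6⟩ := line_of_add_eq_zero hP hQ hR h
  rw [he.yc hR hxR, hxR] at h3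
  rw [hxR] at h4 h5
  unfold dif
  linear_combination h5 - 2 * e * h4 + 2 * L * h3

/-- the product of the three classes is a square -/
theorem Root.cls_mul {l e : K} (he : Root l e) {P Q R : E l} (h : P + Q + R = 0) :
    IsSquare (cls e P * cls e Q * cls e R) := by
  by_cases hP : P = 0
  · subst hP
    rw [zero_add] at h
    have : Q = -R := eq_neg_of_add_eq_zero_left h
    rw [this, cls_zero, cls_neg, one_mul]
    exact ⟨_, rfl⟩
  by_cases hQ : Q = 0
  · subst hQ
    rw [add_zero] at h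
    have : P = -R := eq_neg_of_add_eq_zero_left h
    rw [this, cls_zero, cls_neg, mul_one]
    exact ⟨_, rfl⟩
  by_cases hR : R = 0
  · subst hR
    rw [add_zero] at h
    have : P = -Q := eq_neg_of_add_eq_zero_left h
    rw [this, cls_zero, cls_neg, mul_one]
    exact ⟨_, rfl⟩
  have tor : ∀ {P Q R : E l}, P ≠ 0 → Q ≠ 0 → R ≠ 0 → P + Q + R = 0 → xc R = e →
      cls e P * cls e Q * cls e R = dif l e ^ 2 := by
    intro P Q R hP hQ hR h hx
    have h1 := he.tors hP hQ hR h hx
    have h2 : xc P - e ≠ 0 := left_ne_zero_of_mul (h1 ▸ he.dif_ne)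
    have h3 : xc Q - e ≠ 0 := right_ne_zero_of_mul (h1 ▸ he.dif_ne)
    rw [cls_ne hP (sub_ne_zero.1 h2), cls_ne hQ (sub_ne_zero.1 h3), cls_eq hR hx, h1]
    ring
  by_cases hxR : xc R = e
  · exact ⟨dif l e, by rw [tor hP hQ hR h hxR]; ring⟩
  by_cases hxQ : xc Q = e
  · refine ⟨dif l e, ?_⟩
    have := tor hP hR hQ (by rw [← h]; abel) hxQ
    linear_combination this
  by_cases hxP : xc P = e
  · refine ⟨dif l e, ?_⟩
    have := tor hQ hR hP (by rw [← h]; abel) hxP
    linear_combination this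
  obtain ⟨L, c, h1, h2, h3, h4, h5, h6⟩ := line_of_add_eq_zero hP hQ hR h
  rw [cls_ne hP hxP, cls_ne hQ hxQ, cls_ne hR hxR]
  refine ⟨L * e + c, ?_⟩
  have := he.root
  linear_combination e ^ 2 * h4 - e * h5 + h6 - this

/-- additivity of the class -/
theorem Root.cls_add {l e : K} (he : Root l e) (P Q : E l) :
    IsSquare (cls e (P + Q) * (cls e P * cls e Q)) := by
  have := he.cls_mul (P := P) (Q := Q) (R := -(P + Q)) (add_neg_cancel _)
  rw [cls_neg] at this
  rwa [mul_comm] at this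

/-! ### halving -/

theorem halving_aux [NeZero (2 : K)] {l : K} (h0 : l ≠ 0) (h1 : l ≠ 1) {P : E l} (hP : P ≠ 0)
    {r₁ r₂ r₃ : K} (e₁ : xc P = r₁ ^ 2) (e₂ : xc P + 1 = r₂ ^ 2) (e₃ : xc P + l = r₃ ^ 2)
    (hy : yc P = r₁ * r₂ * r₃) : ∃ R : E l, R + R = P := by
  have d12 : r₁ + r₂ ≠ 0 := by
    intro h
    have : (1 : K) = 0 := by linear_combination e₂ - e₁ - (r₁ - r₂) * h
    exact one_ne_zero this
  have d13 : r₁ + r₃ ≠ 0 := by
    intro h
    apply h0
    linear_combination e₃ - e₁ - (r₁ - r₃) * h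
  have d23 : r₂ + r₃ ≠ 0 := by
    intro h
    apply h1
    linear_combination e₃ - e₂ - (r₂ - r₃) * h
  set x₀ : K := xc P + r₁ * r₂ + r₁ * r₃ + r₂ * r₃ with hx₀
  set y₀ : K := (r₁ + r₂) * (r₁ + r₃) * (r₂ + r₃) with hy₀
  have f₁ : x₀ = (r₁ + r₂) * (r₁ + r₃) := by rw [hx₀]; linear_combination e₁
  have f₂ : x₀ + 1 = (r₁ + r₂) * (r₂ + r₃) := by rw [hx₀]; linear_combination e₂
  have f₃ : x₀ + l = (r₁ + r₃) * (r₂ + r₃) := by rw [hx₀]; linear_combination e₃
  have hR : y₀ ^ 2 = x₀ * (x₀ + 1) * (x₀ + l) := by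
    rw [f₂, f₃, f₁, hy₀]; ring
  have hyne : y₀ ≠ 0 := mul_ne_zero (mul_ne_zero d12 d13) d23
  set R : E l := mkP h0 h1 x₀ y₀ hR with hRdef
  have hRne : R ≠ 0 := mkP_ne h0 h1 x₀ y₀ hR
  refine ⟨R, ?_⟩
  have hRR : R + R ≠ 0 := by
    intro h
    exact hyne (yc_of_add_self h)
  obtain ⟨L, c, g1, -, g3, g4, g5, g6⟩ := line_of_add_eq_zero hRne hRne (neg_ne hRR)
    (add_neg_cancel (R + R))
  have hxR : xc R = x₀ := rfl
  have hyR : yc R = y₀ := rfl
  rw [hxR, xc_neg] at g4 g5
  rw [hxR, hyR] at g1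
  rw [xc_neg, yc_neg] at g3
  have hL : L = r₁ + r₂ + r₃ := by
    have : 2 * y₀ * (L - (r₁ + r₂ + r₃)) = 0 := by
      have k1 : 2 * L * y₀ = 3 * x₀ ^ 2 + 2 * (1 + l) * x₀ + l := by
        linear_combination 2 * L * g1 - 2 * x₀ * g4 + g5
      have k2 : 3 * x₀ ^ 2 + 2 * (1 + l) * x₀ + l =
          x₀ * (x₀ + 1) + x₀ * (x₀ + l) + (x₀ + 1) * (x₀ + l) := by ring
      have k3 : x₀ * (x₀ + 1) + x₀ * (x₀ + l) + (x₀ + 1) * (x₀ + l) =
          2 * y₀ * (r₁ + r₂ + r₃) := by
        rw [f₂, f₃, f₁, hy₀]; ring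
      linear_combination k1 + k2 + k3
    exact sub_eq_zero.1 ((mul_eq_zero.1 this).resolve_left (mul_ne_zero two_ne_zero hyne))
  have hx : xc (R + R) = xc P := by
    have : xc (R + R) = L ^ 2 - (1 + l) - 2 * x₀ := by linear_combination g4
    rw [this, hL, hx₀]
    linear_combination -e₁ - e₂ - e₃
  apply pt_ext hRR hP hx
  have hc : c = y₀ - L * x₀ := by linear_combination -g1
  rw [hx, hc] at g3
  have : yc (R + R) = -(L * xc P + (y₀ - L * x₀)) := by rw [← g3]; ring
  rw [this, hy, hL, hx₀, hy₀]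
  ring

/-- a point all of whose classes are squares is divisible by 2 -/
theorem halving [NeZero (2 : K)] {l : K} (h0 : l ≠ 0) (h1 : l ≠ 1) {P : E l}
    (c₁ : IsSquare (cls 0 P)) (c₂ : IsSquare (cls (-1) P)) (c₃ : IsSquare (cls (-l) P)) :
    ∃ R : E l, R + R = P := by
  by_cases hP : P = 0
  · exact ⟨0, by rw [hP, add_zero]⟩
  have key : ∀ e : K, IsSquare (cls e P) → ∃ r, xc P - e = r ^ 2 := by
    intro e he
    by_cases hx : xc P = e
    · exact ⟨0, by rw [hx]; ring⟩
    · rw [cls_ne hP hx] at he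
      obtain ⟨r, hr⟩ := he
      exact ⟨r, by rw [hr]; ring⟩
  obtain ⟨r₁, e₁⟩ := key _ c₁
  obtain ⟨r₂, e₂⟩ := key _ c₂
  obtain ⟨r₃, e₃⟩ := key _ c₃
  rw [sub_zero] at e₁
  rw [sub_neg_eq_add] at e₂ e₃
  have hy : (yc P - r₁ * r₂ * r₃) * (yc P + r₁ * r₂ * r₃) = 0 := by
    have := curve_eq hP
    rw [e₁, ← e₁, e₂, e₃, e₁] at this
    linear_combination this
  rcases mul_eq_zero.1 hy with h | h
  · exact halving_aux h0 h1 hP e₁ e₂ e₃ (by linear_combination h)
  · exact halving_aux h0 h1 hP (r₁ := -r₁) (by rw [e₁]; ring) e₂ e₃ (by linear_combination h)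

omit [DecidableEq K] in
theorem root_zero {l : K} (h0 : l ≠ 0) : Root l 0 :=
  ⟨by ring, by unfold dif; simpa using h0⟩

omit [DecidableEq K] in
theorem root_one {l : K} (h1 : l ≠ 1) : Root l (-1) := by
  refine ⟨by ring, ?_⟩
  unfold dif
  intro h
  apply h1
  linear_combination -h

omit [DecidableEq K] in
theorem root_l {l : K} (h0 : l ≠ 0) (h1 : l ≠ 1) : Root l (-l) := by
  refine ⟨by ring, ?_⟩
  unfold dif
  intro h
  have : l * (l - 1) = 0 := by linear_combination h
  rcases mul_eq_zero.1 this with h2 | h2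
  · exact h0 h2
  · exact h1 (sub_eq_zero.1 h2)

omit [DecidableEq K] in
/-- the product of the classes at the three roots is a square -/
theorem cls_prod {l : K} (h0 : l ≠ 0) (h1 : l ≠ 1) (P : E l) :
    IsSquare (cls 0 P * cls (-1) P * cls (-l) P) := by
  by_cases hP : P = 0
  · rw [hP, cls_zero, cls_zero, cls_zero]; exact ⟨1, by ring⟩
  have n1 : (0 : K) ≠ -1 := by
    intro h
    have : (1 : K) = 0 := by linear_combination h
    exact one_ne_zero this
  have n2 : (0 : K) ≠ -l := by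
    intro h
    apply h0; linear_combination h
  have n3 : (-1 : K) ≠ -l := by
    intro h
    apply h1; linear_combination h
  by_cases x1 : xc P = 0
  · rw [cls_eq hP x1, cls_ne hP (by rw [x1]; exact n1), cls_ne hP (by rw [x1]; exact n2), x1]
    exact ⟨l, by unfold dif; ring⟩
  by_cases x2 : xc P = -1
  · rw [cls_ne hP x1, cls_eq hP x2, cls_ne hP (by rw [x2]; exact n3), x2]
    exact ⟨l - 1, by unfold dif; ring⟩
  by_cases x3 : xc P = -l
  · rw [cls_ne hP x1, cls_ne hP x2, cls_eq hP x3, x3]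
    exact ⟨l * (l - 1), by unfold dif; ring⟩
  rw [cls_ne hP x1, cls_ne hP x2, cls_ne hP x3]
  exact ⟨yc P, by rw [← sq, curve_eq hP]; ring⟩

/-- the 2-torsion has exactly four elements -/
theorem card_two_tors [NeZero (2 : K)] {l : K} (h0 : l ≠ 0) (h1 : l ≠ 1) :
    Nat.card {P : E l // P + P = 0} = 4 := by
  have n1 : (0 : K) ≠ -1 := by
    intro h
    have : (1 : K) = 0 := by linear_combination h
    exact one_ne_zero this
  have n2 : (0 : K) ≠ -l := by
    intro h
    apply h0; linear_combination h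
  have n3 : (-1 : K) ≠ -l := by
    intro h
    apply h1; linear_combination h
  have q : ∀ e : K, Root l e → (0 : K) ^ 2 = e * (e + 1) * (e + l) := by
    intro e he
    rw [he.root]; ring
  let A : E l := mkP h0 h1 0 0 (q _ (root_zero h0))
  let B : E l := mkP h0 h1 (-1) 0 (q _ (root_one h1))
  let C : E l := mkP h0 h1 (-l) 0 (q _ (root_l h0 h1))
  have hset : {P : E l | P + P = 0} = {0, A, B, C} := by
    ext P
    simp only [Set.mem_ofPred_eq, Set.mem_insert_iff, Set.mem_singleton_iff]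
    constructor
    · intro h
      by_cases hP : P = 0
      · exact Or.inl hP
      right
      have hy := yc_of_add_self h
      have := curve_eq hP
      rw [hy] at this
      have h2 : xc P * (xc P + 1) * (xc P + l) = 0 := by rw [← this]; ring
      rcases mul_eq_zero.1 h2 with h3 | h3
      · rcases mul_eq_zero.1 h3 with h4 | h4
        · left
          exact pt_ext hP (mkP_ne _ _ _ _ _) h4 hy
        · right; left
          exact pt_ext hP (mkP_ne _ _ _ _ _) (eq_neg_of_add_eq_zero_left h4) hy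
      · right; right
        exact pt_ext hP (mkP_ne _ _ _ _ _) (eq_neg_of_add_eq_zero_left h3) hy
    · rintro (rfl | rfl | rfl | rfl)
      · exact add_zero _
      · exact add_self_of_yc rfl
      · exact add_self_of_yc rfl
      · exact add_self_of_yc rfl
  have hAB : A ≠ B := fun h => n1 (congrArg xc h)
  have hAC : A ≠ C := fun h => n2 (congrArg xc h)
  have hBC : B ≠ C := fun h => n3 (congrArg xc h)
  have hA : (0 : E l) ≠ A := (mkP_ne _ _ _ _ _).symm
  have hB : (0 : E l) ≠ B := (mkP_ne _ _ _ _ _).symm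
  have hC : (0 : E l) ≠ C := (mkP_ne _ _ _ _ _).symm
  change Nat.card ({P : E l | P + P = 0} : Set (E l)) = 4
  rw [Nat.card_coe_set_eq, hset]
  rw [Set.ncard_insert_of_notMem (by simp [hA, hB, hC]),
    Set.ncard_insert_of_notMem (by simp [hAB, hAC]), Set.ncard_pair hBC]

/-! ### the 2-coverings -/

omit [DecidableEq K] in
theorem HasPoint.map {L : Type*} [Field L] (φ : K →+* L) {b₁ b₂ l : K}
    (h : HasPoint K b₁ b₂ l) : HasPoint L (φ b₁) (φ b₂) (φ l) := by
  obtain ⟨z₀, z₁, z₂, z₃, hz, e₁, e₂⟩ := h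
  refine ⟨φ z₀, φ z₁, φ z₂, φ z₃, ?_, ?_, ?_⟩
  · simpa only [map_eq_zero] using hz
  · rw [← map_pow, ← map_pow, ← map_pow, ← map_mul, ← map_mul, ← map_sub, e₁]
  · rw [← map_pow, ← map_pow, ← map_pow, ← map_mul, ← map_mul, ← map_mul, ← map_mul, ← map_sub, e₂]

omit [DecidableEq K] in
theorem eq_of_isSquare_mul {b c : K} (hb : b ≠ 0) (h : IsSquare (b * c)) :
    ∃ z, c = b * z ^ 2 := by
  obtain ⟨r, hr⟩ := h
  refine ⟨r / b, ?_⟩
  field_simp
  linear_combination hr

omit [DecidableEq K] in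
/-- a point with the given classes gives a point of the 2-covering -/
theorem hasPoint_of_cls {l : K} (h0 : l ≠ 0) (h1 : l ≠ 1) {b₁ b₂ : K} (hb₁ : b₁ ≠ 0)
    (hb₂ : b₂ ≠ 0) (P : E l) (c₁ : IsSquare (b₁ * cls 0 P)) (c₂ : IsSquare (b₂ * cls (-1) P)) :
    HasPoint K b₁ b₂ l := by
  have c₃ : IsSquare (b₁ * b₂ * cls (-l) P) := by
    have h2 := (c₁.mul c₂).mul (cls_prod h0 h1 P)
    have n1 := (root_zero h0).cls_ne_zero P
    have n2 := (root_one h1).cls_ne_zero P
    have e : b₁ * cls 0 P * (b₂ * cls (-1) P) * (cls 0 P * cls (-1) P * cls (-l) P) =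
        (b₁ * b₂ * cls (-l) P) * (cls 0 P * cls (-1) P) ^ 2 := by ring
    rw [e] at h2
    obtain ⟨r, hr⟩ := h2
    refine ⟨r / (cls 0 P * cls (-1) P), ?_⟩
    field_simp
    linear_combination hr
  by_cases hP : P = 0
  · subst hP
    rw [cls_zero, mul_one] at c₁ c₂
    obtain ⟨s₁, hs₁⟩ := c₁
    obtain ⟨s₂, hs₂⟩ := c₂
    have m1 : s₁ ≠ 0 := fun h => hb₁ (by rw [hs₁, h, mul_zero])
    have m2 : s₂ ≠ 0 := fun h => hb₂ (by rw [hs₂, h, mul_zero])
    refine ⟨0, s₁⁻¹, s₂⁻¹, (s₁ * s₂)⁻¹, ?_, ?_, ?_⟩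
    · rintro ⟨-, h, -⟩
      exact inv_ne_zero m1 h
    · rw [hs₁, hs₂]; field_simp; ring
    · rw [hs₁, hs₂]; field_simp; ring
  have key : ∀ b e : K, b ≠ 0 → IsSquare (b * cls e P) → ∃ z, xc P - e = b * z ^ 2 := by
    intro b e hb he
    by_cases hx : xc P = e
    · exact ⟨0, by rw [hx]; ring⟩
    · rw [cls_ne hP hx] at he
      exact eq_of_isSquare_mul hb he
  obtain ⟨z₁, e₁⟩ := key _ _ hb₁ c₁
  obtain ⟨z₂, e₂⟩ := key _ _ hb₂ c₂
  obtain ⟨z₃, e₃⟩ := key _ _ (mul_ne_zero hb₁ hb₂) c₃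
  refine ⟨1, z₁, z₂, z₃, fun h => one_ne_zero h.1, ?_, ?_⟩
  · linear_combination e₁ - e₂
  · linear_combination e₁ - e₃

end OddCov
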