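import Mathlib

/-!
# Definitions

The elliptic curve `y² = x (x + 1) (x + l)`, its 2-coverings, and local conditions at the places
of a rational function field.
-/

namespace OddCov

open WithZero Polynomial IsDedekindDomain

/-- the curve `y² = x (x + 1) (x + l)` -/
def W {K : Type*} [Field K] (l : K) : WeierstrassCurve.Affine K := ⟨0, 1 + l, 0, l, 0⟩

/-- the group of points of `W l` -/
abbrev E {K : Type*} [Field K] (l : K) : Type _ := (W l).Point

/-- the 2-covering of `W l` attached to `(b₁, b₂)` has a point over `L`; it is given by the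
equations `x = b₁ z₁²`, `x + 1 = b₂ z₂²`, `x + l = b₁ b₂ z₃²` in homogeneous form -/
def HasPoint (L : Type*) [Field L] (b₁ b₂ l : L) : Prop :=
  ∃ z₀ z₁ z₂ z₃ : L, ¬ (z₀ = 0 ∧ z₁ = 0 ∧ z₂ = 0 ∧ z₃ = 0) ∧
    b₂ * z₂ ^ 2 - b₁ * z₁ ^ 2 = z₀ ^ 2 ∧ b₁ * b₂ * z₃ ^ 2 - b₁ * z₁ ^ 2 = l * z₀ ^ 2

section

variable {L : Type*} [Field L] (v : Valuation L ℤᵐ⁰)

/-- even valuation -/
def EvV (b : L) : Prop := ∃ m : ℤ, v b = exp (2 * m)

/-- odd valuation -/
def OddV (b : L) : Prop := ∃ m : ℤ, v b = exp (2 * m + 1)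

/-- a square times a 1-unit -/
def SqV (b : L) : Prop := ∃ g : L, v (b * g ^ 2 - 1) < 1

end

/-- the places of `F(t)`: the maximal ideals of `F[t]` and the place at infinity -/
abbrev Place (F : Type*) [Field F] : Type _ := Option (HeightOneSpectrum F[X])

variable {F : Type*} [Field F] [DecidableEq (RatFunc F)]

/-- the valuation of a place -/
noncomputable def plv : Place F → Valuation (RatFunc F) ℤᵐ⁰
  | none => RatFunc.inftyValuation F
  | some v => v.valuation (RatFunc F)

/-- the 2-covering attached to `(b₁, b₂)` has points over all completions of `F(t)` -/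
def LocSol (b₁ b₂ l : RatFunc F) : Prop :=
  (∀ v : HeightOneSpectrum F[X], HasPoint (v.adicCompletion (RatFunc F))
    (algebraMap _ _ b₁) (algebraMap _ _ b₂) (algebraMap _ _ l)) ∧
  HasPoint (RatFunc.CompletionAtInfty F) (algebraMap _ _ b₁) (algebraMap _ _ b₂) (algebraMap _ _ l)

/-- there is exactly one place above `s`, of odd ramification index -/
def OneAbove (u : RatFunc F) (s : F) : Prop :=
  ∃ w : Place F, plv w (u - RatFunc.C s) < 1 ∧ OddV (plv w) (u - RatFunc.C s) ∧
    ∀ w' : Place F, plv w' (u - RatFunc.C s) < 1 → w' = w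

/-- every pair `b₁, b₂` such that

* `b₁` has even valuation wherever `u` is a unit and is a local square wherever `u ^ d = 1`,
* `b₂` has even valuation away from the poles of `u` and is a local square at the zeros of `u`,
* `b₁ * b₂` is a local square at the poles of `u`,

consists of squares -/
def Unlinked (d : ℕ) (u : RatFunc F) : Prop :=
  ∀ b₁ b₂ : RatFunc F, b₁ ≠ 0 → b₂ ≠ 0 →
    (∀ w : Place F, plv w u = 1 → EvV (plv w) b₁) →
    (∀ w : Place F, plv w (u ^ d - 1) < 1 → SqV (plv w) b₁) →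
    (∀ w : Place F, plv w u ≤ 1 → EvV (plv w) b₂) →
    (∀ w : Place F, plv w u < 1 → SqV (plv w) b₂) →
    (∀ w : Place F, 1 < plv w u → SqV (plv w) (b₁ * b₂)) → IsSquare b₁ ∧ IsSquare b₂

end OddCov
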