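import Mathlib

/-!
# Sums over monic polynomials over a finite field
-/

namespace OddCov

open Polynomial UniqueFactorizationMonoid

variable (F : Type*) [Field F] [Finite F]

theorem finite_monic (k : ℕ) : {p : F[X] | p.Monic ∧ p.natDegree = k}.Finite := by
  have : Set.InjOn (fun (p : F[X]) (i : Fin (k + 1)) => p.coeff i)
      {p : F[X] | p.Monic ∧ p.natDegree = k} := by
    intro p hp q hq h
    ext i
    by_cases hi : i < k + 1
    · exact congrFun h ⟨i, hi⟩
    · rw [coeff_eq_zero_of_natDegree_lt (by rw [hp.2]; omega),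
        coeff_eq_zero_of_natDegree_lt (by rw [hq.2]; omega)]
  exact Set.Finite.of_finite_image (Set.toFinite _) this

/-- the monic polynomials of degree `k` -/
noncomputable def Mk (k : ℕ) : Finset F[X] := (finite_monic F k).toFinset

variable {F}

theorem mem_Mk {k : ℕ} {p : F[X]} : p ∈ Mk F k ↔ p.Monic ∧ p.natDegree = k := by
  simp [Mk]

open Classical in
/-- the monic irreducible polynomials of degree `k` -/
noncomputable def Irr (F : Type*) [Field F] [Finite F] (k : ℕ) : Finset F[X] :=
  (Mk F k).filter Irreducible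

theorem mem_Irr {k : ℕ} {p : F[X]} : p ∈ Irr F k ↔ (p.Monic ∧ p.natDegree = k) ∧ Irreducible p := by
  simp [Irr, mem_Mk]

/-- translating by a polynomial of smaller degree -/
theorem sum_translate {k : ℕ} {h : F[X]} (hd : h.degree < k) {A : Type*} [AddCommMonoid A]
    (g : F[X] → A) : ∑ f ∈ Mk F k, g (f + h) = ∑ f ∈ Mk F k, g f := by
  refine Finset.sum_bij (fun f _ => f + h) ?_ ?_ ?_ ?_
  · intro f hf
    rw [mem_Mk] at hf ⊢
    have h1 : h.degree < f.degree := by
      rw [degree_eq_natDegree hf.1.ne_zero, hf.2]; exact hd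
    exact ⟨hf.1.add_of_left h1, by rw [natDegree_add_eq_left_of_degree_lt h1, hf.2]⟩
  · intro f _ f' _ he
    exact add_right_cancel he
  · intro f hf
    rw [mem_Mk] at hf
    have h1 : (-h).degree < f.degree := by
      rw [degree_neg, degree_eq_natDegree hf.1.ne_zero, hf.2]; exact hd
    refine ⟨f + -h, ?_, by ring⟩
    rw [mem_Mk]
    exact ⟨hf.1.add_of_left h1, by rw [natDegree_add_eq_left_of_degree_lt h1, hf.2]⟩
  · intro f _; rfl

/-- multiples of a fixed monic polynomial -/
theorem sum_multiples {k d : ℕ} {P : F[X]} (hP : P.Monic) (hd : P.natDegree = d) {A : Type*}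
    [AddCommMonoid A] (g : F[X] → A) [DecidablePred fun f : F[X] => P ∣ f] :
    ∑ f ∈ (Mk F k).filter (P ∣ ·), g f = if d ≤ k then ∑ f ∈ Mk F (k - d), g (P * f) else 0 := by
  split_ifs with hdk
  · symm
    refine Finset.sum_bij (fun f _ => P * f) ?_ ?_ ?_ ?_
    · intro f hf
      rw [mem_Mk] at hf
      rw [Finset.mem_filter, mem_Mk]
      refine ⟨⟨hP.mul hf.1, ?_⟩, dvd_mul_right _ _⟩
      rw [hP.natDegree_mul hf.1, hd, hf.2]
      omega
    · intro f _ f' _ he
      exact mul_left_cancel₀ hP.ne_zero he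
    · intro f hf
      rw [Finset.mem_filter, mem_Mk] at hf
      obtain ⟨⟨h1, h2⟩, q, rfl⟩ := hf
      have hq : q.Monic := hP.of_mul_monic_left h1
      refine ⟨q, ?_, rfl⟩
      rw [mem_Mk]
      refine ⟨hq, ?_⟩
      rw [hP.natDegree_mul hq, hd] at h2
      omega
    · intro f _; rfl
  · rw [Finset.sum_eq_zero]
    intro f hf
    exfalso
    rw [Finset.mem_filter, mem_Mk] at hf
    have := natDegree_le_of_dvd hf.2 hf.1.1.ne_zero
    omega

theorem card_Mk (k : ℕ) : (Mk F k).card = Nat.card F ^ k := by
  classical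
  have := Fintype.ofFinite F
  induction k with
  | zero =>
    have : Mk F 0 = {1} := by
      ext f
      rw [mem_Mk, Finset.mem_singleton]
      constructor
      · rintro ⟨h1, h2⟩
        exact h1.natDegree_eq_zero.1 h2
      · rintro rfl
        exact ⟨monic_one, natDegree_one⟩
    rw [this, Finset.card_singleton, pow_zero]
  | succ k ih =>
    have h1 : (Mk F (k + 1)).card = (Mk F k ×ˢ (Finset.univ : Finset F)).card := by
      symm
      refine Finset.card_bij (fun q _ => X * q.1 + C q.2) ?_ ?_ ?_
      · rintro ⟨f, c⟩ hf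
        rw [Finset.mem_product, mem_Mk] at hf
        have hX : (X * f).Monic := monic_X.mul hf.1.1
        have hXd : (X * f).natDegree = k + 1 := by
          rw [monic_X.natDegree_mul hf.1.1, natDegree_X, hf.1.2]; omega
        have h2 : (C c).degree < (X * f).degree := by
          rw [degree_eq_natDegree hX.ne_zero, hXd]
          exact degree_C_le.trans_lt (by exact_mod_cast Nat.succ_pos k)
        rw [mem_Mk]
        exact ⟨hX.add_of_left h2, by rw [natDegree_add_eq_left_of_degree_lt h2, hXd]⟩
      · rintro ⟨f, c⟩ _ ⟨f', c'⟩ _ he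
        have h2 : c = c' := by
          have := congrArg (coeff · 0) he
          simpa using this
        subst h2
        have h3 : f = f' := mul_left_cancel₀ X_ne_zero (add_right_cancel he)
        rw [h3]
      · intro f hf
        rw [mem_Mk] at hf
        have hdiv : X * f.divX + C (f.coeff 0) = f := X_mul_divX_add f
        refine ⟨(f.divX, f.coeff 0), ?_, hdiv⟩
        rw [Finset.mem_product, mem_Mk]
        have hd : f.divX.natDegree = k := by rw [natDegree_divX_eq_natDegree_tsub_one, hf.2]; omega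
        refine ⟨⟨?_, hd⟩, Finset.mem_univ _⟩
        have h2 : f.coeff (k + 1) = 1 := by
          have := hf.1.coeff_natDegree
          rwa [hf.2] at this
        rw [Monic, leadingCoeff, hd, coeff_divX]
        exact h2
    rw [h1, Finset.card_product, ih, Finset.card_univ, pow_succ, Nat.card_eq_fintype_card]

/-- the degree is the sum over prime powers dividing -/
theorem natDegree_eq_sum {k : ℕ} {f : F[X]} (hf : f ∈ Mk F k)
    [∀ P : F[X], DecidablePred (P ∣ ·)] :
    (k : ℤ) = ∑ d ∈ Finset.Icc 1 k, ∑ e ∈ Finset.Icc 1 k, ∑ P ∈ Irr F d,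
      if P ^ e ∣ f then (d : ℤ) else 0 := by
  classical
  rw [mem_Mk] at hf
  obtain ⟨hmon, hdeg⟩ := hf
  have hf0 : f ≠ 0 := hmon.ne_zero
  set N := normalizedFactors f with hN
  have hprod : N.prod = f := by
    have := leadingCoeff_mul_prod_normalizedFactors f
    rwa [hmon.leadingCoeff, C_1, one_mul] at this
  have hmem : ∀ P, P ∈ N ↔ Irreducible P ∧ P.Monic ∧ P ∣ f := fun P =>
    Polynomial.mem_normalizedFactors_iff hf0
  have hsum : k = ∑ P ∈ N.toFinset, N.count P * P.natDegree := by
    rw [← hdeg]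
    conv_lhs => rw [← hprod]
    rw [natDegree_multiset_prod_of_monic]
    · rw [Finset.sum_multiset_map_count]
      rfl
    · intro P hP
      exact ((hmem P).1 hP).2.1
  have hcount : ∀ P : F[X], Irreducible P → P.Monic → ∀ e, P ^ e ∣ f ↔ e ≤ N.count P := by
    intro P hP hPm e
    rw [pow_dvd_iff_le_emultiplicity, emultiplicity_eq_count_normalizedFactors hP hf0,
      hPm.normalize_eq_self]
    exact_mod_cast Iff.rfl
  have hle : ∀ P : F[X], Irreducible P → P.Monic → N.count P ≤ k := by
    intro P hP hPm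
    have h1 : P ^ N.count P ∣ f := (hcount P hP hPm _).2 le_rfl
    have h2 := natDegree_le_of_dvd h1 hf0
    rw [natDegree_pow, hdeg] at h2
    exact (Nat.le_mul_of_pos_right _ hP.natDegree_pos).trans h2
  have h1 : ∀ d ∈ Finset.Icc 1 k, ∑ e ∈ Finset.Icc 1 k, ∑ P ∈ Irr F d,
      (if P ^ e ∣ f then (d : ℤ) else 0) =
      ∑ P ∈ N.toFinset.filter (fun P => P.natDegree = d), ((N.count P * P.natDegree : ℕ) : ℤ) := by
    intro d _
    rw [Finset.sum_comm]
    have h2 : ∀ P ∈ Irr F d, ∑ e ∈ Finset.Icc 1 k, (if P ^ e ∣ f then (d : ℤ) else 0) =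
        ((N.count P * P.natDegree : ℕ) : ℤ) := by
      intro P hP
      rw [mem_Irr] at hP
      rw [← Finset.sum_filter]
      have h3 : (Finset.Icc 1 k).filter (fun e => P ^ e ∣ f) = Finset.Icc 1 (N.count P) := by
        ext e
        rw [Finset.mem_filter, Finset.mem_Icc, Finset.mem_Icc, hcount P hP.2 hP.1.1]
        have := hle P hP.2 hP.1.1
        omega
      rw [h3, Finset.sum_const, Nat.card_Icc, Nat.add_sub_cancel, hP.1.2]
      push_cast
      rw [nsmul_eq_mul]
    rw [Finset.sum_congr rfl h2]
    symm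
    refine Finset.sum_subset ?_ ?_
    · intro P hP
      rw [Finset.mem_filter, Multiset.mem_toFinset, hmem] at hP
      rw [mem_Irr]
      exact ⟨⟨hP.1.2.1, hP.2⟩, hP.1.1⟩
    · intro P hP hP'
      rw [mem_Irr] at hP
      have : N.count P = 0 := by
        rw [Multiset.count_eq_zero]
        intro h
        apply hP'
        rw [Finset.mem_filter, Multiset.mem_toFinset]
        exact ⟨h, hP.1.2⟩
      rw [this, zero_mul]
      rfl
  rw [Finset.sum_congr rfl h1]
  rw [Finset.sum_fiberwise_of_maps_to (s := N.toFinset) (t := Finset.Icc 1 k)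
    (g := fun P => P.natDegree) (f := fun P => ((N.count P * P.natDegree : ℕ) : ℤ))]
  · rw [← Nat.cast_sum, ← hsum]
  · intro P hP
    rw [Multiset.mem_toFinset, hmem] at hP
    rw [Finset.mem_Icc]
    refine ⟨hP.1.natDegree_pos, ?_⟩
    rw [← hdeg]
    exact natDegree_le_of_dvd hP.2.2 hf0

end OddCov
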