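import Pool.Agent.Helper9.BSD.Dir1

/-!
# The logarithmic derivative identity
-/

namespace OddCov

open Polynomial

variable {F : Type*} [Field F] [Finite F]

/-- sums over monic polynomials -/
noncomputable def Ss (g : F[X] →* ℤ) (k : ℕ) : ℤ := ∑ f ∈ Mk F k, g f

/-- sums over prime powers -/
noncomputable def Tt (g : F[X] →* ℤ) (d e : ℕ) : ℤ := ∑ P ∈ Irr F d, (d : ℤ) * g P ^ e

/-- the coefficients of the logarithmic derivative -/
noncomputable def cc (g : F[X] →* ℤ) (j : ℕ) : ℤ := ∑ x ∈ j.divisorsAntidiagonal, Tt g x.1 x.2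

theorem log_deriv (g : F[X] →* ℤ) (k : ℕ) :
    (k : ℤ) * Ss g k = ∑ j ∈ Finset.Icc 1 k, cc g j * Ss g (k - j) := by
  classical
  have h1 : (k : ℤ) * Ss g k = ∑ d ∈ Finset.Icc 1 k, ∑ e ∈ Finset.Icc 1 k,
      if d * e ≤ k then Tt g d e * Ss g (k - d * e) else 0 := by
    unfold Ss
    rw [Finset.mul_sum]
    have h2 : ∀ f ∈ Mk F k, (k : ℤ) * g f = ∑ d ∈ Finset.Icc 1 k, ∑ e ∈ Finset.Icc 1 k,
        ∑ P ∈ Irr F d, if P ^ e ∣ f then (d : ℤ) * g f else 0 := by
      intro f hf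
      conv_lhs => rw [natDegree_eq_sum hf]
      rw [Finset.sum_mul]
      refine Finset.sum_congr rfl fun d _ => ?_
      rw [Finset.sum_mul]
      refine Finset.sum_congr rfl fun e _ => ?_
      rw [Finset.sum_mul]
      refine Finset.sum_congr rfl fun P _ => ?_
      rw [ite_mul, zero_mul]
    rw [Finset.sum_congr rfl h2, Finset.sum_comm]
    refine Finset.sum_congr rfl fun d _ => ?_
    rw [Finset.sum_comm]
    refine Finset.sum_congr rfl fun e _ => ?_
    rw [Finset.sum_comm]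
    have h3 : ∀ P ∈ Irr F d, ∑ f ∈ Mk F k, (if P ^ e ∣ f then (d : ℤ) * g f else 0) =
        if d * e ≤ k then (d : ℤ) * g P ^ e * ∑ f ∈ Mk F (k - d * e), g f else 0 := by
      intro P hP
      rw [mem_Irr] at hP
      rw [← Finset.sum_filter, sum_multiples (d := d * e) (hP.1.1.pow e)
        (by rw [hP.1.1.natDegree_pow, hP.1.2, mul_comm])]
      split_ifs with hle
      · rw [Finset.mul_sum]
        refine Finset.sum_congr rfl fun f _ => ?_
        rw [map_mul, map_pow]; ring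
      · rfl
    rw [Finset.sum_congr rfl h3]
    split_ifs with hle
    · unfold Tt
      rw [Finset.sum_mul]
    · exact Finset.sum_const_zero
  rw [h1]
  have h4 : ∀ j ∈ Finset.Icc 1 k, cc g j * Ss g (k - j) =
      ∑ x ∈ j.divisorsAntidiagonal, Tt g x.1 x.2 * Ss g (k - x.1 * x.2) := by
    intro j _
    unfold cc
    rw [Finset.sum_mul]
    refine Finset.sum_congr rfl fun x hx => ?_
    rw [(Nat.mem_divisorsAntidiagonal.1 hx).1]
  rw [Finset.sum_congr rfl h4, ← Finset.sum_product', ← Finset.sum_filter, Finset.sum_sigma']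
  refine Finset.sum_bij' (fun x _ => ⟨x.1 * x.2, x⟩) (fun y _ => y.2) ?_ ?_ ?_ ?_ ?_
  · intro x hx
    rw [Finset.mem_filter, Finset.mem_product, Finset.mem_Icc, Finset.mem_Icc] at hx
    rw [Finset.mem_sigma, Finset.mem_Icc, Nat.mem_divisorsAntidiagonal]
    have h5 : 1 ≤ x.1 * x.2 := Nat.mul_pos hx.1.1.1 hx.1.2.1
    exact ⟨⟨h5, hx.2⟩, rfl, (Nat.pos_iff_ne_zero.1 h5 :)⟩
  · rintro ⟨j, x⟩ hy
    rw [Finset.mem_sigma, Finset.mem_Icc, Nat.mem_divisorsAntidiagonal] at hy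
    obtain ⟨⟨h5, h6⟩, h7, h8⟩ := hy
    dsimp only at h5 h6 h7 h8
    rw [Finset.mem_filter, Finset.mem_product, Finset.mem_Icc, Finset.mem_Icc]
    have h9 : x.1 ≠ 0 := by
      intro h; rw [h, zero_mul] at h7; omega
    have h10 : x.2 ≠ 0 := by
      intro h; rw [h, mul_zero] at h7; omega
    have h11 : x.1 ≤ x.1 * x.2 := Nat.le_mul_of_pos_right _ (Nat.pos_of_ne_zero h10)
    have h12 : x.2 ≤ x.1 * x.2 := Nat.le_mul_of_pos_left _ (Nat.pos_of_ne_zero h9)
    have h13 : x.1 * x.2 ≤ k := by rw [h7]; exact h6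
    exact ⟨⟨⟨Nat.pos_of_ne_zero h9, h11.trans h13⟩, Nat.pos_of_ne_zero h10, h12.trans h13⟩, h13⟩
  · intro x _; rfl
  · rintro ⟨j, x⟩ hy
    rw [Finset.mem_sigma, Nat.mem_divisorsAntidiagonal] at hy
    obtain ⟨-, h7, -⟩ := hy
    dsimp only at h7
    subst h7
    rfl
  · intro x _; rfl

/-! ### power series -/

/-- the generating series -/
noncomputable def Ls (g : F[X] →* ℤ) : PowerSeries ℚ := PowerSeries.mk fun k => (Ss g k : ℚ)

/-- the logarithmic derivative -/
noncomputable def Cs (g : F[X] →* ℤ) : PowerSeries ℚ := PowerSeries.mk fun k => (cc g k : ℚ)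

theorem Cs_mul_Ls (g : F[X] →* ℤ) :
    PowerSeries.mk (fun k => (k : ℚ) * Ss g k) = Cs g * Ls g := by
  ext k
  rw [PowerSeries.coeff_mk, PowerSeries.coeff_mul]
  unfold Cs Ls
  simp only [PowerSeries.coeff_mk]
  have h := log_deriv g k
  have h' : (k : ℚ) * Ss g k = ∑ j ∈ Finset.Icc 1 k, (cc g j : ℚ) * Ss g (k - j) := by
    exact_mod_cast h
  rw [h', Finset.Nat.sum_antidiagonal_eq_sum_range_succ (f := fun i j => (cc g i : ℚ) * Ss g j)]
  have h0 : cc g 0 = 0 := by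
    unfold cc
    rw [Nat.divisorsAntidiagonal_zero, Finset.sum_empty]
  rw [Finset.sum_range_succ', h0]
  simp only [Int.cast_zero, zero_mul, add_zero]
  rw [Finset.range_eq_Ico, Finset.sum_Ico_add' (fun j => (cc g j : ℚ) * Ss g (k - j)) 0 k 1]
  refine Finset.sum_congr ?_ fun _ _ => rfl
  ext j
  rw [Finset.mem_Icc, Finset.mem_Ico]
  omega

end OddCov
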