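import Pool.Agent.Helper9.BSD.Dir2

/-!
# The pole argument
-/

namespace OddCov

open Polynomial

/-- `p(-X)` -/
noncomputable def flip (p : ℚ[X]) : ℚ[X] := p.comp (C (-1) * X)

theorem coe_flip (p : ℚ[X]) : ((flip p : ℚ[X]) : PowerSeries ℚ) =
    PowerSeries.rescale (-1 : ℚ) (p : PowerSeries ℚ) := by
  ext n
  rw [PowerSeries.coeff_rescale, Polynomial.coeff_coe, Polynomial.coeff_coe, flip,
    comp_C_mul_X_coeff, mul_comm]

theorem eval_flip (p : ℚ[X]) (x : ℚ) : (flip p).eval x = p.eval (-x) := by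
  simp [flip, eval_comp]

theorem flip_mul (p r : ℚ[X]) : flip (p * r) = flip p * flip r := mul_comp _ _ _

theorem flip_flip (p : ℚ[X]) : flip (flip p) = p := by
  ext n
  rw [flip, comp_C_mul_X_coeff, flip, comp_C_mul_X_coeff, mul_assoc, ← mul_pow]
  norm_num

theorem geom (a : ℚ) : PowerSeries.mk (fun m => a ^ m) * ((1 - C a * X : ℚ[X]) : PowerSeries ℚ) =
    1 := by
  have := PowerSeries.mk_one_mul_one_sub_eq_one ℚ
  ext n
  rw [Polynomial.coe_sub, Polynomial.coe_mul, Polynomial.coe_C, Polynomial.coe_X,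
    Polynomial.coe_one, mul_sub, mul_one, map_sub, PowerSeries.coeff_mk]
  cases n with
  | zero => simp
  | succ n =>
    rw [← mul_assoc, PowerSeries.coeff_succ_mul_X, mul_comm, PowerSeries.coeff_C_mul,
      PowerSeries.coeff_mk, PowerSeries.coeff_one, if_neg (Nat.succ_ne_zero n)]
    ring

/-- no cancellation of the pole at `1 / q` -/
theorem final_alg {ι : Type*} [Fintype ι] [DecidableEq ι] {q : ℚ} (hq : 1 < q) (ε : ι → ℚ)
    (L N : ι → ℚ[X]) (Cc : ι → PowerSeries ℚ)
    (hLC : ∀ i, ((N i : ℚ[X]) : PowerSeries ℚ) = Cc i * (L i : PowerSeries ℚ)) (κ : ℚ)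
    (hodd : ∀ m, Odd m → q ^ m + ∑ i, ε i * PowerSeries.coeff m (Cc i) = κ)
    (h1 : ∀ i, (L i).eval (1 / q) ≠ 0) (h2 : ∀ i, (L i).eval (-(1 / q)) ≠ 0) : False := by
  have hq0 : q ≠ 0 := by linarith
  obtain ⟨E, hE⟩ : ∃ E : ℚ[X], E = ∏ i, L i := ⟨_, rfl⟩
  obtain ⟨D, hD⟩ : ∃ D : ℚ[X], D = E * flip E := ⟨_, rfl⟩
  have hDflip : flip D = D := by rw [hD, flip_mul, flip_flip, mul_comm]
  have hDne : D.eval (1 / q) ≠ 0 := by
    rw [hD, eval_mul, eval_flip, hE, eval_prod, eval_prod]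
    exact mul_ne_zero (Finset.prod_ne_zero_iff.2 fun i _ => h1 i)
      (Finset.prod_ne_zero_iff.2 fun i _ => h2 i)
  let M : ι → ℚ[X] := fun i => N i * (∏ j ∈ Finset.univ.erase i, L j) * flip E
  have hM : ∀ i, ((M i : ℚ[X]) : PowerSeries ℚ) = (D : PowerSeries ℚ) * Cc i := by
    intro i
    have h3 : D = L i * (∏ j ∈ Finset.univ.erase i, L j) * flip E := by
      rw [hD, hE, Finset.mul_prod_erase _ _ (Finset.mem_univ i)]
    rw [h3]
    simp only [M, Polynomial.coe_mul]
    rw [hLC]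
    ring
  let W : PowerSeries ℚ := PowerSeries.mk (fun m => q ^ m) + ∑ i, PowerSeries.C (ε i) * Cc i -
    PowerSeries.C κ * PowerSeries.mk (fun m => (1 : ℚ) ^ m)
  have hW : PowerSeries.rescale (-1 : ℚ) W = W := by
    ext m
    rw [PowerSeries.coeff_rescale]
    rcases Nat.even_or_odd m with hm | hm
    · rw [hm.neg_one_pow, one_mul]
    · have : PowerSeries.coeff m W = 0 := by
        simp only [W, map_sub, map_add, map_sum, PowerSeries.coeff_mk, PowerSeries.coeff_C_mul]
        rw [one_pow, mul_one, hodd m hm, sub_self]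
      rw [this, mul_zero]
  let G : ℚ[X] := D * (1 - C 1 * X) + (∑ i, C (ε i) * M i) * ((1 - C q * X) * (1 - C 1 * X)) -
    C κ * D * (1 - C q * X)
  have hG : ((G : ℚ[X]) : PowerSeries ℚ) = (D : PowerSeries ℚ) * W *
      (((1 - C q * X : ℚ[X]) : PowerSeries ℚ) * ((1 - C 1 * X : ℚ[X]) : PowerSeries ℚ)) := by
    have g1 := geom q
    have g2 := geom 1
    have hsum : ((∑ i, C (ε i) * M i : ℚ[X]) : PowerSeries ℚ) =
        (D : PowerSeries ℚ) * ∑ i, PowerSeries.C (ε i) * Cc i := by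
      rw [← Polynomial.coeToPowerSeries.ringHom_apply, map_sum, Finset.mul_sum]
      refine Finset.sum_congr rfl fun i _ => ?_
      rw [Polynomial.coeToPowerSeries.ringHom_apply, Polynomial.coe_mul, hM, Polynomial.coe_C]
      ring
    simp only [G, W]
    rw [Polynomial.coe_sub, Polynomial.coe_add,
      Polynomial.coe_mul (D) (1 - C 1 * X), Polynomial.coe_mul (∑ i, C (ε i) * M i), hsum,
      Polynomial.coe_mul (1 - C q * X), Polynomial.coe_mul (C κ * D),
      Polynomial.coe_mul (C κ), Polynomial.coe_C]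
    linear_combination (-(D : PowerSeries ℚ) * ((1 - C 1 * X : ℚ[X]) : PowerSeries ℚ)) * g1 +
      (D : PowerSeries ℚ) * PowerSeries.C κ * ((1 - C q * X : ℚ[X]) : PowerSeries ℚ) * g2
  have hflip1 : flip (1 - C q * X) = 1 + C q * X := by
    simp [flip]
  have hflip2 : flip (1 - C 1 * X) = 1 + C 1 * X := by
    simp [flip]
  have key : G * ((1 + C q * X) * (1 + C 1 * X)) = flip G * ((1 - C q * X) * (1 - C 1 * X)) := by
    apply Polynomial.coe_injective ℚ
    rw [Polynomial.coe_mul G, Polynomial.coe_mul (flip G), coe_flip, hG]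
    rw [map_mul, map_mul, map_mul, hW, ← coe_flip, ← coe_flip, ← coe_flip, hDflip, hflip1, hflip2,
      Polynomial.coe_mul, Polynomial.coe_mul]
    ring
  have hev := congrArg (eval (1 / q)) key
  have e1 : (1 / q) * q = 1 := by field_simp
  simp only [eval_mul, eval_add, eval_sub, eval_one, eval_C, eval_X] at hev
  have e2 : q * (1 / q) = 1 := by field_simp
  rw [e2] at hev
  have hG1 : eval (1 / q) G = eval (1 / q) D * (1 - 1 / q) := by
    simp only [G, eval_mul, eval_add, eval_sub, eval_one, eval_C, eval_X, e2]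
    ring
  rw [hG1] at hev
  have h4 : 0 < 1 / q := by positivity
  have h5 : 1 / q < 1 := by rw [div_lt_one (by linarith)]; exact hq
  have h6 : eval (1 / q) D * ((1 - 1 / q) * (2 * (1 + 1 / q))) = 0 := by linear_combination hev
  rcases mul_eq_zero.1 h6 with h7 | h7
  · exact hDne h7
  · have : 0 < (1 - 1 / q) * (2 * (1 + 1 / q)) := by
      apply mul_pos <;> nlinarith
    exact this.ne' h7

end OddCov
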