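import Pool.Agent.Helper9.BSD.Dir3

/-!
# The characters and the non-vanishing
-/

namespace OddCov

open Polynomial

variable {F : Type*} [Field F] [Fintype F] [DecidableEq F]

/-- the product of the quadratic characters of the values at the points of `A` -/
noncomputable def gA (A : Finset F) : F[X] →* ℤ :=
  ∏ a ∈ A, (quadraticChar F).toMonoidHom.comp ((evalRingHom a : F[X] →+* F) : F[X] →* F)

theorem gA_apply (A : Finset F) (f : F[X]) :
    gA A f = ∏ a ∈ A, quadraticChar F (f.eval a) := by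
  unfold gA
  rw [MonoidHom.finsetProd_apply]
  rfl

theorem orth (hF : ringChar F ≠ 2) {A : Finset F} (hA : A.Nonempty) {k : ℕ} (hk : A.card ≤ k) :
    Ss (gA A) k = 0 := by
  obtain ⟨a, ha⟩ := hA
  set h : F[X] := ∏ b ∈ A.erase a, (X - C b) with hh
  have hdeg : ∀ c : F, (C c * h).degree < k := by
    intro c
    have h1 : h.natDegree = A.card - 1 := by
      rw [hh, natDegree_prod_of_monic _ _ fun b _ => monic_X_sub_C b]
      simp [Finset.card_erase_of_mem ha]
    have h2 : (C c * h).natDegree ≤ A.card - 1 := (natDegree_C_mul_le _ _).trans h1.le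
    have hpos : 0 < A.card := Finset.card_pos.2 ⟨a, ha⟩
    refine lt_of_le_of_lt degree_le_natDegree ?_
    exact_mod_cast lt_of_le_of_lt h2 (by omega)
  have hha : h.eval a ≠ 0 := by
    rw [hh, eval_prod, Finset.prod_ne_zero_iff]
    intro b hb
    rw [eval_sub, eval_X, eval_C, sub_ne_zero]
    exact (Finset.ne_of_mem_erase hb).symm
  have hhb : ∀ b ∈ A.erase a, h.eval b = 0 := by
    intro b hb
    rw [hh, eval_prod]
    exact Finset.prod_eq_zero hb (by simp)
  have h1 : ∀ c : F, Ss (gA A) k = ∑ f ∈ Mk F k, gA A (f + C c * h) := fun c =>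
    (sum_translate (hdeg c) (gA A)).symm
  have h2 : (Fintype.card F : ℤ) * Ss (gA A) k = 0 := by
    have h3 : ∑ _c : F, Ss (gA A) k = ∑ c : F, ∑ f ∈ Mk F k, gA A (f + C c * h) :=
      Finset.sum_congr rfl fun c _ => h1 c
    rw [Finset.sum_const, Finset.card_univ, nsmul_eq_mul] at h3
    rw [h3, Finset.sum_comm]
    refine Finset.sum_eq_zero fun f _ => ?_
    have h4 : ∀ c : F, gA A (f + C c * h) = quadraticChar F (f.eval a + c * h.eval a) *
        ∏ b ∈ A.erase a, quadraticChar F (f.eval b) := by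
      intro c
      rw [gA_apply, ← Finset.mul_prod_erase _ _ ha]
      congr 1
      · rw [eval_add, eval_mul, eval_C]
      · refine Finset.prod_congr rfl fun b hb => ?_
        rw [eval_add, eval_mul, hhb b hb, mul_zero, add_zero]
    rw [Finset.sum_congr rfl fun c _ => h4 c, ← Finset.sum_mul]
    have h5 : ∑ c : F, quadraticChar F (f.eval a + c * h.eval a) = 0 := by
      rw [← quadraticChar_sum_zero hF]
      refine Fintype.sum_bijective (fun c => f.eval a + c * h.eval a) ?_ _ _ fun c => rfl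
      constructor
      · intro c c' hc
        exact mul_right_cancel₀ hha (add_left_cancel hc)
      · intro y
        exact ⟨(y - f.eval a) / h.eval a, by field_simp; ring⟩
    rw [h5, zero_mul]
  have h3 : (Fintype.card F : ℤ) ≠ 0 := by exact_mod_cast Fintype.card_ne_zero
  exact (mul_eq_zero.1 h2).resolve_left h3

/-! ### non-vanishing -/

/-- the monic divisors -/
noncomputable def Dv (f : F[X]) : Set F[X] := {h | h.Monic ∧ h ∣ f}

omit [DecidableEq F] in
theorem finite_Dv {f : F[X]} (hf : f ≠ 0) : (Dv f).Finite := by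
  refine Set.Finite.subset (Set.Finite.biUnion (Set.finite_Iic f.natDegree) fun k _ =>
    finite_monic F k) ?_
  intro h hh
  exact Set.mem_biUnion (x := h.natDegree) (natDegree_le_of_dvd hh.2 hf) ⟨hh.1, rfl⟩

/-- the sum over the divisors -/
noncomputable def rr (ψ : F[X] → ℤ) (f : F[X]) : ℤ := ∑ᶠ h ∈ Dv f, ψ h

omit [Fintype F] [DecidableEq F] in
theorem Dv_mul {P g : F[X]} (hP : Irreducible P) (hPm : P.Monic) (hPg : ¬ P ∣ g)
    (e : ℕ) : Set.BijOn (fun x : ℕ × F[X] => P ^ x.1 * x.2) (Set.Iic e ×ˢ Dv g)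
      (Dv (P ^ e * g)) := by
  have hcop : ∀ h, h ∣ g → ¬ P ∣ h := fun h hh hPh => hPg (hPh.trans hh)
  refine ⟨?_, ?_, ?_⟩
  · rintro ⟨i, h⟩ ⟨hi, hh⟩
    exact ⟨(hPm.pow i).mul hh.1, mul_dvd_mul (pow_dvd_pow P hi) hh.2⟩
  · rintro ⟨i, h⟩ ⟨-, hh⟩ ⟨j, h'⟩ ⟨-, hh'⟩ he
    have he : P ^ i * h = P ^ j * h' := he
    have key : ∀ {i j : ℕ} {h h' : F[X]}, ¬ P ∣ h' → P ^ i * h = P ^ j * h' → i ≤ j := by
      intro i j h h' hn he
      by_contra hlt
      push Not at hlt
      obtain ⟨k, rfl⟩ : ∃ k, i = j + k + 1 := ⟨i - j - 1, by omega⟩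
      rw [pow_succ, pow_add, mul_assoc, mul_assoc] at he
      have := mul_left_cancel₀ (pow_ne_zero _ hP.ne_zero) he
      exact hn ⟨P ^ k * h, by rw [← this]; ring⟩
    have hij : i = j := le_antisymm (key (hcop _ hh'.2) he) (key (hcop _ hh.2) he.symm)
    subst hij
    rw [mul_left_cancel₀ (pow_ne_zero _ hP.ne_zero) he]
  · rintro f ⟨hfm, hf⟩
    obtain ⟨h, hfh, hh⟩ := (FiniteMultiplicity.of_not_isUnit hP.not_isUnit
      hfm.ne_zero).exists_eq_pow_mul_and_not_dvd
    set i := multiplicity P f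
    have hhm : h.Monic := (hPm.pow i).of_mul_monic_left (hfh ▸ hfm)
    have hdvd : P ^ i ∣ P ^ e * g := (Dvd.intro _ hfh.symm).trans hf
    have hco : IsCoprime h P := ((hP.coprime_iff_not_dvd).2 hh).symm
    have hhg : h ∣ g := by
      have h1 : h ∣ P ^ e * g := (Dvd.intro_left _ hfh.symm).trans hf
      exact (hco.pow_right).dvd_of_dvd_mul_left h1
    have hie : i ≤ e := by
      by_contra hlt
      push Not at hlt
      obtain ⟨k, hk⟩ : ∃ k, i = e + k + 1 := ⟨i - e - 1, by omega⟩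
      obtain ⟨r, hr⟩ := hdvd
      rw [hk, pow_succ, pow_add, mul_assoc, mul_assoc] at hr
      have := mul_left_cancel₀ (pow_ne_zero _ hP.ne_zero) hr
      exact hPg ⟨P ^ k * r, by rw [this]; ring⟩
    exact ⟨(i, h), ⟨hie, hhm, hhg⟩, hfh.symm⟩

omit [DecidableEq F] in
theorem rr_mul {ψ : F[X] → ℤ} (hψ : ∀ f g : F[X], f.Monic → g.Monic → ψ (f * g) = ψ f * ψ g)
    (hψ1 : ψ 1 = 1) {P g : F[X]} (hP : Irreducible P) (hPm : P.Monic) (hg : g.Monic)
    (hPg : ¬ P ∣ g) (e : ℕ) :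
    rr ψ (P ^ e * g) = (∑ i ∈ Finset.range (e + 1), ψ P ^ i) * rr ψ g := by
  have hpow : ∀ i : ℕ, ψ (P ^ i) = ψ P ^ i := by
    intro i
    induction i with
    | zero => rw [pow_zero, pow_zero, hψ1]
    | succ i ih => rw [pow_succ, hψ _ _ (hPm.pow i) hPm, ih, pow_succ]
  unfold rr
  rw [← finsum_mem_eq_of_bijOn (f := fun x : ℕ × F[X] => ψ (P ^ x.1 * x.2)) (g := ψ) _
    (Dv_mul hP hPm hPg e) (fun x _ => rfl)]
  have hfin := finite_Dv hg.ne_zero
  have h1 : (Set.Iic e ×ˢ Dv g : Set (ℕ × F[X])) =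
      ((Finset.range (e + 1) ×ˢ hfin.toFinset : Finset (ℕ × F[X])) : Set (ℕ × F[X])) := by
    ext ⟨i, h⟩
    simp only [Set.mem_prod, Set.mem_Iic, Finset.coe_product, Finset.coe_range, Set.mem_Iio,
      Set.Finite.coe_toFinset]
    rw [Nat.lt_succ_iff]
  rw [h1, finsum_mem_coe_finset, Finset.sum_product, Finset.sum_mul]
  refine Finset.sum_congr rfl fun i _ => ?_
  rw [finsum_mem_eq_finite_toFinset_sum _ hfin, Finset.mul_sum]
  refine Finset.sum_congr rfl fun h hh => ?_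
  have hh' : h ∈ Dv g := (Set.Finite.mem_toFinset hfin).1 hh
  rw [hψ _ _ (hPm.pow i) hh'.1, hpow]

omit [Fintype F] [DecidableEq F] in
theorem rr_one {ψ : F[X] → ℤ} (hψ1 : ψ 1 = 1) : rr ψ 1 = 1 := by
  have : Dv (1 : F[X]) = {1} := by
    ext h
    constructor
    · rintro ⟨h1, h2⟩
      exact h1.eq_one_of_isUnit (isUnit_of_dvd_one h2)
    · rintro rfl
      exact ⟨monic_one, dvd_rfl⟩
  unfold rr
  rw [this, finsum_mem_singleton, hψ1]

theorem geom_nonneg {x : ℤ} (hx : x = -1 ∨ x = 0 ∨ x = 1) (e : ℕ) :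
    0 ≤ ∑ i ∈ Finset.range (e + 1), x ^ i := by
  rcases hx with rfl | rfl | rfl
  · rw [neg_one_geom_sum]; split_ifs <;> norm_num
  · exact Finset.sum_nonneg fun i _ => by positivity
  · exact Finset.sum_nonneg fun i _ => by positivity

theorem geom_pos {x : ℤ} (hx : x = -1 ∨ x = 0 ∨ x = 1) {e : ℕ} (he : Even e) :
    1 ≤ ∑ i ∈ Finset.range (e + 1), x ^ i := by
  rcases hx with rfl | rfl | rfl
  · rw [neg_one_geom_sum, if_neg]
    rw [Nat.even_add_one, not_not]; exact he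
  · rw [Finset.sum_range_succ', pow_zero]
    have : 0 ≤ ∑ i ∈ Finset.range e, (0 : ℤ) ^ (i + 1) := Finset.sum_nonneg fun i _ => by positivity
    linarith
  · rw [Finset.sum_range_succ', pow_zero]
    have : 0 ≤ ∑ i ∈ Finset.range e, (1 : ℤ) ^ (i + 1) := Finset.sum_nonneg fun i _ => by positivity
    linarith

omit [DecidableEq F] in
theorem rr_nonneg {ψ : F[X] → ℤ} (hψ : ∀ f g : F[X], f.Monic → g.Monic → ψ (f * g) = ψ f * ψ g)
    (hψ1 : ψ 1 = 1) (hval : ∀ f : F[X], ψ f = -1 ∨ ψ f = 0 ∨ ψ f = 1) (n : ℕ) :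
    ∀ f : F[X], f.Monic → f.natDegree ≤ n → 0 ≤ rr ψ f := by
  induction n with
  | zero =>
    intro f hf hd
    rw [hf.natDegree_eq_zero.1 (Nat.le_zero.1 hd), rr_one hψ1]
    exact zero_le_one
  | succ n ih =>
    intro f hf hd
    by_cases h0 : f.natDegree = 0
    · rw [hf.natDegree_eq_zero.1 h0, rr_one hψ1]
      exact zero_le_one
    · obtain ⟨P, hPm, hP, hPf⟩ := exists_monic_irreducible_factor f (fun h => by
        apply h0
        exact natDegree_eq_zero_of_isUnit h)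
      obtain ⟨g, hfg, hPg⟩ := (FiniteMultiplicity.of_not_isUnit hP.not_isUnit
        hf.ne_zero).exists_eq_pow_mul_and_not_dvd
      have hg : g.Monic := (hPm.pow _).of_mul_monic_left (hfg ▸ hf)
      have he : multiplicity P f ≠ 0 := by
        intro h
        rw [h, pow_zero, one_mul] at hfg
        rw [hfg] at hPf
        exact hPg hPf
      have hdeg : g.natDegree ≤ n := by
        have h1 := congrArg natDegree hfg
        rw [(hPm.pow _).natDegree_mul hg, hPm.natDegree_pow] at h1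
        have h2 : 1 ≤ multiplicity P f * P.natDegree :=
          Nat.mul_pos (Nat.pos_of_ne_zero he) hP.natDegree_pos
        omega
      rw [hfg, rr_mul hψ hψ1 hP hPm hg hPg]
      exact mul_nonneg (geom_nonneg (hval P) _) (ih g hg hdeg)

omit [DecidableEq F] in
theorem rr_X_pow {ψ : F[X] → ℤ} (hψ : ∀ f g : F[X], f.Monic → g.Monic → ψ (f * g) = ψ f * ψ g)
    (hψ1 : ψ 1 = 1) (hval : ∀ f : F[X], ψ f = -1 ∨ ψ f = 0 ∨ ψ f = 1) {k : ℕ} (hk : Even k) :
    1 ≤ rr ψ (X ^ k) := by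
  have h1 : ¬ (X : F[X]) ∣ 1 := fun h => not_isUnit_X (isUnit_of_dvd_one h)
  have := rr_mul hψ hψ1 irreducible_X monic_X monic_one h1 k
  rw [mul_one, rr_one hψ1, mul_one] at this
  rw [this]
  exact geom_pos (hval X) hk

omit [DecidableEq F] in
theorem sum_rr (ψ : F[X] → ℤ) (k : ℕ) : ∑ f ∈ Mk F k, rr ψ f =
    ∑ j ∈ Finset.range (k + 1), (∑ h ∈ Mk F j, ψ h) * (Fintype.card F : ℤ) ^ (k - j) := by
  classical
  have h1 : ∀ f ∈ Mk F k, rr ψ f = ∑ j ∈ Finset.range (k + 1), ∑ h ∈ Mk F j,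
      if h ∣ f then ψ h else 0 := by
    intro f hf
    rw [mem_Mk] at hf
    unfold rr
    have hfin := finite_Dv hf.1.ne_zero
    rw [finsum_mem_eq_finite_toFinset_sum _ hfin]
    rw [← Finset.sum_fiberwise_of_maps_to (s := hfin.toFinset) (t := Finset.range (k + 1))
      (g := fun h => h.natDegree)]
    · refine Finset.sum_congr rfl fun j _ => ?_
      rw [← Finset.sum_filter]
      refine Finset.sum_congr ?_ fun _ _ => rfl
      ext h
      rw [Finset.mem_filter, Finset.mem_filter, Set.Finite.mem_toFinset, mem_Mk]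
      constructor
      · rintro ⟨⟨h1, h2⟩, h3⟩
        exact ⟨⟨h1, h3⟩, h2⟩
      · rintro ⟨⟨h1, h2⟩, h3⟩
        exact ⟨⟨h1, h3⟩, h2⟩
    · intro h hh
      rw [Set.Finite.mem_toFinset] at hh
      rw [Finset.mem_range, Nat.lt_succ_iff, ← hf.2]
      exact natDegree_le_of_dvd hh.2 hf.1.ne_zero
  rw [Finset.sum_congr rfl h1, Finset.sum_comm]
  refine Finset.sum_congr rfl fun j hj => ?_
  rw [Finset.sum_comm, Finset.sum_mul]
  refine Finset.sum_congr rfl fun h hh => ?_
  rw [mem_Mk] at hh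
  rw [← Finset.sum_filter, sum_multiples hh.1 hh.2 (fun _ => ψ h),
    if_pos (Nat.lt_succ_iff.1 (Finset.mem_range.1 hj)), Finset.sum_const, card_Mk,
    Nat.card_eq_fintype_card, nsmul_eq_mul, mul_comm]
  push_cast
  rfl

/-- the polynomial `L_A` -/
noncomputable def LA (A : Finset F) : ℚ[X] :=
  ∑ j ∈ Finset.range A.card, C (Ss (gA A) j : ℚ) * X ^ j

theorem gA_val (A : Finset F) (f : F[X]) : gA A f = -1 ∨ gA A f = 0 ∨ gA A f = 1 := by
  rw [gA_apply]
  refine Finset.prod_induction _ (fun x : ℤ => x = -1 ∨ x = 0 ∨ x = 1) ?_ (Or.inr (Or.inr rfl)) ?_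
  · rintro a b (rfl | rfl | rfl) (rfl | rfl | rfl) <;> norm_num
  · intro a _
    by_cases h : f.eval a = 0
    · right; left; rw [h]; exact quadraticChar_zero
    · rcases quadraticChar_dichotomy h with h1 | h1
      · right; right; exact h1
      · left; exact h1

/-- non-vanishing at `± 1 / q` -/
theorem LA_ne (hF : ringChar F ≠ 2) {A : Finset F} (hA : A.Nonempty) {σ : ℤ}
    (hσ : σ = 1 ∨ σ = -1) : (LA A).eval ((σ : ℚ) / Fintype.card F) ≠ 0 := by
  intro h0
  set q : ℚ := (Fintype.card F : ℚ) with hq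
  have hq0 : q ≠ 0 := by rw [hq]; exact_mod_cast Fintype.card_ne_zero
  let ψ : F[X] → ℤ := fun f => σ ^ f.natDegree * gA A f
  have hψ : ∀ f g : F[X], f.Monic → g.Monic → ψ (f * g) = ψ f * ψ g := by
    intro f g hf hg
    simp only [ψ]
    rw [hf.natDegree_mul hg, map_mul, pow_add]; ring
  have hψ1 : ψ 1 = 1 := by simp [ψ]
  have hval : ∀ f : F[X], ψ f = -1 ∨ ψ f = 0 ∨ ψ f = 1 := by
    intro f
    have h1 : σ ^ f.natDegree = 1 ∨ σ ^ f.natDegree = -1 := by
      rcases hσ with rfl | rfl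
      · left; exact one_pow _
      · exact neg_one_pow_eq_or ℤ _
    simp only [ψ]
    rcases h1 with h1 | h1 <;> rcases gA_val A f with h2 | h2 | h2 <;> rw [h1, h2] <;> norm_num
  set k : ℕ := 2 * A.card with hk
  have h1 : (1 : ℤ) ≤ ∑ f ∈ Mk F k, rr ψ f := by
    have hX : (X ^ k : F[X]) ∈ Mk F k := by
      rw [mem_Mk]; exact ⟨monic_X_pow k, natDegree_X_pow k⟩
    have hke : Even k := even_two_mul _
    refine (rr_X_pow hψ hψ1 hval hke).trans ?_
    refine Finset.single_le_sum (f := fun f => rr ψ f) (fun f hf => ?_) hX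
    rw [mem_Mk] at hf
    exact rr_nonneg hψ hψ1 hval k f hf.1 hf.2.le
  rw [sum_rr] at h1
  have h2 : ∀ j, ∑ h ∈ Mk F j, ψ h = σ ^ j * Ss (gA A) j := by
    intro j
    unfold Ss
    rw [Finset.mul_sum]
    refine Finset.sum_congr rfl fun h hh => ?_
    simp only [ψ]
    rw [(mem_Mk.1 hh).2]
  have h3 : ((∑ j ∈ Finset.range (k + 1), (∑ h ∈ Mk F j, ψ h) *
      (Fintype.card F : ℤ) ^ (k - j) : ℤ) : ℚ) = q ^ k * (LA A).eval ((σ : ℚ) / q) := by
    have h4 : ∑ j ∈ Finset.range (k + 1), (∑ h ∈ Mk F j, ψ h) * (Fintype.card F : ℤ) ^ (k - j) =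
        ∑ j ∈ Finset.range A.card, (∑ h ∈ Mk F j, ψ h) * (Fintype.card F : ℤ) ^ (k - j) := by
      symm
      refine Finset.sum_subset (Finset.range_subset_range.2 (by omega)) ?_
      intro j _ hj
      rw [h2, orth hF hA (not_lt.1 fun h => hj (Finset.mem_range.2 h)), mul_zero, zero_mul]
    rw [h4]
    push_cast
    unfold LA
    rw [eval_finsetSum, Finset.mul_sum]
    refine Finset.sum_congr rfl fun j hj => ?_
    have hjk : j ≤ k := by
      have := Finset.mem_range.1 hj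
      omega
    have h5 : ((∑ h ∈ Mk F j, ψ h : ℤ) : ℚ) = (σ : ℚ) ^ j * Ss (gA A) j := by
      rw [h2]; push_cast; ring
    push_cast at h5
    rw [h5, eval_mul, eval_C, eval_pow, eval_X, div_pow, ← hq]
    have h6 : q ^ k = q ^ (k - j) * q ^ j := by rw [← pow_add]; congr 1; omega
    rw [h6]
    field_simp
  rw [h0, mul_zero] at h3
  have h7 : ∑ j ∈ Finset.range (k + 1), (∑ h ∈ Mk F j, ψ h) *
      (Fintype.card F : ℤ) ^ (k - j) = 0 := by exact_mod_cast h3
  rw [h7] at h1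
  norm_num at h1

end OddCov
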