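import Pool.Agent.Helper9.BSD.Dir4

/-!
# Irreducible polynomials of odd degree with prescribed quadratic characters
-/

namespace OddCov

open Polynomial

variable {F : Type*} [Field F] [Fintype F] [DecidableEq F]

theorem Ss_empty (k : ℕ) : Ss (gA (∅ : Finset F)) k = (Fintype.card F : ℤ) ^ k := by
  unfold Ss
  have : ∀ f ∈ Mk F k, gA (∅ : Finset F) f = 1 := by
    intro f _
    rw [gA_apply, Finset.prod_empty]
  rw [Finset.sum_congr rfl this, Finset.sum_const, card_Mk, Nat.card_eq_fintype_card, nsmul_eq_mul,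
    mul_one]
  push_cast
  rfl

theorem cc_empty (k : ℕ) (hk : 1 ≤ k) : cc (gA (∅ : Finset F)) k = (Fintype.card F : ℤ) ^ k := by
  induction k using Nat.strong_induction_on with
  | _ k ih =>
    have h := log_deriv (gA (∅ : Finset F)) k
    simp only [Ss_empty] at h
    rw [← Finset.sum_erase_add _ _ (Finset.mem_Icc.2 ⟨hk, le_rfl⟩), Nat.sub_self, pow_zero,
      mul_one] at h
    have h1 : ∑ j ∈ (Finset.Icc 1 k).erase k, cc (gA (∅ : Finset F)) j *
        (Fintype.card F : ℤ) ^ (k - j) = ((k : ℤ) - 1) * (Fintype.card F : ℤ) ^ k := by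
      have h2 : ∀ j ∈ (Finset.Icc 1 k).erase k, cc (gA (∅ : Finset F)) j *
          (Fintype.card F : ℤ) ^ (k - j) = (Fintype.card F : ℤ) ^ k := by
        intro j hj
        rw [Finset.mem_erase, Finset.mem_Icc] at hj
        rw [ih j (by omega) hj.2.1, ← pow_add]
        congr 1; omega
      rw [Finset.sum_congr rfl h2, Finset.sum_const, Finset.card_erase_of_mem
        (Finset.mem_Icc.2 ⟨hk, le_rfl⟩), Nat.card_Icc, nsmul_eq_mul]
      congr 1
      rw [show k + 1 - 1 - 1 = k - 1 by omega]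
      push_cast [hk]
      ring
    rw [h1] at h
    linarith

theorem pow_odd_val {x : ℤ} (hx : x = -1 ∨ x = 0 ∨ x = 1) {e : ℕ} (he : Odd e) : x ^ e = x := by
  rcases hx with rfl | rfl | rfl
  · exact he.neg_one_pow
  · exact zero_pow he.pos.ne'
  · exact one_pow e

/-- the pattern sum -/
theorem pattern_sum (S : Finset F) (ε : F → ℤ) {m : ℕ} (hm : Odd m) :
    ∑ A ∈ S.powerset, (∏ a ∈ A, ε a) * cc (gA A) m =
      ∑ x ∈ m.divisorsAntidiagonal, ∑ P ∈ Irr F x.1,
        (x.1 : ℤ) * ∏ a ∈ S, (1 + ε a * quadraticChar F (P.eval a)) := by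
  unfold cc
  simp only [Finset.mul_sum]
  rw [Finset.sum_comm]
  refine Finset.sum_congr rfl fun x hx => ?_
  unfold Tt
  simp only [Finset.mul_sum]
  rw [Finset.sum_comm]
  refine Finset.sum_congr rfl fun P _ => ?_
  have hodd : Odd x.2 := by
    have h1 := (Nat.mem_divisorsAntidiagonal.1 hx).1
    rw [← h1, Nat.odd_mul] at hm
    exact hm.2
  rw [Finset.prod_one_add, Finset.mul_sum]
  refine Finset.sum_congr rfl fun A _ => ?_
  rw [pow_odd_val (gA_val A P) hodd, gA_apply, Finset.prod_mul_distrib]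
  ring

/-- **prescribed quadratic characters** -/
theorem exists_irreducible_pattern (hF : ringChar F ≠ 2) (S : Finset F) (ε : F → ℤ)
    (hε : ∀ a ∈ S, ε a = 1 ∨ ε a = -1) : ∃ P : F[X], P.Monic ∧ Irreducible P ∧ Odd P.natDegree ∧
      ∀ a ∈ S, quadraticChar F (P.eval a) = ε a := by
  by_contra hcon
  push Not at hcon
  set κ : ℤ := ∑ P ∈ Irr F 1, ∏ a ∈ S, (1 + ε a * quadraticChar F (P.eval a)) with hκ
  -- the pattern sums are constant
  have hconst : ∀ m, Odd m → ∑ A ∈ S.powerset, (∏ a ∈ A, ε a) * cc (gA A) m = κ := by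
    intro m hm
    rw [pattern_sum S ε hm]
    have h1 : ((1, m) : ℕ × ℕ) ∈ m.divisorsAntidiagonal := by
      rw [Nat.mem_divisorsAntidiagonal]
      exact ⟨one_mul m, hm.pos.ne'⟩
    rw [← Finset.add_sum_erase _ _ h1]
    have h2 : ∑ x ∈ m.divisorsAntidiagonal.erase (1, m), ∑ P ∈ Irr F x.1,
        (x.1 : ℤ) * ∏ a ∈ S, (1 + ε a * quadraticChar F (P.eval a)) = 0 := by
      refine Finset.sum_eq_zero fun x hx => Finset.sum_eq_zero fun P hP => ?_
      rw [Finset.mem_erase, Nat.mem_divisorsAntidiagonal] at hx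
      obtain ⟨hne, hmul, -⟩ := hx
      rw [mem_Irr] at hP
      have hodd : Odd x.1 := by
        rw [← hmul, Nat.odd_mul] at hm
        exact hm.1
      have hx1 : x.1 ≠ 1 := by
        intro h
        apply hne
        rw [h, one_mul] at hmul
        exact Prod.ext h hmul
      obtain ⟨a, ha, hne'⟩ := hcon P hP.1.1 hP.2 (by rw [hP.1.2]; exact hodd)
      have hPa : P.eval a ≠ 0 := by
        intro h0
        apply hx1
        rw [← hP.1.2]
        exact natDegree_eq_of_degree_eq_some (degree_eq_one_of_irreducible_of_root hP.2 h0)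
      rw [Finset.prod_eq_zero ha, mul_zero]
      rcases hε a ha with h | h <;> rcases quadraticChar_dichotomy hPa with h' | h'
      · exact absurd (h'.trans h.symm) hne'
      · rw [h, h']; norm_num
      · rw [h, h']; norm_num
      · exact absurd (h'.trans h.symm) hne'
    rw [h2, add_zero, hκ]
    refine Finset.sum_congr rfl fun P _ => ?_
    push_cast
    rw [one_mul]
  -- the contradiction
  let ι := {A : Finset F // A ∈ S.powerset.erase ∅}
  have hne : ∀ i : ι, i.1.Nonempty := fun i =>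
    Finset.nonempty_iff_ne_empty.2 (Finset.ne_of_mem_erase i.2)
  have hq : (1 : ℚ) < Fintype.card F := by exact_mod_cast Fintype.one_lt_card
  refine final_alg hq (fun i : ι => ((∏ a ∈ i.1, ε a : ℤ) : ℚ)) (fun i => LA i.1)
    (fun i => ∑ j ∈ Finset.range i.1.card, C ((j : ℚ) * (Ss (gA i.1) j : ℚ)) * X ^ j)
    (fun i => Cs (gA i.1)) (fun i => ?_) (κ : ℚ) (fun m hm => ?_) (fun i => ?_) (fun i => ?_)
  · have hL : ((LA i.1 : ℚ[X]) : PowerSeries ℚ) = Ls (gA i.1) := by
      ext k
      unfold LA Ls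
      rw [Polynomial.coeff_coe, finsetSum_coeff, PowerSeries.coeff_mk]
      simp only [coeff_C_mul, coeff_X_pow, mul_ite, mul_one, mul_zero]
      rw [Finset.sum_ite_eq]
      split_ifs with h
      · rfl
      · rw [orth hF (hne i) (not_lt.1 fun h' => h (Finset.mem_range.2 h')), Int.cast_zero]
    rw [hL, ← Cs_mul_Ls]
    ext k
    rw [Polynomial.coeff_coe, finsetSum_coeff, PowerSeries.coeff_mk]
    simp only [coeff_C_mul, coeff_X_pow, mul_ite, mul_one, mul_zero]
    rw [Finset.sum_ite_eq]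
    split_ifs with h
    · rfl
    · rw [orth hF (hne i) (not_lt.1 fun h' => h (Finset.mem_range.2 h')), Int.cast_zero, mul_zero]
  · have h1 := hconst m hm
    rw [← Finset.add_sum_erase _ _ (Finset.empty_mem_powerset S), Finset.prod_empty, one_mul,
      cc_empty m hm.pos] at h1
    have h2 : ∑ i : ι, ((∏ a ∈ i.1, ε a : ℤ) : ℚ) * PowerSeries.coeff m (Cs (gA i.1)) =
        ((∑ A ∈ S.powerset.erase ∅, (∏ a ∈ A, ε a) * cc (gA A) m : ℤ) : ℚ) := by
      push_cast
      rw [← Finset.sum_coe_sort (S.powerset.erase ∅)]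
      refine Finset.sum_congr rfl fun i _ => ?_
      unfold Cs
      rw [PowerSeries.coeff_mk]
    rw [h2, ← h1]
    push_cast
    ring
  · have := LA_ne hF (hne i) (σ := 1) (Or.inl rfl)
    rwa [Int.cast_one] at this
  · have := LA_ne hF (hne i) (σ := -1) (Or.inr rfl)
    rw [Int.cast_neg, Int.cast_one, neg_div] at this
    exact this

end OddCov
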