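import Pool.Agent.Helper9.BSD.Main

/-!
# Existence of the covers
-/

namespace OddCov

open Polynomial WithZero IsDedekindDomain

variable {F : Type*} [Field F]

section

variable [DecidableEq (RatFunc F)]

/-- the cover `t ^ m - c` -/
theorem cover_of_irreducible {m : ℕ} (hm : Odd m) (c : F) (S : Set F)
    (h : ∀ s ∈ S, Irreducible (X ^ m - C (c + s) : F[X])) :
    Cover (algebraMap F[X] (RatFunc F) (X ^ m - C c)) S := by
  have hm0 : m ≠ 0 := by
    rintro rfl
    exact absurd hm (by decide)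
  have hdeg : ∀ a : F, (X ^ m - C a : F[X]).natDegree = m := fun a => natDegree_X_pow_sub_C
  have hne : ∀ a : F, (X ^ m - C a : F[X]) ≠ 0 := fun a h => by
    have := hdeg a
    rw [h, natDegree_zero] at this
    exact hm0 this.symm
  have hle : ∀ (v : HeightOneSpectrum F[X]) (p : F[X]),
      v.valuation (RatFunc F) (algebraMap F[X] (RatFunc F) p) ≤ 1 := by
    intro v p
    rw [v.valuation_of_algebraMap]
    exact v.intValuation_le_one p
  have hsub : ∀ s : F, algebraMap F[X] (RatFunc F) (X ^ m - C c) - RatFunc.C s =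
      algebraMap F[X] (RatFunc F) (X ^ m - C (c + s)) := by
    intro s
    rw [← RatFunc.algebraMap_C, ← map_sub, C_add]
    congr 1; ring
  refine ⟨?_, ?_, ?_⟩
  · rw [RatFunc.num_algebraMap, RatFunc.denom_algebraMap, hdeg, natDegree_one, Nat.max_zero]
    exact hm
  · intro s hs
    have hirr := h s hs
    refine ⟨some (vo hirr), ?_, ?_⟩
    · change (vo hirr).valuation (RatFunc F) _ < 1
      rw [hsub, val_poly_lt (vo_asIdeal hirr)]
    · intro w hw
      match w with
      | none =>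
        exfalso
        change RatFunc.inftyValuation F _ < 1 at hw
        rw [hsub, infty_poly (hne _), hdeg, ← exp_zero, exp_lt_exp] at hw
        exact absurd hw (by omega)
      | some v =>
        change v.valuation (RatFunc F) _ < 1 at hw
        obtain ⟨π, hπ, hv⟩ := exists_gen v
        rw [hsub, val_poly_lt hv] at hw
        congr 1
        apply HeightOneSpectrum.ext
        rw [hv, vo_asIdeal]
        exact Ideal.span_singleton_eq_span_singleton.2 (hπ.associated_of_dvd hirr hw)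
  · refine ⟨none, ?_, ?_⟩
    · change 1 < RatFunc.inftyValuation F _
      rw [infty_poly (hne _), hdeg, ← exp_zero, exp_lt_exp]
      exact_mod_cast Nat.pos_of_ne_zero hm0
    · intro w hw
      match w with
      | none => rfl
      | some v => exact absurd hw (not_lt.2 (hle v _))

end

/-- the number of `ℓ`-th powers -/
theorem card_pow_le [Fintype F] [DecidableEq F] {ℓ : ℕ} (hℓ : ℓ ∣ Fintype.card F - 1)
    (h0 : 0 < ℓ) :
    (Finset.univ.image fun b : F => b ^ ℓ).card ≤ (Fintype.card F - 1) / ℓ + 1 := by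
  classical
  have h1 : (Finset.univ.image fun b : F => b ^ ℓ) ⊆
      insert 0 (Finset.image (fun x : (powMonoidHom ℓ : Fˣ →* Fˣ).range => ((x : Fˣ) : F))
        Finset.univ) := by
    intro x hx
    rw [Finset.mem_image] at hx
    obtain ⟨b, -, rfl⟩ := hx
    by_cases hb : b = 0
    · rw [hb, zero_pow h0.ne']
      exact Finset.mem_insert_self _ _
    · refine Finset.mem_insert_of_mem (Finset.mem_image.2
        ⟨⟨Units.mk0 b hb ^ ℓ, ⟨Units.mk0 b hb, rfl⟩⟩, Finset.mem_univ _, ?_⟩)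
      simp
  refine (Finset.card_le_card h1).trans ((Finset.card_insert_le _ _).trans ?_)
  refine add_le_add (Finset.card_image_le.trans ?_) le_rfl
  rw [Finset.card_univ, ← Nat.card_eq_fintype_card]
  have h2 := IsCyclic.index_powMonoidHom_range (G := Fˣ) ℓ
  have h3 : Nat.card Fˣ = Fintype.card F - 1 := by
    rw [Nat.card_eq_fintype_card, Fintype.card_units]
  rw [h3, Nat.gcd_eq_right hℓ] at h2
  have h4 := (powMonoidHom ℓ : Fˣ →* Fˣ).range.card_mul_index
  rw [h2, h3] at h4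
  rw [← h4, Nat.mul_div_cancel _ h0]

/-- there is `c` such that no `c + s` is an `ℓ`-th power -/
theorem exists_c [Fintype F] {ℓ : ℕ} (hℓ : ℓ ∣ Fintype.card F - 1) (h2 : 2 ≤ ℓ)
    (hcard : ℓ ^ 2 ≤ Fintype.card F) (S : Finset F) (hS : S.card < ℓ) :
    ∃ c : F, ∀ s ∈ S, ∀ b : F, b ^ ℓ ≠ c + s := by
  classical
  by_contra hcon
  push Not at hcon
  have h1 : (Finset.univ : Finset F) ⊆
      S.biUnion fun s => (Finset.univ.image fun b : F => b ^ ℓ).image fun x => x - s := by
    intro c _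
    obtain ⟨s, hs, b, hb⟩ := hcon c
    rw [Finset.mem_biUnion]
    refine ⟨s, hs, Finset.mem_image.2 ⟨b ^ ℓ, Finset.mem_image.2 ⟨b, Finset.mem_univ _, rfl⟩, ?_⟩⟩
    rw [hb]; ring
  have h3 := Finset.card_le_card h1
  rw [Finset.card_univ] at h3
  have h4 : Fintype.card F ≤ S.card * ((Fintype.card F - 1) / ℓ + 1) := by
    refine h3.trans (Finset.card_biUnion_le_card_mul _ _ _ fun s _ => ?_)
    exact Finset.card_image_le.trans (card_pow_le hℓ (by omega))
  obtain ⟨m, hm⟩ := hℓ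
  have hq : 0 < Fintype.card F := Fintype.card_pos
  have hq' : Fintype.card F = ℓ * m + 1 := by omega
  rw [hm, Nat.mul_div_cancel_left _ (by omega : 0 < ℓ)] at h4
  rw [hq'] at h4 hcard
  have h5 : S.card * (m + 1) ≤ (ℓ - 1) * (m + 1) := Nat.mul_le_mul_right _ (by omega)
  have h6 : ℓ * m + 1 ≤ (ℓ - 1) * (m + 1) := h4.trans h5
  obtain ⟨k, rfl⟩ : ∃ k, ℓ = k + 2 := ⟨ℓ - 2, by omega⟩
  have h7 : k + 2 - 1 = k + 1 := by omega
  rw [h7] at h6
  have h8 : (k + 2) * m + 1 = (k + 1) * m + (m + 1) := by ring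
  have h9 : (k + 1) * (m + 1) = (k + 1) * m + (k + 1) := by ring
  have h10 : m ≤ k := by omega
  have h11 : (k + 2) * m ≤ (k + 2) * k := Nat.mul_le_mul_left _ h10
  have h12 : (k + 2) ^ 2 = (k + 2) * k + 2 * (k + 2) := by ring
  omega

/-- **existence**: for every odd prime power `Q`, a finite field and an element `c` for which all
the covers `t ^ (ℓ ^ k) - c` work -/
theorem exists_covers {p : ℕ} (hp : p.Prime) {f : ℕ} (hf : 0 < f) (N₀ : ℕ) :
    ∃ (ℓ : ℕ) (F : Type) (_ : Field F) (_ : Fintype F) (_ : CharP F p) (c : F),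
      N₀ < ℓ ∧ ℓ.Prime ∧ ℓ ≠ 2 ∧ (p ^ f) ^ 2 - 1 ∣ Fintype.card F - 1 ∧
      ∀ s ∈ insert (0 : F) (nthRootsFinset (p ^ f + 1) (1 : F) : Set F),
        ∀ b : F, b ^ ℓ ≠ c + s := by
  classical
  obtain ⟨ℓ, hℓ1, hℓ⟩ := Nat.exists_infinite_primes (p ^ f + 3 + p + N₀)
  have : Fact p.Prime := ⟨hp⟩
  have hℓp : ℓ ≠ p := by omega
  set N : ℕ := 2 * f * (ℓ - 1) with hN
  have hN0 : N ≠ 0 := by
    have : 0 < ℓ - 1 := by omega
    positivity
  let F := GaloisField p N
  have : Fintype F := Fintype.ofFinite F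
  have hcard : Fintype.card F = p ^ N := by
    rw [← Nat.card_eq_fintype_card]; exact GaloisField.card p N hN0
  have hd1 : ℓ ∣ Fintype.card F - 1 := by
    rw [hcard, hN, pow_mul]
    have h1 : ((p ^ (2 * f)) ^ (ℓ - 1)) % ℓ = 1 % ℓ := by
      have hco : (p ^ (2 * f)).Coprime ℓ :=
        Nat.Coprime.pow_left _ ((Nat.coprime_primes hp hℓ).2 (Ne.symm hℓp))
      have := Nat.ModEq.pow_totient hco
      rw [Nat.totient_prime hℓ] at this
      exact this
    have h2 : 1 ≤ (p ^ (2 * f)) ^ (ℓ - 1) := Nat.one_le_pow _ _ (pow_pos hp.pos _)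
    exact (Nat.modEq_iff_dvd' h2).1 h1.symm
  have hd2 : (p ^ f) ^ 2 - 1 ∣ Fintype.card F - 1 := by
    have h1 : Fintype.card F = ((p ^ f) ^ 2) ^ (ℓ - 1) := by
      rw [hcard, hN, ← pow_mul, ← pow_mul]
      congr 1; ring
    rw [h1]
    have := Nat.sub_dvd_pow_sub_pow ((p ^ f) ^ 2) 1 (ℓ - 1)
    rwa [one_pow] at this
  have hbig : ℓ ^ 2 ≤ Fintype.card F := by
    rw [hcard]
    have h1 : ℓ ≤ p ^ (ℓ - 1) := by
      have h2 : ℓ - 1 < p ^ (ℓ - 1) := Nat.lt_pow_self hp.one_lt
      omega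
    calc ℓ ^ 2 ≤ (p ^ (ℓ - 1)) ^ 2 := Nat.pow_le_pow_left h1 2
      _ = p ^ (2 * (ℓ - 1)) := by rw [← pow_mul]; congr 1; ring
      _ ≤ p ^ N := Nat.pow_le_pow_right hp.pos (by
        rw [hN]
        exact Nat.mul_le_mul_right _ (by omega))
  have hScard : (insert (0 : F) (nthRootsFinset (p ^ f + 1) (1 : F))).card < ℓ := by
    refine (Finset.card_insert_le _ _).trans_lt ?_
    have h1 : (nthRootsFinset (p ^ f + 1) (1 : F)).card ≤ p ^ f + 1 := by
      rw [nthRootsFinset_def]
      exact (Multiset.toFinset_card_le _).trans (card_nthRoots _ _)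
    omega
  obtain ⟨c, hc⟩ := exists_c hd1 hℓ.two_le hbig _ hScard
  refine ⟨ℓ, F, inferInstance, inferInstance, inferInstance, c, by omega, hℓ, by omega, hd2,
    fun s hs => hc s ?_⟩
  rw [Finset.mem_insert]
  exact hs

end OddCov
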