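import Pool.Agent.Helper9.BSD.Dir5

/-!
# Extensions of odd degree with prescribed quadratic characters
-/

namespace OddCov

open Polynomial

variable {F : Type*} [Field F]

theorem norm_sub_root {P : F[X]} (hP : P.Monic) (hirr : Irreducible P) (a : F) :
    Algebra.norm F (algebraMap F (AdjoinRoot P) a - AdjoinRoot.root P) = P.eval a := by
  have hne : P ≠ 0 := hirr.ne_zero
  have : Fact (Irreducible P) := ⟨hirr⟩
  let pb := AdjoinRoot.powerBasis hne
  rw [Algebra.norm_eq_matrix_det pb.basis, map_sub, ← AdjoinRoot.powerBasis_gen hne]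
  have h1 : Algebra.leftMulMatrix pb.basis (algebraMap F (AdjoinRoot P) a) =
      Matrix.scalar _ a := by
    rw [AlgHom.commutes]
    rfl
  rw [h1, ← Matrix.eval_charpoly, charpoly_leftMulMatrix, AdjoinRoot.powerBasis_gen,
    AdjoinRoot.minpoly_root hne, hP.leadingCoeff, inv_one, C_1, mul_one]

theorem isSquare_norm_iff {K : Type*} [Field K] [Algebra F K] [Fintype F] [Fintype K]
    (hF : ringChar F ≠ 2) {y : K} (hy : y ≠ 0) :
    IsSquare (Algebra.norm F y) ↔ IsSquare y := by
  constructor
  · intro h
    have hK : ringChar K ≠ 2 := by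
      rwa [← Algebra.ringChar_eq F K]
    rw [FiniteField.isSquare_iff hK hy]
    have hN : Algebra.norm F y ≠ 0 := by
      have : FiniteDimensional F K := inferInstance
      rwa [Ne, Algebra.norm_eq_zero_iff]
    rw [FiniteField.isSquare_iff hF hN] at h
    have h1 := FiniteField.algebraMap_norm_eq_pow (K := F) (x := y)
    have h2 := congrArg (algebraMap F K) h
    rw [map_pow, h1, map_one, ← pow_mul] at h2
    rw [← h2]
    congr 1
    rw [Nat.card_eq_fintype_card, Nat.card_eq_fintype_card]
    have hcard := Module.card_eq_pow_finrank (K := F) (V := K)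
    have hq : Fintype.card F % 2 = 1 := FiniteField.odd_card_of_char_ne_two hF
    have hq' : Fintype.card K % 2 = 1 := FiniteField.odd_card_of_char_ne_two hK
    have hd : Fintype.card F - 1 ∣ Fintype.card K - 1 := by
      rw [hcard]
      have := Nat.sub_dvd_pow_sub_pow (Fintype.card F) 1 (Module.finrank F K)
      rwa [one_pow] at this
    obtain ⟨M, hM⟩ := hd
    have h1 : 1 < Fintype.card F := Fintype.one_lt_card
    rw [hM, Nat.mul_div_cancel_left _ (by omega : 0 < Fintype.card F - 1)]
    have h3 : 2 * (Fintype.card F / 2) = Fintype.card F - 1 := by omega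
    have h4 : 2 * (Fintype.card K / 2) = Fintype.card K - 1 := by omega
    have h5 : 2 * (Fintype.card K / 2) = 2 * (M * (Fintype.card F / 2)) := by
      rw [h4, hM, ← h3]; ring
    omega
  · rintro ⟨z, rfl⟩
    rw [map_mul]
    exact ⟨_, rfl⟩

/-- **extensions of odd degree with prescribed quadratic characters** -/
theorem exists_odd_ext_pattern {F₀ : Type} [Field F₀] [Fintype F₀] [DecidableEq F₀]
    (hF : ringChar F₀ ≠ 2) (h1 : IsSquare (-1 : F₀)) (S : Finset F₀) (ε : F₀ → ℤ)
    (hε : ∀ a ∈ S, ε a = 1 ∨ ε a = -1) :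
    ∃ (F : Type) (_ : Field F) (_ : Fintype F) (_ : Algebra F₀ F),
      Odd (Module.finrank F₀ F) ∧ ∃ x : F, ∀ a ∈ S, x ≠ algebraMap F₀ F a ∧
        (IsSquare (x - algebraMap F₀ F a) ↔ ε a = 1) := by
  obtain ⟨P, hP, hirr, hodd, hch⟩ := exists_irreducible_pattern hF S ε hε
  have : Fact (Irreducible P) := ⟨hirr⟩
  have hfin : Module.finrank F₀ (AdjoinRoot P) = P.natDegree := by
    rw [(AdjoinRoot.powerBasis hirr.ne_zero).finrank, AdjoinRoot.powerBasis_dim]
  have : FiniteDimensional F₀ (AdjoinRoot P) := (AdjoinRoot.powerBasis hirr.ne_zero).finite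
  have : Finite (AdjoinRoot P) := Module.finite_of_finite F₀
  have : Fintype (AdjoinRoot P) := Fintype.ofFinite _
  refine ⟨AdjoinRoot P, inferInstance, inferInstance, inferInstance, by rw [hfin]; exact hodd,
    AdjoinRoot.root P, fun a ha => ?_⟩
  have hN := norm_sub_root hP hirr a
  have hPa : P.eval a ≠ 0 := by
    intro h0
    have := hch a ha
    rw [h0, quadraticChar_zero] at this
    rcases hε a ha with h | h <;> rw [h] at this <;> omega
  have hne : AdjoinRoot.root P ≠ algebraMap F₀ (AdjoinRoot P) a := by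
    intro h
    rw [h, sub_self, Algebra.norm_zero] at hN
    exact hPa hN.symm
  have hy : algebraMap F₀ (AdjoinRoot P) a - AdjoinRoot.root P ≠ 0 := sub_ne_zero.2 (Ne.symm hne)
  refine ⟨hne, ?_⟩
  have h2 : IsSquare (AdjoinRoot.root P - algebraMap F₀ (AdjoinRoot P) a) ↔
      IsSquare (algebraMap F₀ (AdjoinRoot P) a - AdjoinRoot.root P) := by
    have h3 : IsSquare (-1 : AdjoinRoot P) := by
      have := h1.map (algebraMap F₀ (AdjoinRoot P))
      rwa [map_neg, map_one] at this
    constructor
    · intro h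
      have := h3.mul h
      rwa [neg_one_mul, neg_sub] at this
    · intro h
      have := h3.mul h
      rwa [neg_one_mul, neg_sub] at this
  rw [h2, ← isSquare_norm_iff hF hy, hN, ← hch a ha]
  constructor
  · intro h
    exact (quadraticChar_one_iff_isSquare hPa).2 h
  · intro h
    exact (quadraticChar_one_iff_isSquare hPa).1 h

end OddCov
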