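import Pool.Agent.Helper9.BSD.Tower2
import Pool.Agent.Helper9.BSD.FieldStep

/-!
# Existence of unlinked functions with many zeros and poles
-/

namespace OddCov

open Polynomial WithZero IsDedekindDomain

variable {F : Type*} [Field F]

/-- a good value of `κ` -/
theorem exists_kappa [Fintype F] {r : ℕ} (hr : r ∣ Fintype.card F - 1)
    (hcard : r ^ 2 ≤ Fintype.card F) {A B : F} (hAB : A ≠ B) (S : Finset F)
    (hS : 2 * S.card + 3 ≤ r) (hS0 : ∀ s ∈ S, s ≠ 0) :
    ∃ κ : F, κ ≠ 0 ∧ ∀ s ∈ S, κ ≠ s ∧ ∀ b : F, b ^ r * (κ - s) ≠ κ * A - s * B := by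
  classical
  by_contra hcon
  push Not at hcon
  have h1 : (Finset.univ : Finset F) ⊆ {0} ∪ (S ∪ S.biUnion fun s =>
      (Finset.univ.image fun b : F => b ^ r).image fun y => s * (y - B) / (y - A)) := by
    intro κ _
    by_cases hκ : κ = 0
    · rw [hκ]
      exact Finset.mem_union_left _ (Finset.mem_singleton_self _)
    · refine Finset.mem_union_right _ ?_
      obtain ⟨s, hs, hbad⟩ := hcon κ hκ
      by_cases hκs : κ = s
      · rw [hκs]
        exact Finset.mem_union_left _ hs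
      · obtain ⟨b, hb⟩ := hbad hκs
        refine Finset.mem_union_right _ (Finset.mem_biUnion.2 ⟨s, hs, Finset.mem_image.2
          ⟨b ^ r, Finset.mem_image.2 ⟨b, Finset.mem_univ _, rfl⟩, ?_⟩⟩)
        have h2 : κ * (b ^ r - A) = s * (b ^ r - B) := by linear_combination hb
        have h3 : b ^ r - A ≠ 0 := by
          intro h0
          rw [h0, mul_zero] at h2
          rcases mul_eq_zero.1 h2.symm with h | h
          · exact hS0 s hs h
          · exact hAB ((sub_eq_zero.1 h0).symm.trans (sub_eq_zero.1 h))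
        rw [← h2, mul_div_cancel_right₀ _ h3]
  have h2 := Finset.card_le_card h1
  rw [Finset.card_univ] at h2
  have h3 : Fintype.card F ≤ 1 + (S.card + S.card * ((Fintype.card F - 1) / r + 1)) := by
    refine h2.trans ((Finset.card_union_le _ _).trans (add_le_add (Finset.card_singleton _).le
      ((Finset.card_union_le _ _).trans (add_le_add le_rfl ?_))))
    refine Finset.card_biUnion_le_card_mul _ _ _ fun s _ => ?_
    exact Finset.card_image_le.trans (card_pow_le hr (by omega))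
  obtain ⟨m, hm⟩ := hr
  have hq : 0 < Fintype.card F := Fintype.card_pos
  have hq' : Fintype.card F = r * m + 1 := by omega
  rw [hm, Nat.mul_div_cancel_left _ (by omega : 0 < r)] at h3
  rw [hq'] at h3 hcard
  have h4 : 2 * (r * m) ≤ 2 * (S.card * (m + 2)) := by
    have : S.card * (m + 2) = S.card + S.card * (m + 1) := by ring
    omega
  have h5 : 2 * (S.card * (m + 2)) + 3 * (m + 2) ≤ r * (m + 2) := by
    calc 2 * (S.card * (m + 2)) + 3 * (m + 2) = (2 * S.card + 3) * (m + 2) := by ring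
      _ ≤ r * (m + 2) := Nat.mul_le_mul_right _ hS
  have h6 : r * (m + 2) = r * m + 2 * r := by ring
  have h7 : r * m ≤ 2 * r := by omega
  have h8 : m ≤ 2 := by
    by_contra hm3
    have : r * 3 ≤ r * m := Nat.mul_le_mul_left _ (by omega)
    omega
  have h9 : r * m ≤ r * 2 := Nat.mul_le_mul_left _ h8
  have h10 : r * 3 ≤ r ^ 2 := by
    rw [sq]
    exact Nat.mul_le_mul_left _ (by omega)
  omega

/-- a good value of `λ` -/
theorem exists_lam [Fintype F] {r : ℕ} (hr : r ∣ Fintype.card F - 1) (hrp : r.Prime) (h3 : 3 ≤ r)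
    (hcard : r ^ 2 ≤ Fintype.card F) {x : F} (hx0 : x ≠ 0) :
    ∃ l : F, l ≠ 0 ∧ (∀ b : F, b ^ r ≠ l ^ 2) ∧ ∀ b : F, b ^ r ≠ l ^ 2 * x := by
  obtain ⟨g, hg⟩ := exists_c hr (by omega) hcard {0} (by rw [Finset.card_singleton]; omega)
  have hg' : ∀ b : F, b ^ r ≠ g := fun b => by simpa using hg 0 (Finset.mem_singleton_self _) b
  have hg0 : g ≠ 0 := fun h => hg' 0 (by rw [h, zero_pow (by omega)])
  -- powers of `g` prime to `r`
  have hpow : ∀ m : ℕ, m.Coprime r → ∀ b : F, b ^ r ≠ g ^ m := by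
    intro m hm b hb
    have hbez := Nat.gcd_eq_gcd_ab m r
    rw [hm] at hbez
    have h1 : g ^ (1 : ℤ) = (b ^ (m.gcdA r) * g ^ (m.gcdB r)) ^ r := by
      have hb0 : b ≠ 0 := by
        rintro rfl
        rw [zero_pow (by omega)] at hb
        exact pow_ne_zero _ hg0 hb.symm
      have h2 : (1 : ℤ) = m * m.gcdA r + r * m.gcdB r := by exact_mod_cast hbez
      rw [h2, zpow_add₀ hg0, zpow_mul, zpow_natCast, ← hb, mul_pow]
      congr 1
      · rw [← zpow_natCast b r, ← zpow_mul, ← zpow_natCast (b ^ _) r, ← zpow_mul, mul_comm]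
      · rw [zpow_mul, ← zpow_natCast (g ^ (m.gcdB r)) r, ← zpow_mul, ← zpow_mul, mul_comm]
    rw [zpow_one] at h1
    exact hg' _ h1.symm
  have c2 : (2 : ℕ).Coprime r := (Nat.coprime_primes Nat.prime_two hrp).2 (by omega)
  by_cases hx : ∀ b : F, b ^ r ≠ g ^ 2 * x
  · exact ⟨g, hg0, hpow 2 c2, hx⟩
  · push Not at hx
    obtain ⟨b, hb⟩ := hx
    refine ⟨g ^ 2, pow_ne_zero _ hg0, ?_, ?_⟩
    · intro b'
      rw [← pow_mul]
      exact hpow 4 (Nat.Coprime.pow_left 2 c2) b'
    · intro b' hb'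
      have hb0 : b ≠ 0 := by
        rintro rfl
        rw [zero_pow (by omega)] at hb
        exact mul_ne_zero (pow_ne_zero _ hg0) hx0 hb.symm
      refine hpow 2 c2 (b' / b) ?_
      rw [div_pow, hb, hb']
      field_simp

section

variable [DecidableEq (RatFunc F)]

/-- the properties of the functions constructed -/
structure Good (Q N D : ℕ) (u : RatFunc F) : Prop where
  above : ∀ s : F, s ^ (Q + 1) = 1 → OneAbove u s
  unl : Unlinked (Q + 1) u
  zeros : ∃ Z : Finset (Place F), N ≤ Z.card ∧ ∀ w ∈ Z, plv w u < 1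
  poles : ∃ Z : Finset (Place F), N ≤ Z.card ∧ ∀ w ∈ Z, 1 < plv w u
  deg : D ≤ u.num.natDegree

omit [DecidableEq (RatFunc F)] in
theorem vo_inj {π ρ : F[X]} (hπ : Irreducible π) (hρ : Irreducible ρ) (h : vo hπ = vo hρ) :
    Associated π ρ := by
  rw [← Ideal.span_singleton_eq_span_singleton, ← vo_asIdeal hπ, ← vo_asIdeal hρ, h]

omit [DecidableEq (RatFunc F)] in
theorem bp_assoc {n : ℕ} (hn : 0 < n) {a b : F} (h : Associated (bp n a) (bp n b)) : a = b := by
  have h1 : (bp n a).Monic := monic_X_pow_sub_C a hn.ne'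
  have h2 : (bp n b).Monic := monic_X_pow_sub_C b hn.ne'
  have h3 := eq_of_monic_of_associated h1 h2 h
  have h4 := congrArg (fun p : F[X] => p.coeff 0) h3
  unfold bp at h4
  simp only [coeff_sub, coeff_X_pow, coeff_C_zero] at h4
  simpa using h4

theorem Link.zeros {I : Type*} {n : ℕ} {R : Finset I} {a b : I → F} (h : Link n R a b) {κ : F}
    (hκ : κ ≠ 0) : ∃ Z : Finset (Place F), R.card ≤ Z.card ∧
      ∀ w ∈ Z, plv w (lf n R a b κ) < 1 := by
  classical
  refine ⟨R.attach.image fun i => some (vo (h.irr i.1 i.2)), ?_, ?_⟩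
  · rw [Finset.card_image_of_injective, Finset.card_attach]
    intro i j hij
    have h1 := vo_inj _ _ (Option.some_injective _ hij)
    exact Subtype.ext (h.inj i.1 i.2 j.1 j.2 (bp_assoc h.pos h1))
  · intro w hw
    obtain ⟨i, -, rfl⟩ := Finset.mem_image.1 hw
    exact lf_zero hκ h i.1 i.2

theorem Link.poles {I : Type*} {n : ℕ} {R : Finset I} {a b : I → F} (h : Link n R a b) {κ : F}
    (hκ : κ ≠ 0) (hs : IsSquare (-1 : F)) : ∃ Z : Finset (Place F), R.card ≤ Z.card ∧
      ∀ w ∈ Z, 1 < plv w (lf n R a b κ) := by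
  obtain ⟨Z, hZ, hw⟩ := (h.symm hs).zeros (inv_ne_zero hκ)
  refine ⟨Z, hZ, fun w hwZ => ?_⟩
  have := hw w hwZ
  rw [← lf_inv hκ h, map_inv₀] at this
  exact (inv_lt_one₀ (zero_lt_iff.2 ((Valuation.ne_zero_iff _).2 (lf_ne hκ h)))).1 this

omit [DecidableEq (RatFunc F)] in
theorem lf_deg {r n : ℕ} (hr : 0 < r) (hn : 0 < n) {ω : F} (hω : IsPrimitiveRoot ω r)
    {α β κ : F} (hα : α ≠ 0) (hβ : β ≠ 0) (hκ : κ ≠ 0) (hne : α ^ r ≠ β ^ r) :
    n * r ≤ (lf n (nthRootsFinset r (1 : F)) (fun s => s * α) (fun s => s * β) κ).num.natDegree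
    := by
  have hm : 0 < n * r := Nat.mul_pos hn hr
  set u := lf n (nthRootsFinset r (1 : F)) (fun s => s * α) (fun s => s * β) κ with hu
  have hu' : u = algebraMap F[X] (RatFunc F) (C κ * bp (n * r) (α ^ r)) / algebraMap F[X] (RatFunc F) (bp (n * r) (β ^ r)) := by
    rw [hu]
    unfold lf
    rw [← map_prod, ← map_prod, prod_bp hr hω hα, prod_bp hr hω hβ, map_mul, RatFunc.algebraMap_C]
  have hP := bp_ratFunc_ne hm (α ^ r)
  have hR := bp_ratFunc_ne hm (β ^ r)
  have hu0 : u ≠ 0 := by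
    rw [hu', map_mul, RatFunc.algebraMap_C]
    exact div_ne_zero (mul_ne_zero (ne_zero_C hκ) hP) hR
  have hd : algebraMap F[X] (RatFunc F) u.denom ≠ 0 := by simpa using u.denom_ne_zero
  have h1 : algebraMap F[X] (RatFunc F) (u.num * bp (n * r) (β ^ r)) = algebraMap F[X] (RatFunc F) (u.denom * (C κ * bp (n * r) (α ^ r))) := by
    have h2 := u.num_div_denom
    rw [div_eq_iff hd] at h2
    rw [map_mul, map_mul, h2, hu']
    field_simp
  have h2 : u.num * bp (n * r) (β ^ r) = u.denom * (C κ * bp (n * r) (α ^ r)) :=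
    RatFunc.algebraMap_injective F h1
  have hco : IsCoprime (bp (n * r) (α ^ r)) (bp (n * r) (β ^ r)) := by
    have hd : β ^ r - α ^ r ≠ 0 := sub_ne_zero.2 (Ne.symm hne)
    refine ⟨C (β ^ r - α ^ r)⁻¹, -C (β ^ r - α ^ r)⁻¹, ?_⟩
    have h3 : (C (β ^ r - α ^ r)⁻¹ : F[X]) * C (β ^ r - α ^ r) = 1 := by
      rw [← C_mul, inv_mul_cancel₀ hd, C_1]
    rw [C_sub] at h3
    unfold bp
    linear_combination h3
  have h3 : bp (n * r) (α ^ r) ∣ u.num := by
    refine hco.dvd_of_dvd_mul_right ?_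
    rw [h2]
    exact (dvd_mul_left _ _).mul_left _
  have h4 := natDegree_le_of_dvd h3 (RatFunc.num_ne_zero hu0)
  rwa [bp_deg hm] at h4

end

open scoped Classical in
/-- **existence of good functions** -/
theorem exists_good {p : ℕ} (hp : p.Prime) (hp2 : p ≠ 2) {f : ℕ} (hf : 0 < f) (N : ℕ) :
    ∃ (F : Type) (_ : Field F) (_ : Fintype F) (_ : CharP F p),
      (p ^ f) ^ 2 - 1 ∣ Fintype.card F - 1 ∧
      ∀ D : ℕ, ∃ u : RatFunc F, Good (p ^ f) N D u := by
  obtain ⟨r, hr1, hr⟩ := Nat.exists_infinite_primes (2 * (p ^ f + 1) + 3 + p + N)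
  have : Fact p.Prime := ⟨hp⟩
  have hrp : r ≠ p := by omega
  have hrodd : Odd r := hr.odd_of_ne_two (by omega)
  set M : ℕ := 2 * f * (r * (r - 1)) with hM
  have hr0 : 0 < r * (r - 1) := Nat.mul_pos hr.pos (by omega)
  have hM0 : M ≠ 0 := by positivity
  let F₀ := GaloisField p M
  have : Fintype F₀ := Fintype.ofFinite F₀
  have hcard : Fintype.card F₀ = p ^ M := by
    rw [← Nat.card_eq_fintype_card]; exact GaloisField.card p M hM0
  have hd1 : r ^ 2 ∣ Fintype.card F₀ - 1 := by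
    rw [hcard, hM, pow_mul]
    have h1 : ((p ^ (2 * f)) ^ (r * (r - 1))) % r ^ 2 = 1 % r ^ 2 := by
      have hco : (p ^ (2 * f)).Coprime (r ^ 2) :=
        Nat.Coprime.pow _ _ ((Nat.coprime_primes hp hr).2 (Ne.symm hrp))
      have := Nat.ModEq.pow_totient hco
      rw [Nat.totient_prime_pow hr (by norm_num), show 2 - 1 = 1 from rfl, pow_one] at this
      exact this
    have h2 : 1 ≤ (p ^ (2 * f)) ^ (r * (r - 1)) := Nat.one_le_pow _ _ (pow_pos hp.pos _)
    exact (Nat.modEq_iff_dvd' h2).1 h1.symm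
  have hd2 : (p ^ f) ^ 2 - 1 ∣ Fintype.card F₀ - 1 := by
    have h1 : Fintype.card F₀ = ((p ^ f) ^ 2) ^ (r * (r - 1)) := by
      rw [hcard, hM, ← pow_mul, ← pow_mul]
      congr 1; ring
    rw [h1]
    have := Nat.sub_dvd_pow_sub_pow ((p ^ f) ^ 2) 1 (r * (r - 1))
    rwa [one_pow] at this
  have hpodd : Odd (p ^ f) := (hp.odd_of_ne_two hp2).pow
  have hQ1 : 1 < p ^ f := Nat.one_lt_pow hf.ne' hp.one_lt
  obtain ⟨ξ, hξ⟩ := exists_primitive (F := F₀) hd1
  have hω : IsPrimitiveRoot (ξ ^ r) r :=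
    hξ.pow (pow_pos hr.pos 2) (by rw [sq])
  have hchar0 : ringChar F₀ ≠ 2 := by
    rw [ringChar.eq F₀ p]; exact hp2
  have h4 : Fintype.card F₀ % 4 = 1 := (arith hpodd hQ1 hd2 Fintype.card_pos).1
  have hneg0 : IsSquare (-1 : F₀) := FiniteField.isSquare_neg_one_iff.2 (by omega)
  obtain ⟨F, hF1, hF2, hF3, hodd, x, hx⟩ := exists_odd_ext_pattern hchar0 hneg0
    (nthRootsFinset r (1 : F₀)) (fun a => if a = 1 then -1 else 1)
    (fun a _ => by by_cases h : a = 1 <;> simp [h])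
  have hcharF : CharP F p := charP_of_injective_algebraMap (algebraMap F₀ F).injective p
  have hcardF : Fintype.card F = Fintype.card F₀ ^ Module.finrank F₀ F :=
    Module.card_eq_pow_finrank
  have hmul : Fintype.card F₀ - 1 ∣ Fintype.card F - 1 := by
    rw [hcardF]
    have := Nat.sub_dvd_pow_sub_pow (Fintype.card F₀) 1 (Module.finrank F₀ F)
    rwa [one_pow] at this
  have hdivF : (p ^ f) ^ 2 - 1 ∣ Fintype.card F - 1 := hd2.trans hmul
  have hrF2 : r ^ 2 ∣ Fintype.card F - 1 := hd1.trans hmul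
  have hrF : r ∣ Fintype.card F - 1 := (dvd_pow_self r two_ne_zero).trans hrF2
  have hbigF : r ^ 2 ≤ Fintype.card F := by
    have h1 : 1 < Fintype.card F := Fintype.one_lt_card
    exact (Nat.le_of_dvd (by omega) hrF2).trans (Nat.sub_le _ _)
  have hneg : IsSquare (-1 : F) := by
    have := hneg0.map (algebraMap F₀ F)
    rwa [map_neg, map_one] at this
  -- the roots of unity
  have hω' : IsPrimitiveRoot (algebraMap F₀ F (ξ ^ r)) r := hω.map_of_injective
    (algebraMap F₀ F).injective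
  have hroot : ∀ s : F, s ^ r = 1 → ∃ a ∈ nthRootsFinset r (1 : F₀), algebraMap F₀ F a = s ∧
      ∃ z : F, z ^ r = s := by
    intro s hs
    have : NeZero r := ⟨hr.ne_zero⟩
    obtain ⟨i, -, hi⟩ := hω'.eq_pow_of_pow_eq_one hs
    refine ⟨(ξ ^ r) ^ i, ?_, ?_, algebraMap F₀ F ξ ^ i, ?_⟩
    · rw [mem_nthRootsFinset hr.pos, ← pow_mul, mul_comm, pow_mul, hω.pow_eq_one, one_pow]
    · rw [map_pow, hi]
    · rw [← hi, map_pow, ← pow_mul, ← pow_mul, mul_comm]
  have hxs : ∀ s : F, s ^ r = 1 → x ≠ s ∧ (IsSquare (x - s) ↔ s ≠ 1) := by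
    intro s hs
    obtain ⟨a, ha, rfl, -⟩ := hroot s hs
    obtain ⟨h1, h2⟩ := hx a ha
    refine ⟨h1, h2.trans ?_⟩
    by_cases h : a = 1
    · simp [h]
    · simp only [h, if_false, true_iff]
      intro h'
      exact h ((algebraMap F₀ F).injective (by rw [h', map_one]))
  have hx0 : x ≠ 0 := by
    rintro rfl
    have := (hxs 1 (one_pow _)).2
    rw [zero_sub] at this
    exact this.1 hneg rfl
  obtain ⟨l, hl0, hl1, hl2⟩ := exists_lam hrF hr (by omega) hbigF hx0
  set β : F := l ^ 2 with hβ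
  set α : F := l ^ 2 * x with hα
  have hβ0 : β ≠ 0 := pow_ne_zero _ hl0
  have hα0 : α ≠ 0 := mul_ne_zero hβ0 hx0
  have hAB : α ^ r ≠ β ^ r := by
    intro h
    have h1 : x ^ r = 1 := by
      rw [hα, hβ, mul_pow] at h
      have : (l ^ 2) ^ r * (x ^ r - 1) = 0 := by linear_combination h
      rcases mul_eq_zero.1 this with h' | h'
      · exact absurd h' (pow_ne_zero _ hβ0)
      · exact sub_eq_zero.1 h'
    exact (hxs x h1).1 rfl
  have hn : 0 < p ^ f + 1 := Nat.succ_pos _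
  obtain ⟨κ, hκ0, hκ⟩ := exists_kappa hrF hbigF hAB (nthRootsFinset (p ^ f + 1) (1 : F))
    (by
      have h1 : (nthRootsFinset (p ^ f + 1) (1 : F)).card ≤ p ^ f + 1 := by
        rw [nthRootsFinset_def]
        exact (Multiset.toFinset_card_le _).trans (card_nthRoots _ _)
      omega)
    (by
      rintro s hs rfl
      rw [mem_nthRootsFinset hn, zero_pow hn.ne'] at hs
      exact zero_ne_one hs)
  refine ⟨F, hF1, hF2, hcharF, hdivF, fun D => ?_⟩
  have hD : D ≤ r ^ D := (Nat.lt_pow_self hr.one_lt).le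
  set n := r ^ D with hnD
  have hn0 : 0 < n := pow_pos hr.pos _
  have hirr : ∀ c : F, (∀ b : F, b ^ r ≠ c) → ∀ s : F, s ^ r = 1 → Irreducible (bp n (s * c)) := by
    intro c hc s hs
    refine X_pow_sub_C_irreducible_of_prime_pow hr (by omega) D fun b hb => ?_
    obtain ⟨-, -, -, z, hz⟩ := hroot s hs
    have hz0 : z ≠ 0 := by
      rintro rfl
      rw [zero_pow hr.ne_zero] at hz
      rw [← hz, zero_pow hr.ne_zero] at hs
      exact zero_ne_one hs
    refine hc (b / z) ?_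
    rw [div_pow, hb, ← hz]
    field_simp
  have hlink := tower hrodd (hrodd.pow : Odd (r ^ D)) hω' (hirr α hl2) (hirr β hl1) hα0 hβ0
    (fun s hs h => (hxs s hs).1 (mul_left_cancel₀ hβ0 (by rw [← hα, h, mul_comm])))
    (fun s hs => by
      have e : α - s * β = l ^ 2 * (x - s) := by rw [hα, hβ]; ring
      rw [e, ← (hxs s hs).2]
      constructor
      · rintro ⟨y, hy⟩
        refine ⟨y / l, ?_⟩
        field_simp
        linear_combination hy
      · intro h
        exact IsSquare.mul ⟨l, sq l⟩ h)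
  refine ⟨lf n (nthRootsFinset r (1 : F)) (fun s => s * α) (fun s => s * β) κ, ?_,
    hlink.unlinked hneg hκ0 _, ?_, ?_, ?_⟩
  · intro s hs
    obtain ⟨h1, h2⟩ := hκ s ((mem_nthRootsFinset hn (1 : F)).2 hs)
    have hd : κ - s ≠ 0 := sub_ne_zero.2 h1
    set e : F := (κ * α ^ r - s * β ^ r) / (κ - s) with he
    have he' : (κ - s) * e = κ * α ^ r - s * β ^ r := by
      rw [he]; field_simp
    have hepow : ∀ b : F, b ^ r ≠ e := by
      intro b hb
      refine h2 b ?_
      rw [hb, mul_comm, he']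
    refine tower_above hr.pos hn0 hω' hα0 hβ0 h1 he' ?_ (fun h => hepow β h.symm)
    rw [hnD, ← pow_succ]
    exact X_pow_sub_C_irreducible_of_prime_pow hr (by omega) (D + 1) hepow
  · obtain ⟨Z, hZ, h⟩ := hlink.zeros hκ0
    rw [hω'.card_nthRootsFinset] at hZ
    exact ⟨Z, by omega, h⟩
  · obtain ⟨Z, hZ, h⟩ := hlink.poles hκ0 hneg
    rw [hω'.card_nthRootsFinset] at hZ
    exact ⟨Z, by omega, h⟩
  · refine le_trans ?_ (lf_deg hr.pos hn0 hω' hα0 hβ0 hκ0 hAB)
    exact hD.trans (Nat.le_mul_of_pos_right _ hr.pos)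

end OddCov
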