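import Pool.Agent.Helper9.BSD.HeightPoly
import Pool.Agent.Helper9.BSD.Curve

/-!
# Heights over `F(t)`: the addition-subtraction map
-/

namespace OddCov

/-- the addition-subtraction map for `l = A / B` -/
def phi {R : Type*} [CommRing R] (A B : R) : Fin 3 → Fin 6 → R :=
  ![![B ^ 2, 0, -2 * A * B, 0, 0, A ^ 2],
    ![0, 2 * B ^ 2, 4 * B * (A + B), 0, 2 * A * B, 0],
    ![0, 0, -4 * B ^ 2, B ^ 2, 0, 0]]

/-- the coefficients of the resultant identity -/
def coe {R : Type*} [CommRing R] (A B : R) : Fin 3 → Fin 3 → Fin 6 → R :=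
  ![![![16 * (A + B) ^ 2 * A ^ 2 * B - 64 * A ^ 3 * B ^ 2, -16 * (A + B) * A ^ 3 * B, 0,
        -12 * A ^ 4 * B, 0, 0],
      ![8 * (A + B) * A ^ 3 * B, -10 * A ^ 4 * B, -4 * (A + B) * A ^ 4, 0, 6 * A ^ 5, 0],
      ![32 * A ^ 4 * B, 0, -16 * A ^ 5, 0, 0, 0]],
    ![![0, 0, 0, 64 * A ^ 2 * B ^ 3, 0, 0],
      ![0, -32 * A ^ 2 * B ^ 3, 0, 16 * (A + B) * A ^ 2 * B ^ 2, -32 * A ^ 3 * B ^ 2, 0],
      ![0, -32 * (A + B) * A ^ 2 * B ^ 2, 0, 16 * (A + B) ^ 2 * A ^ 2 * B - 64 * A ^ 3 * B ^ 2,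
        -32 * (A + B) * A ^ 3 * B, 0]],
    ![![0, 0, 0, -12 * B ^ 5, -16 * (A + B) * B ^ 4, 16 * (A + B) ^ 2 * B ^ 3 - 64 * A * B ^ 4],
      ![0, 6 * B ^ 5, -4 * (A + B) * B ^ 4, 0, -10 * A * B ^ 4, 8 * (A + B) * A * B ^ 3],
      ![0, 0, -16 * A * B ^ 4, 0, 0, 32 * A ^ 2 * B ^ 3]]]

theorem phi_id {R : Type*} [CommRing R] (A B : R) (z : Fin 3 → R) (i : Fin 3) :
    ∑ j, quad (coe A B i j) z * quad (phi A B j) z =
      16 * A ^ 2 * (A - B) ^ 2 * B ^ 3 * z i ^ 4 := by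
  rw [Fin.sum_univ_three]
  fin_cases i
  · simp [quad, coe, phi]; ring
  · simp [quad, coe, phi]; ring
  · simp [quad, coe, phi]; ring

variable {K : Type*} [Field K]

/-- representative of the x-coordinate -/
def rep {l : K} : E l → Fin 2 → K
  | .zero => ![1, 0]
  | .some x _ _ => ![x, 1]

theorem rep_zero {l : K} : rep (0 : E l) = ![1, 0] := rfl

theorem rep_ne {l : K} {P : E l} (hP : P ≠ 0) : rep P = ![xc P, 1] := by
  cases P with
  | zero => exact absurd rfl hP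
  | some x y h => rfl

theorem rep_neg {l : K} (P : E l) : rep (-P) = rep P := by
  cases P <;> rfl

variable [DecidableEq K]

omit [DecidableEq K] in
theorem sq_sub_l_ne {l : K} (h0 : l ≠ 0) (h1 : l ≠ 1) {x : K} (hx : x * (x + 1) * (x + l) = 0) :
    x ^ 2 - l ≠ 0 := by
  intro h
  rcases mul_eq_zero.1 hx with h2 | h2
  · rcases mul_eq_zero.1 h2 with h3 | h3
    · apply h0
      linear_combination x * h3 - h
    · apply h1
      linear_combination (x - 1) * h3 - h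
  · have h4 : l * (l - 1) = 0 := by linear_combination h - (x - l) * h2
    rcases mul_eq_zero.1 h4 with h5 | h5
    · exact h0 h5
    · exact h1 (sub_eq_zero.1 h5)

theorem phi_self [NeZero (2 : K)] {l : K} (h0 : l ≠ 0) (h1 : l ≠ 1) {P : E l} (hP : P ≠ 0) :
    ∃ ν : K, ν ≠ 0 ∧ ∀ j, quad (phi l 1 j) (sym (rep P) (rep P)) =
      ν * sym (rep (P + P)) (rep (0 : E l)) j := by
  have hc := curve_eq hP
  rw [rep_ne hP]
  by_cases h2 : P + P = 0
  · have hy := yc_of_add_self h2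
    rw [hy] at hc
    have hc' : xc P * (xc P + 1) * (xc P + l) = 0 := by rw [← hc]; ring
    refine ⟨(xc P ^ 2 - l) ^ 2, pow_ne_zero _ (sq_sub_l_ne h0 h1 hc'), fun j => ?_⟩
    rw [h2, rep_zero]
    fin_cases j
    · simp [quad, phi, sym]; ring
    · simp [quad, phi, sym]; linear_combination 4 * hc'
    · simp [quad, phi, sym]; ring
  · have hy : yc P ≠ 0 := fun h => h2 (add_self_of_yc h)
    obtain ⟨L, c, g1, -, -, g4, g5, -⟩ := line_of_add_eq_zero hP hP (neg_ne h2)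
      (add_neg_cancel (P + P))
    rw [xc_neg] at g4 g5
    have k1 : 2 * L * yc P = 3 * xc P ^ 2 + 2 * (1 + l) * xc P + l := by
      linear_combination 2 * L * g1 - 2 * xc P * g4 + g5
    refine ⟨4 * yc P ^ 2, mul_ne_zero ?_ (pow_ne_zero _ hy), fun j => ?_⟩
    · have : (4 : K) = 2 * 2 := by norm_num
      rw [this]
      exact mul_ne_zero two_ne_zero two_ne_zero
    have hX : xc (P + P) = L ^ 2 - (1 + l) - 2 * xc P := by linear_combination g4
    have hXX : 4 * yc P ^ 2 * xc (P + P) = (xc P ^ 2 - l) ^ 2 := by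
      rw [hX]
      linear_combination (2 * L * yc P + 3 * xc P ^ 2 + 2 * (1 + l) * xc P + l) * k1 -
        4 * (1 + l + 2 * xc P) * hc
    rw [rep_ne h2, rep_zero]
    fin_cases j
    · simp [quad, phi, sym]; linear_combination -hXX
    · simp [quad, phi, sym]; linear_combination -4 * hc
    · simp [quad, phi, sym]; ring

omit [DecidableEq K] in
theorem sym_comm {R : Type*} [CommRing R] (p q : Fin 2 → R) : sym p q = sym q p := by
  ext i
  fin_cases i
  · simp [sym, mul_comm]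
  · simp [sym]; ring
  · simp [sym, mul_comm]

/-- the addition-subtraction map computes the x-coordinates of `P ± Q` -/
theorem phi_add [NeZero (2 : K)] {l : K} (h0 : l ≠ 0) (h1 : l ≠ 1) (P Q : E l) :
    ∃ ν : K, ν ≠ 0 ∧ ∀ j, quad (phi l 1 j) (sym (rep P) (rep Q)) =
      ν * sym (rep (P + Q)) (rep (P - Q)) j := by
  by_cases hP : P = 0
  · subst hP
    rw [zero_add, zero_sub, rep_neg, rep_zero]
    refine ⟨1, one_ne_zero, fun j => ?_⟩
    by_cases hQ : Q = 0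
    · subst hQ
      rw [rep_zero]
      fin_cases j <;> simp [quad, phi, sym]
    · rw [rep_ne hQ]
      fin_cases j
      · simp [quad, phi, sym]; ring
      · simp [quad, phi, sym]; ring
      · simp [quad, phi, sym]
  by_cases hQ : Q = 0
  · subst hQ
    rw [add_zero, sub_zero, rep_zero, rep_ne hP]
    refine ⟨1, one_ne_zero, fun j => ?_⟩
    fin_cases j
    · simp [quad, phi, sym]; ring
    · simp [quad, phi, sym]; ring
    · simp [quad, phi, sym]
  by_cases hPQ : P = Q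
  · subst hPQ
    rw [sub_self]
    exact phi_self h0 h1 hP
  by_cases hPQ' : P = -Q
  · have hQ' : Q = -P := by rw [hPQ', neg_neg]
    subst hQ'
    rw [add_neg_cancel, sub_neg_eq_add, rep_neg, sym_comm (rep (0 : E l))]
    exact phi_self h0 h1 hP
  · have hS : P + Q ≠ 0 := fun h => hPQ' (eq_neg_of_add_eq_zero_left h)
    have hD : P - Q ≠ 0 := fun h => hPQ (sub_eq_zero.1 h)
    have hx : xc P - xc Q ≠ 0 := by
      intro h
      rcases (xc_eq_iff hP hQ).1 (sub_eq_zero.1 h) with h2 | h2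
      · exact hPQ h2
      · exact hPQ' h2
    obtain ⟨L, c, a1, a2, -, a4, -, -⟩ := line_of_add_eq_zero hP hQ (neg_ne hS)
      (add_neg_cancel (P + Q))
    obtain ⟨L', c', b1, b2, -, b4, -, -⟩ := line_of_add_eq_zero hP (neg_ne hQ) (neg_ne hD)
      (by rw [sub_eq_add_neg]; exact add_neg_cancel (P + -Q))
    rw [xc_neg] at a4 b2
    rw [xc_neg, xc_neg] at b4
    rw [yc_neg] at b2
    have c1 := curve_eq hP
    have c2 := curve_eq hQ
    rw [rep_ne hP, rep_ne hQ, rep_ne hS, rep_ne hD]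
    set x₁ := xc P
    set x₂ := xc Q
    set y₁ := yc P
    set y₂ := yc Q
    set X := xc (P + Q)
    set Y := xc (P - Q)
    have hs : (x₁ - x₂) ^ 2 * X = (y₁ - y₂) ^ 2 - (1 + l + x₁ + x₂) * (x₁ - x₂) ^ 2 := by
      have e : y₁ - y₂ = L * (x₁ - x₂) := by linear_combination a1 - a2
      rw [e]
      linear_combination (x₁ - x₂) ^ 2 * a4
    have ht : (x₁ - x₂) ^ 2 * Y = (y₁ + y₂) ^ 2 - (1 + l + x₁ + x₂) * (x₁ - x₂) ^ 2 := by
      have e : y₁ + y₂ = L' * (x₁ - x₂) := by linear_combination b1 - b2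
      rw [e]
      linear_combination (x₁ - x₂) ^ 2 * b4
    refine ⟨(x₁ - x₂) ^ 2, pow_ne_zero _ hx, fun j => ?_⟩
    have hprod : (x₁ - x₂) ^ 2 * (X * Y) = (x₁ * x₂ - l) ^ 2 := by
      apply mul_left_cancel₀ (pow_ne_zero 2 hx)
      have e : (x₁ - x₂) ^ 2 * ((x₁ - x₂) ^ 2 * (X * Y)) =
          ((x₁ - x₂) ^ 2 * X) * ((x₁ - x₂) ^ 2 * Y) := by ring
      rw [e, hs, ht]
      have e2 : ((y₁ - y₂) ^ 2 - (1 + l + x₁ + x₂) * (x₁ - x₂) ^ 2) *
          ((y₁ + y₂) ^ 2 - (1 + l + x₁ + x₂) * (x₁ - x₂) ^ 2) =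
          (y₁ ^ 2 - y₂ ^ 2) ^ 2 - 2 * ((1 + l + x₁ + x₂) * (x₁ - x₂) ^ 2) * (y₁ ^ 2 + y₂ ^ 2) +
            ((1 + l + x₁ + x₂) * (x₁ - x₂) ^ 2) ^ 2 := by ring
      rw [e2, c1, c2]
      ring
    fin_cases j
    · simp [quad, phi, sym]; linear_combination -hprod
    · simp [quad, phi, sym]
      linear_combination -hs - ht - 2 * c1 - 2 * c2
    · simp [quad, phi, sym]; ring

end OddCov
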