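import Pool.Agent.Helper9.BSD.Points

/-!
# The index `[E(K) : 2 E(K)]`
-/

namespace OddCov

open WithZero Polynomial IsDedekindDomain

variable {F : Type*} [Field F] [DecidableEq (RatFunc F)]

omit [DecidableEq (RatFunc F)] in
theorem oddV_iff {v : Valuation (RatFunc F) ℤᵐ⁰} {a b : RatFunc F} (ha : a ≠ 0) (hb : b ≠ 0)
    (h : IsSquare (a * b)) : OddV v a ↔ OddV v b := by
  have h1 : EvV v (a * b) := (sqV_of_isSquare (mul_ne_zero ha hb) h).ev
  constructor
  · intro ho
    have h1' : EvV v (b * a) := by rwa [mul_comm]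
    exact h1'.of_mul_odd ho
  · exact fun ho => h1.of_mul_odd ho

variable {u : RatFunc F} {M : Finset F} {d Q : ℕ}

theorem odd_prod_gs (hS : Setup u M d) {s : F} (hs : s ∈ M) {w : Place F}
    (hodd : OddV (plv w) (u - RatFunc.C s)) (hw : plv w (u - RatFunc.C s) < 1) {B : Finset F}
    (hB : B ⊆ M) : OddV (plv w) (∏ r ∈ B, gs u r) ↔ s ∈ B := by
  classical
  have h1 : ∀ r ∈ M, r ≠ s → plv w (gs u r) = 1 := by
    intro r hr hne
    have h2 : plv w (RatFunc.C (s - r)) = 1 := val_C _ (sub_ne_zero.2 (Ne.symm hne))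
    have e : u - RatFunc.C r = RatFunc.C (s - r) + (u - RatFunc.C s) := by
      rw [map_sub]; ring
    rw [gs_eq u (hS.ne_zero r hr), map_mul,
      val_C _ (neg_ne_zero.2 (inv_ne_zero (hS.ne_zero r hr))), one_mul, e,
      Valuation.map_add_eq_of_lt_left _ (by rwa [h2]), h2]
  have h3 : OddV (plv w) (gs u s) := by
    obtain ⟨m, hm⟩ := hodd
    refine ⟨m, ?_⟩
    rw [gs_eq u (hS.ne_zero s hs), map_mul,
      val_C _ (neg_ne_zero.2 (inv_ne_zero (hS.ne_zero s hs))), one_mul, hm]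
  constructor
  · intro h
    by_contra hsB
    refine not_ev_odd (evV_of_eq_one ?_) h
    rw [map_prod]
    exact Finset.prod_eq_one fun r hr => h1 r (hB hr) (fun h => hsB (h ▸ hr))
  · intro hsB
    rw [← Finset.mul_prod_erase _ _ hsB]
    refine h3.mul_ev (evV_of_eq_one ?_)
    rw [map_prod]
    refine Finset.prod_eq_one fun r hr => ?_
    rw [Finset.mem_erase] at hr
    exact h1 r (hB hr.2) hr.1

theorem LocSol.of_hasPoint {b₁ b₂ l : RatFunc F} (h : HasPoint (RatFunc F) b₁ b₂ l) :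
    LocSol b₁ b₂ l :=
  ⟨fun v => h.map (algebraMap (RatFunc F) (v.adicCompletion (RatFunc F))),
    h.map (algebraMap (RatFunc F) (RatFunc.CompletionAtInfty F))⟩

/-- every point is congruent to one of the points attached to the subsets -/
theorem exists_half (hS : Setup u M (Q + 1)) (hF : Frob F M Q) (P : E (u ^ (Q + 1))) :
    ∃ B ⊆ M, ∀ R : E (u ^ (Q + 1)), IsSquare (u ^ B.card * cls 0 R) →
      IsSquare ((∏ s ∈ B, gs u s) * cls (-1) R) → ∃ T, P - R = T + T := by
  have : NeZero (2 : RatFunc F) := hF.two_ne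
  have r0 := root_zero hS.ne_zero'
  have r1 := root_one hS.ne_one'
  have rl := root_l hS.ne_zero' hS.ne_one'
  have hp : HasPoint (RatFunc F) (cls 0 P) (cls (-1) P) (u ^ (Q + 1)) :=
    hasPoint_of_cls hS.ne_zero' hS.ne_one' (r0.cls_ne_zero P) (r1.cls_ne_zero P) P
      ⟨_, rfl⟩ ⟨_, rfl⟩
  obtain ⟨B, hBM, h1, h2⟩ := selmer_structure hS (r0.cls_ne_zero P) (r1.cls_ne_zero P)
    (fun w => (LocSol.of_hasPoint hp).cond (r0.cls_ne_zero P) (r1.cls_ne_zero P) w)
  refine ⟨B, hBM, fun R h3 h4 => ?_⟩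
  have key : ∀ e g : RatFunc F, Root (u ^ (Q + 1)) e → g ≠ 0 → IsSquare (cls e P * g) →
      IsSquare (g * cls e R) → IsSquare (cls e (P - R)) := by
    intro e g he hg h5 h6
    have h7 := he.cls_add P (-R)
    rw [cls_neg, ← sub_eq_add_neg] at h7
    obtain ⟨z, hz⟩ := (h5.mul h6).mul h7
    have n1 := he.cls_ne_zero P
    have n2 := he.cls_ne_zero R
    refine ⟨z / (g * cls e P * cls e R), ?_⟩
    field_simp
    linear_combination hz
  have hu0 : u ^ B.card ≠ 0 := pow_ne_zero _ hS.u_ne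
  have hg0 : ∏ s ∈ B, gs u s ≠ 0 := Finset.prod_ne_zero_iff.2 fun s hs => hS.gs_ne (hBM hs)
  have c0 := key 0 _ r0 hu0 h1 h3
  have c1 := key (-1) _ r1 hg0 h2 h4
  have cl : IsSquare (cls (-(u ^ (Q + 1))) (P - R)) := by
    obtain ⟨z, hz⟩ := (c0.mul c1).mul (cls_prod hS.ne_zero' hS.ne_one' (P - R))
    have n1 := r0.cls_ne_zero (P - R)
    have n2 := r1.cls_ne_zero (P - R)
    refine ⟨z / (cls 0 (P - R) * cls (-1) (P - R)), ?_⟩
    field_simp
    linear_combination hz
  obtain ⟨T, hT⟩ := halving hS.ne_zero' hS.ne_one' c0 c1 cl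
  exact ⟨T, hT.symm⟩

/-- the subgroup `2 E` -/
abbrev dbl (G : Type*) [AddCommGroup G] : AddSubgroup G := (nsmulAddMonoidHom (α := G) 2).range

theorem mem_dbl {G : Type*} [AddCommGroup G] {x : G} : x ∈ dbl G ↔ ∃ T, x = T + T := by
  constructor
  · rintro ⟨T, rfl⟩
    exact ⟨T, by simp [two_nsmul]⟩
  · rintro ⟨T, rfl⟩
    exact ⟨T, by simp [two_nsmul]⟩

theorem card_quot (hS : Setup u M (Q + 1)) (hF : Frob F M Q) :
    Nat.card (E (u ^ (Q + 1)) ⧸ dbl (E (u ^ (Q + 1)))) = 2 ^ M.card := by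
  classical
  have r1 := root_one hS.ne_one'
  have hR : ∀ B : {B // B ∈ M.powerset}, ∃ P : E (u ^ (Q + 1)),
      IsSquare (u ^ B.1.card * cls 0 P) ∧ IsSquare ((∏ s ∈ B.1, gs u s) * cls (-1) P) :=
    fun B => exists_point_set hS hF (Finset.mem_powerset.1 B.2)
  choose R hR1 hR2 using hR
  let f : {B // B ∈ M.powerset} → E (u ^ (Q + 1)) ⧸ dbl (E (u ^ (Q + 1))) :=
    fun B => QuotientAddGroup.mk (R B)
  have hf : Function.Bijective f := by
    constructor
    · intro B B' hBB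
      have h1 : -R B + R B' ∈ dbl (E (u ^ (Q + 1))) := QuotientAddGroup.eq.1 hBB
      obtain ⟨T, hT⟩ := mem_dbl.1 h1
      have h2 : R B' = R B + (T + T) := by rw [← hT]; abel
      have h3 : IsSquare (cls (-1) (R B') * cls (-1) (R B)) := by
        obtain ⟨z, hz⟩ := (r1.cls_add (R B) (T + T)).mul (r1.cls_add T T)
        have n1 := r1.cls_ne_zero T
        have n2 := r1.cls_ne_zero (T + T)
        refine ⟨z / (cls (-1) (T + T) * cls (-1) T), ?_⟩
        rw [h2]
        field_simp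
        linear_combination hz
      apply Subtype.ext
      have hmem : ∀ s ∈ M, (s ∈ B.1 ↔ s ∈ B'.1) := by
        intro s hs
        obtain ⟨w, hodd, hw⟩ := hS.at_fin hs
        have hBM := Finset.mem_powerset.1 B.2
        have hBM' := Finset.mem_powerset.1 B'.2
        rw [← odd_prod_gs hS hs hodd ((hw w).2 rfl) hBM,
          ← odd_prod_gs hS hs hodd ((hw w).2 rfl) hBM',
          oddV_iff (Finset.prod_ne_zero_iff.2 fun s hs => hS.gs_ne (hBM hs))
            (r1.cls_ne_zero _) (hR2 B),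
          oddV_iff (Finset.prod_ne_zero_iff.2 fun s hs => hS.gs_ne (hBM' hs))
            (r1.cls_ne_zero _) (hR2 B'),
          oddV_iff (r1.cls_ne_zero _) (r1.cls_ne_zero _) h3]
      ext s
      by_cases hs : s ∈ M
      · exact hmem s hs
      · exact ⟨fun h => absurd (Finset.mem_powerset.1 B.2 h) hs,
          fun h => absurd (Finset.mem_powerset.1 B'.2 h) hs⟩
    · intro x
      obtain ⟨P, rfl⟩ := QuotientAddGroup.mk_surjective x
      obtain ⟨B, hBM, hB⟩ := exists_half hS hF P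
      let B' : {B // B ∈ M.powerset} := ⟨B, Finset.mem_powerset.2 hBM⟩
      obtain ⟨T, hT⟩ := hB (R B') (hR1 B') (hR2 B')
      refine ⟨B', ?_⟩
      refine QuotientAddGroup.eq.2 (mem_dbl.2 ⟨T, ?_⟩)
      rw [← hT]; abel
  rw [← Nat.card_eq_of_bijective f hf, Nat.card_eq_fintype_card, Fintype.card_coe,
    Finset.card_powerset]

end OddCov
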