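import Pool.Agent.Helper9.BSD.Curve

/-!
# Local analysis of the 2-coverings
-/

namespace OddCov

open WithZero

section

variable {L : Type*} [Field L] (v : Valuation L ℤᵐ⁰)

variable {v}

theorem exists_exp {b : L} (hb : b ≠ 0) : ∃ m : ℤ, v b = exp m :=
  ⟨log (v b), (exp_log ((Valuation.ne_zero_iff v).2 hb)).symm⟩

theorem ev_or_odd {b : L} (hb : b ≠ 0) : EvV v b ∨ OddV v b := by
  obtain ⟨m, hm⟩ := exists_exp (v := v) hb
  rcases Int.even_or_odd' m with ⟨k, rfl | rfl⟩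
  · exact Or.inl ⟨k, hm⟩
  · exact Or.inr ⟨k, hm⟩

theorem not_ev_odd {b : L} (h : EvV v b) (h' : OddV v b) : False := by
  obtain ⟨m, hm⟩ := h
  obtain ⟨n, hn⟩ := h'
  rw [hm] at hn
  have := exp_injective hn
  omega

theorem EvV.ne {b : L} (h : EvV v b) : b ≠ 0 := by
  rintro rfl
  obtain ⟨m, hm⟩ := h
  rw [map_zero] at hm
  exact exp_ne_zero hm.symm

theorem OddV.ne {b : L} (h : OddV v b) : b ≠ 0 := by
  rintro rfl
  obtain ⟨m, hm⟩ := h
  rw [map_zero] at hm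
  exact exp_ne_zero hm.symm

theorem EvV.mul {b c : L} (h : EvV v b) (h' : EvV v c) : EvV v (b * c) := by
  obtain ⟨m, hm⟩ := h
  obtain ⟨n, hn⟩ := h'
  exact ⟨m + n, by rw [map_mul, hm, hn, ← exp_add]; congr 1; ring⟩

theorem EvV.mul_odd {b c : L} (h : EvV v b) (h' : OddV v c) : OddV v (b * c) := by
  obtain ⟨m, hm⟩ := h
  obtain ⟨n, hn⟩ := h'
  exact ⟨m + n, by rw [map_mul, hm, hn, ← exp_add]; congr 1; ring⟩

theorem OddV.mul_ev {b c : L} (h : OddV v b) (h' : EvV v c) : OddV v (b * c) := by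
  rw [mul_comm]; exact h'.mul_odd h

theorem OddV.mul {b c : L} (h : OddV v b) (h' : OddV v c) : EvV v (b * c) := by
  obtain ⟨m, hm⟩ := h
  obtain ⟨n, hn⟩ := h'
  exact ⟨m + n + 1, by rw [map_mul, hm, hn, ← exp_add]; congr 1; ring⟩

theorem evV_one : EvV v 1 := ⟨0, by rw [map_one]; simp⟩

theorem evV_of_eq_one {b : L} (h : v b = 1) : EvV v b := ⟨0, by rw [h]; simp⟩

theorem evV_sq {b : L} (hb : b ≠ 0) : EvV v (b ^ 2) := by
  obtain ⟨m, hm⟩ := exists_exp (v := v) hb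
  exact ⟨m, by rw [map_pow, hm, ← exp_nsmul]; simp⟩

theorem EvV.of_mul_left {b c : L} (h : EvV v (b * c)) (hc : EvV v c) : EvV v b := by
  have hb : b ≠ 0 := left_ne_zero_of_mul h.ne
  rcases ev_or_odd (v := v) hb with h1 | h1
  · exact h1
  · exact absurd (h1.mul_ev hc) fun h2 => not_ev_odd h h2

theorem EvV.of_mul_right {b c : L} (h : EvV v (b * c)) (hb : EvV v b) : EvV v c :=
  EvV.of_mul_left (by rwa [mul_comm]) hb

theorem EvV.of_mul_odd {b c : L} (h : EvV v (b * c)) (hc : OddV v c) : OddV v b := by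
  have hb : b ≠ 0 := left_ne_zero_of_mul h.ne
  rcases ev_or_odd (v := v) hb with h1 | h1
  · exact absurd (h1.mul_odd hc) fun h2 => not_ev_odd h h2
  · exact h1

/-- if `c = b z²` then `b` and `c` have the same parity -/
theorem ev_of_mul_sq {b c z : L} (h : c = b * z ^ 2) (hc : c ≠ 0) (hev : EvV v c) : EvV v b := by
  have hz : z ≠ 0 := by
    rintro rfl
    apply hc; rw [h]; ring
  rw [h] at hev
  exact hev.of_mul_left (evV_sq hz)

theorem SqV.val {b g : L} (h : v (b * g ^ 2 - 1) < 1) : v (b * g ^ 2) = 1 := by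
  have h1 : v (1 + (b * g ^ 2 - 1)) = v (1 : L) := v.map_add_eq_of_lt_left (by rwa [map_one])
  rw [map_one] at h1
  rwa [add_sub_cancel] at h1

theorem SqV.ne {b : L} (h : SqV v b) : b ≠ 0 := by
  rintro rfl
  obtain ⟨g, hg⟩ := h
  have := SqV.val hg
  rw [zero_mul, map_zero] at this
  exact zero_ne_one this

theorem SqV.ev {b : L} (h : SqV v b) : EvV v b := by
  have hb := h.ne
  obtain ⟨g, hg⟩ := h
  have h1 := SqV.val hg
  have hg0 : g ≠ 0 := by
    rintro rfl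
    simp at h1
  have h2 : EvV v (b * g ^ 2) := evV_of_eq_one h1
  exact h2.of_mul_left (evV_sq hg0)

theorem one_unit_mul {a b : L} (ha : v (a - 1) < 1) (hb : v (b - 1) < 1) : v (a * b - 1) < 1 := by
  have e : a * b - 1 = (a - 1) * (b - 1) + ((a - 1) + (b - 1)) := by ring
  rw [e]
  refine (v.map_add _ _).trans_lt (max_lt ?_ ((v.map_add _ _).trans_lt (max_lt ha hb)))
  rw [map_mul]
  exact mul_lt_one_of_lt_of_le ha hb.le

theorem SqV.mul {b c : L} (h : SqV v b) (h' : SqV v c) : SqV v (b * c) := by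
  obtain ⟨g, hg⟩ := h
  obtain ⟨g', hg'⟩ := h'
  refine ⟨g * g', ?_⟩
  have := one_unit_mul hg hg'
  have e : b * c * (g * g') ^ 2 - 1 = b * g ^ 2 * (c * g' ^ 2) - 1 := by ring
  rwa [e]

theorem sqV_of_isSquare {b : L} (hb : b ≠ 0) (h : IsSquare b) : SqV v b := by
  obtain ⟨r, hr⟩ := h
  have hr0 : r ≠ 0 := by
    rintro rfl
    apply hb; rw [hr]; ring
  refine ⟨r⁻¹, ?_⟩
  have e : b * r⁻¹ ^ 2 - 1 = 0 := by rw [hr]; field_simp; ring
  rw [e, map_zero]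
  exact zero_lt_one

theorem sqV_of_one_unit {b : L} (h : v (b - 1) < 1) : SqV v b :=
  ⟨1, by rw [one_pow, mul_one]; exact h⟩

theorem SqV.of_mul_right {b c : L} (h : SqV v (b * c)) (hc : SqV v c) : SqV v b := by
  have hc0 := hc.ne
  have h1 := (h.mul hc).mul (sqV_of_isSquare (b := (c⁻¹) ^ 2) (v := v)
    (pow_ne_zero _ (inv_ne_zero hc0)) ⟨c⁻¹, sq _⟩)
  have e : b * c * c * c⁻¹ ^ 2 = b := by field_simp
  rwa [e] at h1

theorem SqV.of_mul_left {b c : L} (h : SqV v (b * c)) (hb : SqV v b) : SqV v c :=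
  SqV.of_mul_right (by rwa [mul_comm]) hb

/-! ### the local conditions -/

theorem HasPoint.exists_x {b₁ b₂ l : L} (hb₁ : b₁ ≠ 0) (hb₂ : b₂ ≠ 0) (h : HasPoint L b₁ b₂ l) :
    (IsSquare b₁ ∧ IsSquare b₂) ∨ ∃ x z₁ z₂ z₃ : L, x = b₁ * z₁ ^ 2 ∧ x + 1 = b₂ * z₂ ^ 2 ∧
      x + l = b₁ * b₂ * z₃ ^ 2 := by
  obtain ⟨z₀, z₁, z₂, z₃, hz, e₁, e₂⟩ := h
  by_cases hz₀ : z₀ = 0
  · left
    subst hz₀
    have hz₁ : z₁ ≠ 0 := by
      rintro rfl
      apply hz
      have h2 : b₂ * z₂ ^ 2 = 0 := by linear_combination e₁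
      have h3 : b₁ * b₂ * z₃ ^ 2 = 0 := by linear_combination e₂
      have h4 := (mul_eq_zero.1 h2).resolve_left hb₂
      have h5 := (mul_eq_zero.1 h3).resolve_left (mul_ne_zero hb₁ hb₂)
      exact ⟨rfl, rfl, pow_eq_zero_iff two_ne_zero |>.1 h4, pow_eq_zero_iff two_ne_zero |>.1 h5⟩
    have f₁ : b₂ * z₂ ^ 2 = b₁ * z₁ ^ 2 := by linear_combination e₁
    have f₂ : b₂ * z₃ ^ 2 = z₁ ^ 2 := by
      apply mul_left_cancel₀ hb₁
      linear_combination e₂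
    have hz₃ : z₃ ≠ 0 := by
      rintro rfl
      apply hz₁
      have : z₁ ^ 2 = 0 := by rw [← f₂]; ring
      exact pow_eq_zero_iff two_ne_zero |>.1 this
    have hb : b₂ = (z₁ / z₃) ^ 2 := by
      field_simp
      exact f₂
    refine ⟨⟨(z₁ / z₃) * (z₂ / z₁), ?_⟩, ⟨z₁ / z₃, by rw [hb]; ring⟩⟩
    have : b₁ = b₂ * z₂ ^ 2 / z₁ ^ 2 := by
      field_simp
      exact f₁.symm
    rw [this, hb]
    field_simp
  · right
    refine ⟨b₁ * (z₁ / z₀) ^ 2, z₁ / z₀, z₂ / z₀, z₃ / z₀, rfl, ?_, ?_⟩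
    · field_simp
      linear_combination -e₁
    · field_simp
      linear_combination -e₂

theorem loc_good {b₁ b₂ l : L} (hb₁ : b₁ ≠ 0) (hb₂ : b₂ ≠ 0) (h : HasPoint L b₁ b₂ l)
    (h0 : v l = 1) (h1 : v (l - 1) = 1) : EvV v b₁ ∧ EvV v b₂ := by
  rcases h.exists_x hb₁ hb₂ with ⟨h2, h3⟩ | ⟨x, z₁, z₂, z₃, e₁, e₂, e₃⟩
  · exact ⟨(sqV_of_isSquare hb₁ h2).ev, (sqV_of_isSquare hb₂ h3).ev⟩
  have parity : ∀ {b c z : L}, b ≠ 0 → c = b * z ^ 2 → c ≠ 0 → (EvV v b ↔ EvV v c) := by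
    intro b c z hb he hc
    constructor
    · intro hev
      rw [he]
      refine hev.mul (evV_sq ?_)
      rintro rfl
      apply hc; rw [he]; ring
    · exact ev_of_mul_sq he hc
  have hb₁₂ := mul_ne_zero hb₁ hb₂
  rcases lt_trichotomy (v x) 1 with hx | hx | hx
  · -- `x` small
    have h2 : v (x + 1) = 1 := by
      rw [add_comm, v.map_add_eq_of_lt_left (by rwa [map_one]), map_one]
    have h3 : v (x + l) = 1 := by
      rw [add_comm, v.map_add_eq_of_lt_left (by rwa [h0]), h0]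
    have n2 : x + 1 ≠ 0 := by rintro h; rw [h, map_zero] at h2; exact zero_ne_one h2
    have n3 : x + l ≠ 0 := by rintro h; rw [h, map_zero] at h3; exact zero_ne_one h3
    have k2 : EvV v b₂ := (parity hb₂ e₂ n2).2 (evV_of_eq_one h2)
    have k3 : EvV v (b₁ * b₂) := (parity hb₁₂ e₃ n3).2 (evV_of_eq_one h3)
    exact ⟨k3.of_mul_left k2, k2⟩
  · have n1 : x ≠ 0 := by rintro rfl; rw [map_zero] at hx; exact zero_ne_one hx
    have k1 : EvV v b₁ := (parity hb₁ e₁ n1).2 (evV_of_eq_one hx)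
    refine ⟨k1, ?_⟩
    have hle : v (x + 1) ≤ 1 := (v.map_add _ _).trans (max_le hx.le (by rw [map_one]))
    rcases hle.lt_or_eq with h2 | h2
    · have h3 : v (x + l) = 1 := by
        have : x + l = (l - 1) + (x + 1) := by ring
        rw [this, v.map_add_eq_of_lt_left (by rwa [h1]), h1]
      have n3 : x + l ≠ 0 := by rintro h; rw [h, map_zero] at h3; exact zero_ne_one h3
      have k3 : EvV v (b₁ * b₂) := (parity hb₁₂ e₃ n3).2 (evV_of_eq_one h3)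
      exact k3.of_mul_right k1
    · have n2 : x + 1 ≠ 0 := by rintro h; rw [h, map_zero] at h2; exact zero_ne_one h2
      exact (parity hb₂ e₂ n2).2 (evV_of_eq_one h2)
  · -- `x` large
    have h2 : v (x + 1) = v x := v.map_add_eq_of_lt_left (by rwa [map_one])
    have h3 : v (x + l) = v x := v.map_add_eq_of_lt_left (by rwa [h0])
    have n1 : x ≠ 0 := by rintro rfl; rw [map_zero] at hx; exact not_lt_zero hx
    have n2 : x + 1 ≠ 0 := by
      rintro h; rw [h, map_zero] at h2; rw [← h2] at hx; exact not_lt_zero hx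
    have n3 : x + l ≠ 0 := by
      rintro h; rw [h, map_zero] at h3; rw [← h3] at hx; exact not_lt_zero hx
    have trans : ∀ {a c : L}, v a = v c → EvV v a → EvV v c := by
      rintro a c hac ⟨m, hm⟩
      exact ⟨m, by rw [← hac, hm]⟩
    rcases ev_or_odd (v := v) n1 with k | k
    · exact ⟨(parity hb₁ e₁ n1).2 k, (parity hb₂ e₂ n2).2 (trans h2.symm k)⟩
    · exfalso
      -- all three have odd valuation, but the product of the classes is a square
      have oddt : ∀ {a c : L}, v a = v c → OddV v a → OddV v c := by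
        rintro a c hac ⟨m, hm⟩
        exact ⟨m, by rw [← hac, hm]⟩
      have o1 : OddV v b₁ := (ev_or_odd (v := v) hb₁).resolve_left fun h =>
        not_ev_odd ((parity hb₁ e₁ n1).1 h) k
      have o2 : OddV v b₂ := (ev_or_odd (v := v) hb₂).resolve_left fun h =>
        not_ev_odd ((parity hb₂ e₂ n2).1 h) (oddt h2.symm k)
      have o3 : OddV v (b₁ * b₂) := (ev_or_odd (v := v) hb₁₂).resolve_left fun h =>
        not_ev_odd ((parity hb₁₂ e₃ n3).1 h) (oddt h3.symm k)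
      exact not_ev_odd (o1.mul o2) o3

theorem quot_aux {b c x y z w : L} (h1 : x = b * z ^ 2) (h2 : y = b * c * w ^ 2) (hb : b ≠ 0)
    (hx : x ≠ 0) : c * (w / z) ^ 2 - 1 = (y - x) / x := by
  have hz : z ≠ 0 := by
    rintro rfl
    apply hx; rw [h1]; ring
  rw [h1, h2]
  field_simp

theorem div_lt_one_of_lt {a b : L} (hb : b ≠ 0) (h : v a < v b) : v (a / b) < 1 := by
  rw [map_div₀]
  exact (div_lt_one₀ (zero_lt_iff.2 ((Valuation.ne_zero_iff v).2 hb))).2 h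

theorem loc_zero {b₁ b₂ l : L} (hb₁ : b₁ ≠ 0) (hb₂ : b₂ ≠ 0) (h : HasPoint L b₁ b₂ l)
    (h0 : v l < 1) : SqV v b₂ := by
  rcases h.exists_x hb₁ hb₂ with ⟨h2, h3⟩ | ⟨x, z₁, z₂, z₃, e₁, e₂, e₃⟩
  · exact sqV_of_isSquare hb₂ h3
  by_cases hx : v l < v x
  · have n1 : x ≠ 0 := by rintro rfl; rw [map_zero] at hx; exact not_lt_zero hx
    refine ⟨z₃ / z₁, ?_⟩
    rw [quot_aux e₁ e₃ hb₁ n1]
    exact div_lt_one_of_lt n1 (by rwa [add_sub_cancel_left])
  · refine ⟨z₂, ?_⟩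
    rw [← e₂, add_sub_cancel_right]
    exact (not_lt.1 hx).trans_lt h0

theorem loc_one {b₁ b₂ l i : L} (hi : i ^ 2 = -1) (hb₁ : b₁ ≠ 0) (hb₂ : b₂ ≠ 0)
    (h : HasPoint L b₁ b₂ l) (h1 : v (l - 1) < 1) : SqV v b₁ := by
  rcases h.exists_x hb₁ hb₂ with ⟨h2, h3⟩ | ⟨x, z₁, z₂, z₃, e₁, e₂, e₃⟩
  · exact sqV_of_isSquare hb₁ h2
  by_cases hx : v (l - 1) < v (x + 1)
  · have n1 : x + 1 ≠ 0 := by intro h; rw [h, map_zero] at hx; exact not_lt_zero hx
    refine ⟨z₃ / z₂, ?_⟩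
    have e₃' : x + l = b₂ * b₁ * z₃ ^ 2 := by rw [e₃]; ring
    rw [quot_aux e₂ e₃' hb₂ n1]
    refine div_lt_one_of_lt n1 ?_
    have : x + l - (x + 1) = l - 1 := by ring
    rwa [this]
  · refine ⟨i * z₁, ?_⟩
    have e : b₁ * (i * z₁) ^ 2 - 1 = -(x + 1) := by
      rw [mul_pow, hi, e₁]; ring
    rw [e, Valuation.map_neg]
    exact (not_lt.1 hx).trans_lt h1

theorem loc_inf {b₁ b₂ l r : L} (hr : l = r ^ 2) (hb₁ : b₁ ≠ 0) (hb₂ : b₂ ≠ 0)
    (h : HasPoint L b₁ b₂ l) (h1 : 1 < v l) : SqV v (b₁ * b₂) := by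
  rcases h.exists_x hb₁ hb₂ with ⟨h2, h3⟩ | ⟨x, z₁, z₂, z₃, e₁, e₂, e₃⟩
  · exact sqV_of_isSquare (mul_ne_zero hb₁ hb₂) (h2.mul h3)
  have hr0 : r ≠ 0 := by
    rintro rfl
    rw [hr] at h1
    simp at h1
  by_cases hx : v x < v l
  · refine ⟨z₃ / r, ?_⟩
    have e : b₁ * b₂ * (z₃ / r) ^ 2 - 1 = x / l := by
      have hl : l ≠ 0 := by rw [hr]; exact pow_ne_zero _ hr0
      have : b₁ * b₂ * (z₃ / r) ^ 2 = (x + l) / l := by
        rw [e₃, div_pow, ← hr]; ring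
      rw [this]
      field_simp
      ring
    rw [e]
    exact div_lt_one_of_lt (by rw [hr]; exact pow_ne_zero _ hr0) hx
  · have hx1 : 1 < v x := h1.trans_le (not_lt.1 hx)
    have n1 : x ≠ 0 := by rintro rfl; rw [map_zero] at hx1; exact not_lt_zero hx1
    have hz : z₁ ≠ 0 := by
      rintro rfl
      apply n1; rw [e₁]; ring
    refine ⟨z₂ / (b₁ * z₁), ?_⟩
    have e : b₁ * b₂ * (z₂ / (b₁ * z₁)) ^ 2 - 1 = 1 / x := by
      have : b₁ * b₂ * (z₂ / (b₁ * z₁)) ^ 2 = (x + 1) / x := by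
        rw [e₂]; nth_rw 1 [e₁]; field_simp
      rw [this]
      field_simp
      ring
    rw [e]
    exact div_lt_one_of_lt n1 (by rwa [map_one])

end

end OddCov
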