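import Pool.Agent.Helper9.BSD.Index

/-!
# The rank from the index of `2 G` and the 2-torsion
-/

namespace OddCov

theorem dbl_prod (A B : Type*) [AddCommGroup A] [AddCommGroup B] :
    dbl (A × B) = (dbl A).prod (dbl B) := by
  ext ⟨a, b⟩
  rw [mem_dbl, AddSubgroup.mem_prod, mem_dbl, mem_dbl]
  constructor
  · rintro ⟨⟨x, y⟩, h⟩
    rw [Prod.mk_add_mk, Prod.mk.injEq] at h
    exact ⟨⟨x, h.1⟩, ⟨y, h.2⟩⟩
  · rintro ⟨⟨x, hx⟩, ⟨y, hy⟩⟩
    exact ⟨(x, y), by rw [Prod.mk_add_mk]; exact Prod.ext hx hy⟩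

theorem index_dbl_equiv {A B : Type*} [AddCommGroup A] [AddCommGroup B] (e : A ≃+ B) :
    (dbl A).index = (dbl B).index := by
  have h := AddSubgroup.index_map_equiv (dbl A) e
  rw [← h]
  congr 1
  ext b
  rw [AddSubgroup.mem_map, mem_dbl]
  constructor
  · rintro ⟨a, ha, rfl⟩
    obtain ⟨T, rfl⟩ := mem_dbl.1 ha
    exact ⟨e T, map_add e T T⟩
  · rintro ⟨T, rfl⟩
    refine ⟨e.symm T + e.symm T, mem_dbl.2 ⟨_, rfl⟩, ?_⟩
    simp

/-- the number of 2-torsion points -/
noncomputable def tors2 (G : Type*) [AddCommGroup G] : ℕ := Nat.card {x : G // x + x = 0}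

theorem tors2_equiv {A B : Type*} [AddCommGroup A] [AddCommGroup B] (e : A ≃+ B) :
    tors2 A = tors2 B := by
  unfold tors2
  refine Nat.card_congr (e.toEquiv.subtypeEquiv fun a => ?_)
  constructor
  · intro h
    change e a + e a = 0
    rw [← map_add, h, map_zero]
  · intro h
    have h' : e a + e a = 0 := h
    rw [← map_add] at h'
    exact (AddEquiv.map_eq_zero_iff e).1 h'

theorem index_finite (B : Type*) [AddCommGroup B] [Finite B] : (dbl B).index = tors2 B := by
  rw [AddSubgroup.index_range]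
  unfold tors2
  refine Nat.card_congr (Equiv.subtypeEquivRight fun x => ?_)
  rw [AddMonoidHom.mem_ker, nsmulAddMonoidHom_apply, two_nsmul]

theorem finrank_finite (B : Type*) [AddCommGroup B] [Finite B] : Module.finrank ℤ B = 0 := by
  rw [Module.finrank_eq_zero_iff]
  intro x
  refine ⟨Nat.card B, by exact_mod_cast Nat.card_pos.ne', ?_⟩
  rw [natCast_zsmul]
  exact card_nsmul_eq_zero'

theorem finrank_prod_finite (A B : Type*) [AddCommGroup A] [AddCommGroup B] [Finite B]
    [Module.Finite ℤ A] : Module.finrank ℤ (A × B) = Module.finrank ℤ A := by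
  have : Module.Finite ℤ B := Module.Finite.of_finite
  have h := Submodule.finrank_quotient_add_finrank (LinearMap.ker (LinearMap.fst ℤ A B))
  have : Finite (LinearMap.ker (LinearMap.fst ℤ A B)) := by
    refine Finite.of_injective (fun x : LinearMap.ker (LinearMap.fst ℤ A B) => x.1.2) ?_
    rintro ⟨⟨a, b⟩, h⟩ ⟨⟨a', b'⟩, h'⟩ hb
    have h1 : a = 0 := h
    have h2 : a' = 0 := h'
    subst h1 h2
    have h3 : b = b' := hb
    rw [h3]
  rw [finrank_finite (LinearMap.ker (LinearMap.fst ℤ A B)), add_zero] at h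
  rw [← h]
  exact ((LinearMap.fst ℤ A B).quotKerEquivOfSurjective LinearMap.fst_surjective).finrank_eq

/-- the rank formula -/
theorem rank_formula (G : Type*) [AddCommGroup G] [AddGroup.FG G] :
    (dbl G).index = 2 ^ Module.finrank ℤ G * tors2 G := by
  obtain ⟨n, ι, _, p, hp, e, ⟨φ⟩⟩ := AddCommGroup.equiv_free_prod_directSum_zmod (G := G)
  have hfin : Finite (DirectSum ι fun i => ZMod (p i ^ e i)) := by
    have : ∀ i, NeZero (p i ^ e i) := fun i => ⟨pow_ne_zero _ (hp i).ne_zero⟩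
    exact Finite.of_equiv _ (DirectSum.addEquivProd (fun i => ZMod (p i ^ e i))).symm.toEquiv
  rw [index_dbl_equiv φ, tors2_equiv φ, φ.toIntLinearEquiv.finrank_eq, finrank_prod_finite,
    dbl_prod, AddSubgroup.index_prod, AddSubgroup.index_range_nsmul, index_finite]
  congr 1
  unfold tors2
  refine Nat.card_congr ⟨fun x => ⟨(0, x.1), ?_⟩, fun x => ⟨x.1.2, ?_⟩, fun x => rfl, fun x => ?_⟩
  · rw [Prod.mk_add_mk, x.2, add_zero]; rfl
  · have := congrArg Prod.snd x.2
    exact this
  · obtain ⟨⟨a, b⟩, hx⟩ := x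
    have h1 : a + a = 0 := congrArg Prod.fst hx
    have h2 : a = 0 := by
      ext i
      have := DFunLike.congr_fun h1 i
      rw [Finsupp.add_apply, Finsupp.zero_apply] at this
      rw [Finsupp.zero_apply]
      omega
    subst h2
    rfl

theorem rank_eq {G : Type*} [AddCommGroup G] [AddGroup.FG G] {n : ℕ}
    (h1 : Nat.card (G ⧸ dbl G) = 2 ^ (n + 2)) (h2 : Nat.card {x : G // x + x = 0} = 4) :
    Module.finrank ℤ G = n := by
  have h3 := rank_formula G
  have h4 : (dbl G).index = 2 ^ (n + 2) := h1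
  unfold tors2 at h3
  rw [h4, h2, show (4 : ℕ) = 2 ^ 2 by norm_num, ← pow_add] at h3
  have := Nat.pow_right_injective le_rfl h3
  omega

end OddCov
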