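import Pool.Agent.Helper9.BSD.HeightId
import Pool.Agent.Helper9.BSD.Rank

/-!
# The Mordell-Weil theorem over `F(t)` for `y² = x (x + 1) (x + l)`
-/

namespace OddCov

open Polynomial

variable {F : Type*} [Field F]

theorem quad_map {R S : Type*} [CommRing R] [CommRing S] (f : R →+* S) (A B : R) (j : Fin 3)
    (z : Fin 3 → R) : f (quad (phi A B j) z) = quad (phi (f A) (f B) j) (fun i => f (z i)) := by
  fin_cases j <;> simp [quad, phi, map_ofNat]

theorem quad_smul {R : Type*} [CommRing R] (A B c : R) (j : Fin 3) (z : Fin 3 → R) :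
    quad (phi A B j) (fun i => c * z i) = c ^ 2 * quad (phi A B j) z := by
  unfold quad; ring

theorem quad_scale {R : Type*} [CommRing R] (l B : R) (j : Fin 3) (z : Fin 3 → R) :
    quad (phi (l * B) B j) z = B ^ 2 * quad (phi l 1 j) z := by
  fin_cases j
  · simp [quad, phi]; ring
  · simp [quad, phi]; ring
  · simp [quad, phi]; ring

theorem mem_of_prim {z : Fin 3 → F[X]} (hz : Prim z) {r : RatFunc F}
    (h : ∀ j, ∃ w : F[X], r * algebraMap F[X] (RatFunc F) (z j) = algebraMap F[X] (RatFunc F) w) :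
    ∃ g : F[X], algebraMap F[X] (RatFunc F) g = r := by
  have h3 : (1 : F[X]) ∈ Ideal.span (Set.range z) := by
    rw [hz]; trivial
  have h4 : ∀ x ∈ Ideal.span (Set.range z), ∃ w : F[X],
      algebraMap F[X] (RatFunc F) w = r * algebraMap F[X] (RatFunc F) x := by
    intro x hx
    induction hx using Submodule.span_induction with
    | mem x hx =>
      obtain ⟨i, rfl⟩ := hx
      obtain ⟨w, hw⟩ := h i
      exact ⟨w, hw.symm⟩
    | zero => exact ⟨0, by simp⟩
    | add x y _ _ hx hy =>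
      obtain ⟨w, hw⟩ := hx
      obtain ⟨w', hw'⟩ := hy
      exact ⟨w + w', by rw [map_add, hw, hw', map_add]; ring⟩
    | smul a x _ hx =>
      obtain ⟨w, hw⟩ := hx
      exact ⟨a * w, by rw [map_mul, hw, smul_eq_mul, map_mul]; ring⟩
  obtain ⟨g, hg⟩ := h4 1 h3
  exact ⟨g, by rw [hg, map_one, mul_one]⟩

open Classical in
/-- coprime representatives of the x-coordinate -/
noncomputable def pp {l : RatFunc F} (P : E l) : Fin 2 → F[X] :=
  if P = 0 then ![1, 0] else ![(xc P).num, (xc P).denom]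

theorem pp_coprime {l : RatFunc F} (P : E l) : IsCoprime (pp P 0) (pp P 1) := by
  unfold pp
  split_ifs with h
  · exact isCoprime_one_left
  · exact RatFunc.isCoprime_num_denom _

theorem pp_rep {l : RatFunc F} (P : E l) : ∃ δ : RatFunc F, δ ≠ 0 ∧ ∀ i,
    algebraMap F[X] (RatFunc F) (pp P i) = δ * rep P i := by
  by_cases hP : P = 0
  · refine ⟨1, one_ne_zero, fun i => ?_⟩
    unfold pp
    rw [if_pos hP, hP, rep_zero]
    fin_cases i <;> simp
  · refine ⟨algebraMap F[X] (RatFunc F) (xc P).denom, by simpa using (xc P).denom_ne_zero,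
      fun i => ?_⟩
    have hD : algebraMap F[X] (RatFunc F) (xc P).denom ≠ 0 := by
      simpa using (xc P).denom_ne_zero
    unfold pp
    rw [if_neg hP, rep_ne hP]
    fin_cases i
    · have := (xc P).num_div_denom
      rw [div_eq_iff hD] at this
      simp [this, mul_comm]
    · simp

/-- the naive height -/
noncomputable def ht {l : RatFunc F} (P : E l) : ℕ := size (pp P)

variable [DecidableEq (RatFunc F)]

theorem exists_g [NeZero (2 : RatFunc F)] {l : RatFunc F} (h0 : l ≠ 0) (h1 : l ≠ 1) (P Q : E l) :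
    ∃ g : F[X], g ≠ 0 ∧ ∀ j, quad (phi l.num l.denom j) (sym (pp P) (pp Q)) =
      g * sym (pp (P + Q)) (pp (P - Q)) j := by
  obtain ⟨ν, hν, hphi⟩ := phi_add h0 h1 P Q
  obtain ⟨δP, hδP, eP⟩ := pp_rep P
  obtain ⟨δQ, hδQ, eQ⟩ := pp_rep Q
  obtain ⟨δS, hδS, eS⟩ := pp_rep (P + Q)
  obtain ⟨δD, hδD, eD⟩ := pp_rep (P - Q)
  set φ := algebraMap F[X] (RatFunc F) with hφ
  have hB : φ l.denom ≠ 0 := by simpa [hφ] using l.denom_ne_zero
  have hA : φ l.num = l * φ l.denom := by
    have := l.num_div_denom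
    rwa [div_eq_iff hB] at this
  have esym : ∀ (p q : Fin 2 → F[X]) (p' q' : Fin 2 → RatFunc F) (a b : RatFunc F),
      (∀ i, φ (p i) = a * p' i) → (∀ i, φ (q i) = b * q' i) →
      ∀ i, φ (sym p q i) = a * b * sym p' q' i := by
    intro p q p' q' a b hp hq i
    fin_cases i
    · simp [sym, hp, hq]; ring
    · simp [sym, hp, hq]; ring
    · simp [sym, hp, hq]; ring
  have e1 := esym _ _ _ _ _ _ eP eQ
  have e2 := esym _ _ _ _ _ _ eS eD
  set r : RatFunc F := φ l.denom ^ 2 * (δP * δQ) ^ 2 * ν / (δS * δD) with hr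
  have hr0 : r ≠ 0 := by
    rw [hr]
    exact div_ne_zero (mul_ne_zero (mul_ne_zero (pow_ne_zero _ hB)
      (pow_ne_zero _ (mul_ne_zero hδP hδQ))) hν) (mul_ne_zero hδS hδD)
  have key : ∀ j, φ (quad (phi l.num l.denom j) (sym (pp P) (pp Q))) =
      r * φ (sym (pp (P + Q)) (pp (P - Q)) j) := by
    intro j
    rw [quad_map, e2, hA, quad_scale]
    have : (fun i => φ (sym (pp P) (pp Q) i)) =
        fun i => δP * δQ * sym (rep P) (rep Q) i := funext e1
    rw [this, quad_smul, hphi, hr]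
    field_simp
  obtain ⟨g, hg⟩ := mem_of_prim (prim_sym (pp_coprime (P + Q)) (pp_coprime (P - Q)))
    (fun j => ⟨_, (key j).symm⟩)
  refine ⟨g, ?_, fun j => ?_⟩
  · rintro rfl
    apply hr0
    rw [← hg, map_zero]
  · apply RatFunc.algebraMap_injective F
    rw [map_mul, ← hφ, hg]
    exact key j

/-- the approximate parallelogram law -/
theorem parallelogram [NeZero (2 : RatFunc F)] {l : RatFunc F} (h0 : l ≠ 0) (h1 : l ≠ 1) :
    ∃ C : ℕ, ∀ P Q : E l, ht (P + Q) + ht (P - Q) ≤ 2 * (ht P + ht Q) + C ∧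
      2 * (ht P + ht Q) ≤ ht (P + Q) + ht (P - Q) + C := by
  have hB : l.denom ≠ 0 := l.denom_ne_zero
  have hA : l.num ≠ 0 := RatFunc.num_ne_zero h0
  have hAB : l.num - l.denom ≠ 0 := by
    intro h
    apply h1
    have h2 := l.num_div_denom
    rw [sub_eq_zero.1 h, div_self (by simpa using hB)] at h2
    exact h2.symm
  have h2 : (2 : F[X]) ≠ 0 := by
    intro h
    apply NeZero.ne (2 : RatFunc F)
    have := congrArg (algebraMap F[X] (RatFunc F)) h
    rwa [map_zero, map_ofNat] at this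
  have h16 : (16 : F[X]) ≠ 0 := by
    have : (16 : F[X]) = 2 ^ 4 := by norm_num
    rw [this]
    exact pow_ne_zero _ h2
  obtain ⟨C, hC⟩ := morph_bound (phi l.num l.denom) (coe l.num l.denom)
    (R := 16 * l.num ^ 2 * (l.num - l.denom) ^ 2 * l.denom ^ 3)
    (mul_ne_zero (mul_ne_zero (mul_ne_zero h16 (pow_ne_zero _ hA)) (pow_ne_zero _ hAB))
      (pow_ne_zero _ hB)) (phi_id l.num l.denom)
  refine ⟨C, fun P Q => ?_⟩
  obtain ⟨g, hg0, hg⟩ := exists_g h0 h1 P Q
  have := hC _ _ g (prim_sym (pp_coprime P) (pp_coprime Q)) hg0 hg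
  rwa [size_sym (pp_coprime P) (pp_coprime Q),
    size_sym (pp_coprime (P + Q)) (pp_coprime (P - Q))] at this

omit [DecidableEq (RatFunc F)] in
theorem finite_natDegree_le [Finite F] (n : ℕ) : {p : F[X] | p.natDegree ≤ n}.Finite := by
  have : Set.InjOn (fun (p : F[X]) (i : Fin (n + 1)) => p.coeff i) {p : F[X] | p.natDegree ≤ n} := by
    intro p hp q hq h
    ext i
    by_cases hi : i < n + 1
    · exact congrFun h ⟨i, hi⟩
    · rw [coeff_eq_zero_of_natDegree_lt (lt_of_le_of_lt hp (by omega)),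
        coeff_eq_zero_of_natDegree_lt (lt_of_le_of_lt hq (by omega))]
  exact Set.Finite.of_finite_image (Set.toFinite _) this

omit [DecidableEq (RatFunc F)] in
theorem finite_ht [Finite F] {l : RatFunc F} (n : ℕ) : {P : E l | ht P ≤ n}.Finite := by
  classical
  -- the possible x-coordinates
  have hX : {x : RatFunc F | x.num.natDegree ≤ n ∧ x.denom.natDegree ≤ n}.Finite := by
    have h1 := (finite_natDegree_le (F := F) n).prod (finite_natDegree_le (F := F) n)
    refine Set.Finite.subset (h1.image fun q =>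
      algebraMap F[X] (RatFunc F) q.1 / algebraMap F[X] (RatFunc F) q.2) ?_
    intro x hx
    exact ⟨(x.num, x.denom), ⟨hx.1, hx.2⟩, x.num_div_denom⟩
  have hfib : ∀ x : RatFunc F, {P : E l | P ≠ 0 ∧ xc P = x}.Finite := by
    intro x
    rcases Set.eq_empty_or_nonempty {P : E l | P ≠ 0 ∧ xc P = x} with h | ⟨P, hP, hx⟩
    · rw [h]; exact Set.finite_empty
    · refine Set.Finite.subset (Set.toFinite {P, -P}) ?_
      rintro Q ⟨hQ, hQx⟩
      exact (xc_eq_iff hQ hP).1 (by rw [hQx, hx])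
  refine Set.Finite.subset ((Set.finite_singleton (0 : E l)).union (hX.biUnion fun x _ => hfib x)) ?_
  intro P hP
  by_cases h0 : P = 0
  · exact Or.inl h0
  · right
    have h1 : size ![(xc P).num, (xc P).denom] ≤ n := by
      have : ht P ≤ n := hP
      unfold ht pp at this
      rwa [if_neg h0] at this
    refine Set.mem_biUnion (x := xc P) ⟨?_, ?_⟩ ⟨h0, rfl⟩
    · exact (le_size ![(xc P).num, (xc P).denom] 0).trans h1
    · exact (le_size ![(xc P).num, (xc P).denom] 1).trans h1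

/-- **Mordell-Weil**: `E(F(t))` is finitely generated once `E / 2 E` is finite -/
theorem fg_of_index [Finite F] [NeZero (2 : RatFunc F)] {l : RatFunc F} (h0 : l ≠ 0) (h1 : l ≠ 1)
    (hfin : (dbl (E l)).FiniteIndex) : AddGroup.FG (E l) := by
  obtain ⟨C, hC⟩ := parallelogram h0 h1
  have : Northcott (fun P : E l => (ht P : ℝ)) := by
    refine ⟨fun b => ?_⟩
    refine Set.Finite.subset (finite_ht (l := l) ⌊b⌋₊) ?_
    intro P hP
    exact Nat.le_floor hP
  refine AddCommGroup.fg_of_descent' (h := fun P : E l => (ht P : ℝ)) (C := C) hfin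
    (fun P => Nat.cast_nonneg _) (fun P Q => ?_)
  obtain ⟨h2, h3⟩ := hC P Q
  have h2' : (ht (P + Q) : ℝ) + ht (P - Q) ≤ 2 * (ht P + ht Q) + C := by exact_mod_cast h2
  have h3' : 2 * ((ht P : ℝ) + ht Q) ≤ ht (P + Q) + ht (P - Q) + C := by exact_mod_cast h3
  rw [abs_le]
  constructor <;> linarith

end OddCov
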