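import Pool.Agent.Helper9.BSD.MW

/-!
# The family `y² = x (x + 1) (x + u ^ (Q + 1))`
-/

namespace OddCov

open Polynomial

variable {F : Type*} [Field F]

section finite

variable [Fintype F] {Q : ℕ}

theorem arith {Q q : ℕ} (hQ : Odd Q) (hQ1 : 1 < Q) (hdiv : Q ^ 2 - 1 ∣ q - 1) (hq : 0 < q) :
    q % 4 = 1 ∧ (Q + 1) ∣ q / 2 ∧ (Q + 1) ∣ q - 1 := by
  obtain ⟨k, rfl⟩ := hQ
  have h1 : (2 * k + 1) ^ 2 - 1 = 4 * k * (k + 1) := by
    have : (2 * k + 1) ^ 2 = 4 * k * (k + 1) + 1 := by ring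
    omega
  rw [h1] at hdiv
  obtain ⟨m, hm⟩ := hdiv
  have hq' : q = 4 * k * (k + 1) * m + 1 := by omega
  have h2 : q = 4 * (k * (k + 1) * m) + 1 := by rw [hq']; ring
  refine ⟨by omega, ?_, ?_⟩
  · refine ⟨k * m, ?_⟩
    have : (2 * k + 1 + 1) * (k * m) = 2 * (k * (k + 1) * m) := by ring
    omega
  · refine ⟨2 * k * m, ?_⟩
    have : (2 * k + 1 + 1) * (2 * k * m) = 4 * (k * (k + 1) * m) := by ring
    omega

theorem exists_primitive {n : ℕ} (h : n ∣ Fintype.card F - 1) :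
    ∃ ζ : F, IsPrimitiveRoot ζ n := by
  classical
  have h1 : Nat.card Fˣ = Fintype.card F - 1 := by
    rw [Nat.card_eq_fintype_card, Fintype.card_units]
  obtain ⟨g, hg⟩ := IsCyclic.exists_generator (α := Fˣ)
  have ho : orderOf g = Fintype.card F - 1 := by
    rw [orderOf_eq_card_of_forall_mem_zpowers hg, h1]
  obtain ⟨m, hm⟩ := h
  have hpos : 0 < Fintype.card F - 1 := by
    rw [← h1]; exact Nat.card_pos
  refine ⟨((g ^ m : Fˣ) : F), ?_⟩
  rw [IsPrimitiveRoot.coe_units_iff]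
  have h2 : IsPrimitiveRoot g (Fintype.card F - 1) := by
    rw [← ho]; exact IsPrimitiveRoot.orderOf g
  exact h2.pow hpos (by rw [hm, mul_comm])

variable [DecidableEq (RatFunc F)]

omit [Fintype F] [DecidableEq (RatFunc F)] in
theorem ratFunc_prod {n : ℕ} (hn : 0 < n) {ζ : F} (h : IsPrimitiveRoot ζ n) (x : RatFunc F) :
    x ^ n - 1 = ∏ s ∈ nthRootsFinset n (1 : F), (x - RatFunc.C s) := by
  have h1 := congrArg (aeval x) (X_pow_sub_one_eq_prod hn h)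
  rw [map_prod, map_sub, map_pow, aeval_X, map_one] at h1
  rw [h1]
  refine Finset.prod_congr rfl fun s _ => ?_
  rw [map_sub, aeval_X, aeval_C]
  rfl

omit [Fintype F] [DecidableEq (RatFunc F)] in
theorem two_ne_of_odd_char {p : ℕ} [Fact p.Prime] [CharP F p] (hp : p ≠ 2) : (2 : F) ≠ 0 := by
  have h1 : ((2 : ℕ) : F) ≠ 0 := by
    rw [Ne, CharP.cast_eq_zero_iff F p]
    intro h
    exact hp ((Nat.prime_dvd_prime_iff_eq (Fact.out : p.Prime) Nat.prime_two).1 h)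
  exact_mod_cast h1

omit [DecidableEq (RatFunc F)] in
theorem exists_i (h : Fintype.card F % 4 = 1) : ∃ i : F, i ^ 2 = -1 := by
  have h1 : IsSquare (-1 : F) := FiniteField.isSquare_neg_one_iff.2 (by omega)
  obtain ⟨i, hi⟩ := h1
  exact ⟨i, by rw [hi]; ring⟩

omit [Fintype F] in
theorem OneAbove.ne_zero {u : RatFunc F} {s : F} (hs : s ≠ 0) (h : OneAbove u s) : u ≠ 0 := by
  rintro rfl
  obtain ⟨w, hw, -⟩ := h
  rw [zero_sub, Valuation.map_neg, val_C w hs] at hw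
  exact lt_irrefl _ hw

/-- the setup for the family -/
theorem setup {p f : ℕ} [Fact p.Prime] [CharP F p] (hp : p ≠ 2) (hf : 0 < f)
    (hdiv : (p ^ f) ^ 2 - 1 ∣ Fintype.card F - 1) {u : RatFunc F}
    (hone : ∀ s : F, s ^ (p ^ f + 1) = 1 → OneAbove u s) (hunl : Unlinked (p ^ f + 1) u) :
    Setup u (nthRootsFinset (p ^ f + 1) (1 : F)) (p ^ f + 1) ∧
      Frob F (nthRootsFinset (p ^ f + 1) (1 : F)) (p ^ f) ∧
      (nthRootsFinset (p ^ f + 1) (1 : F)).card = p ^ f + 1 := by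
  have hpp : p.Prime := Fact.out
  have hodd : Odd (p ^ f) := (hpp.odd_of_ne_two hp).pow
  have h1 : 1 < p ^ f := Nat.one_lt_pow hf.ne' hpp.one_lt
  obtain ⟨a1, a2, a3⟩ := arith hodd h1 hdiv Fintype.card_pos
  have hn : 0 < p ^ f + 1 := Nat.succ_pos _
  obtain ⟨ζ, hζ⟩ := exists_primitive (F := F) a3
  have hmem : ∀ s ∈ nthRootsFinset (p ^ f + 1) (1 : F), s ^ (p ^ f + 1) = 1 := fun s hs =>
    (mem_nthRootsFinset hn (1 : F)).1 hs
  have hne : ∀ s ∈ nthRootsFinset (p ^ f + 1) (1 : F), s ≠ 0 := by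
    rintro s hs rfl
    have := hmem 0 hs
    rw [zero_pow hn.ne'] at this
    exact zero_ne_one this
  have h2 : (2 : F) ≠ 0 := two_ne_of_odd_char hp
  have hchar : ringChar F ≠ 2 := by
    rw [ringChar.eq F p]; exact hp
  obtain ⟨i, hi⟩ := exists_i a1
  refine ⟨⟨(hone 1 (one_pow _)).ne_zero one_ne_zero, fun s hs => hone s (hmem s hs), hunl,
    hodd.add_one, hn, ratFunc_prod hn hζ, hne, ?_, ⟨i, hi⟩⟩,
    ⟨?_, hmem, h2⟩, hζ.card_nthRootsFinset⟩
  · intro s hs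
    have h3 : IsSquare (-1 : F) := ⟨i, by rw [← hi]; ring⟩
    have h4 : IsSquare (s⁻¹) := by
      rw [FiniteField.isSquare_iff hchar (inv_ne_zero (hne s hs))]
      obtain ⟨m, hm⟩ := a2
      rw [hm, pow_mul, inv_pow, hmem s hs, inv_one, one_pow]
    have := h3.mul h4
    rwa [neg_one_mul] at this
  · have : CharP (RatFunc F) p :=
      charP_of_injective_algebraMap (algebraMap F (RatFunc F)).injective p
    intro x
    rw [add_pow_char_pow, one_pow]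

/-- **the main theorem on the family** -/
theorem main {p f : ℕ} [Fact p.Prime] [CharP F p] (hp : p ≠ 2) (hf : 0 < f)
    (hdiv : (p ^ f) ^ 2 - 1 ∣ Fintype.card F - 1) {u : RatFunc F}
    (hone : ∀ s : F, s ^ (p ^ f + 1) = 1 → OneAbove u s) (hunl : Unlinked (p ^ f + 1) u) :
    (∀ b₁ b₂ : RatFunc F, b₁ ≠ 0 → b₂ ≠ 0 → LocSol b₁ b₂ (u ^ (p ^ f + 1)) →
      HasPoint (RatFunc F) b₁ b₂ (u ^ (p ^ f + 1))) ∧
    AddGroup.FG (E (u ^ (p ^ f + 1))) ∧
    Module.finrank ℤ (E (u ^ (p ^ f + 1))) = p ^ f - 1 := by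
  obtain ⟨hS, hF, hcard⟩ := setup hp hf hdiv hone hunl
  have h2 : NeZero (2 : RatFunc F) := hF.two_ne
  have hc := card_quot hS hF
  have hfin : (dbl (E (u ^ (p ^ f + 1)))).FiniteIndex := by
    refine ⟨?_⟩
    change Nat.card _ ≠ 0
    rw [hc]
    exact pow_ne_zero _ two_ne_zero
  have hfg := fg_of_index hS.ne_zero' hS.ne_one' hfin
  refine ⟨fun b₁ b₂ hb₁ hb₂ h => hasse hS hF hb₁ hb₂ h, hfg, ?_⟩
  have h1 : 1 ≤ p ^ f := Nat.one_le_pow _ _ (Fact.out : p.Prime).pos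
  refine rank_eq (n := p ^ f - 1) ?_ (card_two_tors hS.ne_zero' hS.ne_one')
  rw [hc, hcard]
  congr 1
  omega

end finite

end OddCov
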