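import Pool.Agent.Helper9.BSD.Local

/-!
# The places of `F(t)` and the local conditions
-/

namespace OddCov

open WithZero Polynomial IsDedekindDomain

theorem dens {K L : Type*} [Field K] [Field L] {Γ : Type*} [LinearOrderedCommGroupWithZero Γ]
    [Valued L Γ] {φ : K → L} (hφ : DenseRange φ) (g : L) (hg : g ≠ 0) :
    ∃ g' : K, Valued.v (φ g' - g) < (Valued.v g : Γ) := by
  have h0 : (Valued.v : Valuation L Γ).restrict g ≠ 0 := by
    rw [Valuation.ne_zero_iff]; exact hg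
  have : {y : L | Valued.v (y - g) < (Valued.v g : Γ)} ∈ nhds g := by
    rw [Valued.mem_nhds]
    refine ⟨Units.mk0 _ h0, fun y hy => ?_⟩
    exact (Valuation.restrict_lt_iff _).1 hy
  obtain ⟨_, hy, ⟨g', rfl⟩⟩ := mem_closure_iff_nhds.1 (hφ g) _ this
  exact ⟨g', hy⟩

section

variable {K L : Type*} [Field K] [Field L] (vK : Valuation K ℤᵐ⁰) [Valued L ℤᵐ⁰]
  {φ : K →+* L}

/-- `L` is a completion of `K` -/
structure IsCompl (φ : K →+* L) : Prop where
  val : ∀ x, Valued.v (φ x) = vK x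
  dense : DenseRange φ

variable {vK}

theorem IsCompl.sqV (h : IsCompl vK φ) {b : K} (hb : SqV (Valued.v : Valuation L ℤᵐ⁰) (φ b)) :
    SqV vK b := by
  obtain ⟨g, hg⟩ := hb
  have h1 := SqV.val hg
  have hg0 : g ≠ 0 := by
    rintro rfl
    simp at h1
  obtain ⟨g', hg'⟩ := dens h.dense g hg0
  refine ⟨g', ?_⟩
  rw [← h.val, map_sub, map_mul, map_pow, map_one]
  have e : φ b * φ g' ^ 2 - 1 = (φ b * g ^ 2 - 1) + φ b * (φ g' - g) * (φ g' - g + 2 * g) := by
    ring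
  rw [e]
  refine (Valuation.map_add _ _ _).trans_lt (max_lt hg ?_)
  have h2 : Valued.v (φ g' - g + 2 * g) ≤ (Valued.v g : ℤᵐ⁰) := by
    refine (Valuation.map_add _ _ _).trans (max_le hg'.le ?_)
    rw [two_mul]
    exact (Valuation.map_add _ _ _).trans (max_le le_rfl le_rfl)
  have hb0 : φ b ≠ 0 := by
    rintro h0
    rw [h0, zero_mul, map_zero] at h1
    exact zero_ne_one h1
  have hvb : 0 < (Valued.v (φ b) : ℤᵐ⁰) := zero_lt_iff.2 ((Valuation.ne_zero_iff _).2 hb0)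
  have hvg : 0 < (Valued.v g : ℤᵐ⁰) := zero_lt_iff.2 ((Valuation.ne_zero_iff _).2 hg0)
  have h3 : (Valued.v (φ b) : ℤᵐ⁰) * Valued.v g * Valued.v g = 1 := by
    rw [← h1, map_mul, map_pow, sq, mul_assoc]
  rw [map_mul, map_mul, ← h3]
  calc (Valued.v (φ b) : ℤᵐ⁰) * Valued.v (φ g' - g) * Valued.v (φ g' - g + 2 * g)
      ≤ Valued.v (φ b) * Valued.v (φ g' - g) * Valued.v g := by gcongr
    _ < Valued.v (φ b) * Valued.v g * Valued.v g := by
        gcongr

theorem IsCompl.evV (h : IsCompl vK φ) {b : K} (hb : EvV (Valued.v : Valuation L ℤᵐ⁰) (φ b)) :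
    EvV vK b := by
  obtain ⟨m, hm⟩ := hb
  exact ⟨m, by rw [← h.val, hm]⟩

variable (vK) in
/-- the local conditions -/
structure LocCond (b₁ b₂ l : K) : Prop where
  good : vK l = 1 → vK (l - 1) = 1 → EvV vK b₁ ∧ EvV vK b₂
  zero : vK l < 1 → SqV vK b₂
  one : ∀ i : K, i ^ 2 = -1 → vK (l - 1) < 1 → SqV vK b₁
  inf : ∀ r : K, l = r ^ 2 → 1 < vK l → SqV vK (b₁ * b₂)

theorem IsCompl.locCond (h : IsCompl vK φ) {b₁ b₂ l : K} (hb₁ : b₁ ≠ 0) (hb₂ : b₂ ≠ 0)
    (hp : HasPoint L (φ b₁) (φ b₂) (φ l)) : LocCond vK b₁ b₂ l where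
  good h0 h1 := by
    have := loc_good (v := Valued.v) ((map_ne_zero φ).2 hb₁) ((map_ne_zero φ).2 hb₂) hp
      (by rw [h.val, h0]) (by rw [← map_one φ, ← map_sub, h.val, h1])
    exact ⟨h.evV this.1, h.evV this.2⟩
  zero h0 := h.sqV (loc_zero (v := Valued.v) ((map_ne_zero φ).2 hb₁) ((map_ne_zero φ).2 hb₂) hp
    (by rw [h.val]; exact h0))
  one i hi h1 := h.sqV (loc_one (v := Valued.v) (i := φ i) (by rw [← map_pow, hi, map_neg, map_one])
    ((map_ne_zero φ).2 hb₁) ((map_ne_zero φ).2 hb₂) hp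
    (by rw [← map_one φ, ← map_sub, h.val]; exact h1))
  inf r hr h1 := h.sqV (by
    rw [map_mul]
    exact loc_inf (v := Valued.v) (r := φ r) (by rw [hr, map_pow])
      ((map_ne_zero φ).2 hb₁) ((map_ne_zero φ).2 hb₂) hp (by rw [h.val]; exact h1))

end

variable {F : Type*} [Field F] [DecidableEq (RatFunc F)]

omit [DecidableEq (RatFunc F)] in
theorem isCompl_adic (v : HeightOneSpectrum F[X]) : IsCompl (v.valuation (RatFunc F))
    (algebraMap (RatFunc F) (v.adicCompletion (RatFunc F))) :=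
  ⟨fun x => v.valuedAdicCompletion_eq_valuation' x, v.denseRange_algebraMap (RatFunc F)⟩

section

attribute [-instance] RatFunc.valuedRatFunc

open RatFunc.CompletionAtInfty

theorem isCompl_infty : IsCompl (RatFunc.inftyValuation F)
    (algebraMap (RatFunc F) (RatFunc.CompletionAtInfty F)) := by
  refine ⟨fun x => ?_, ?_⟩
  · rw [RatFunc.valuedCompletionAtInfty.def]
    let _ : Valued (RatFunc F) ℤᵐ⁰ := RatFunc.inftyValued F
    have e := Valued.extensionValuation_apply_coe (K := RatFunc F) (Γ₀ := ℤᵐ⁰) x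
    exact e
  · exact UniformSpace.Completion.denseRange_coe (α := RatFunc F)

end

theorem LocSol.cond {b₁ b₂ l : RatFunc F} (hb₁ : b₁ ≠ 0) (hb₂ : b₂ ≠ 0) (h : LocSol b₁ b₂ l)
    (w : Place F) : LocCond (plv w) b₁ b₂ l := by
  match w with
  | none => exact isCompl_infty.locCond hb₁ hb₂ h.2
  | some v => exact (isCompl_adic v).locCond hb₁ hb₂ (h.1 v)

end OddCov
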