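import Pool.Agent.Helper9.BSD.Selmer

/-!
# The points and the Hasse principle for the 2-coverings
-/

namespace OddCov

open WithZero Polynomial IsDedekindDomain

variable {F : Type*} [Field F] [DecidableEq (RatFunc F)]

/-- the data used to construct the points, with `d = Q + 1` -/
structure Frob (F : Type*) [Field F] (M : Finset F) (Q : ℕ) : Prop where
  frob : ∀ x : RatFunc F, (1 + x) ^ Q = 1 + x ^ Q
  pow : ∀ s ∈ M, s ^ (Q + 1) = 1
  two : (2 : F) ≠ 0

variable {u : RatFunc F} {M : Finset F} {Q : ℕ}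

omit [DecidableEq (RatFunc F)] in
theorem Frob.two_ne (hF : Frob F M Q) : NeZero (2 : RatFunc F) := by
  refine ⟨?_⟩
  have h : (2 : RatFunc F) = RatFunc.C 2 := by rw [map_ofNat]
  rw [h]
  exact ne_zero_C hF.two

theorem Setup.gs_ne {d : ℕ} (hS : Setup u M d) {s : F} (hs : s ∈ M) : gs u s ≠ 0 := by
  obtain ⟨w, h1, -⟩ := hS.at_fin hs
  rw [gs_eq u (hS.ne_zero s hs)]
  exact mul_ne_zero (ne_zero_C (neg_ne_zero.2 (inv_ne_zero (hS.ne_zero s hs)))) h1.ne

theorem Setup.ne_zero' {d : ℕ} (hS : Setup u M d) : u ^ d ≠ 0 := pow_ne_zero _ hS.u_ne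

theorem Setup.ne_one' {d : ℕ} (hS : Setup u M d) : u ^ d ≠ 1 := by
  intro h
  have h1 := hS.prod u
  rw [h, sub_self] at h1
  obtain ⟨s, hs, h2⟩ := Finset.prod_eq_zero_iff.1 h1.symm
  obtain ⟨w, h3, -⟩ := hS.at_fin hs
  exact h3.ne h2

omit [DecidableEq (RatFunc F)] in
theorem Frob.eq (hF : Frob F M Q) {s : F} (hs : s ∈ M) (heven : Even (Q + 1)) :
    RatFunc.C (-s⁻¹) * u + u ^ (Q + 1) =
      RatFunc.C (-s⁻¹) * u * (RatFunc.C (-s⁻¹) * u + 1) ^ Q := by
  have h1 : (-s⁻¹) ^ (Q + 1) = 1 := by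
    rw [heven.neg_pow, inv_pow, hF.pow s hs, inv_one]
  rw [add_comm (RatFunc.C (-s⁻¹) * u) 1, hF.frob]
  have h2 : (RatFunc.C (-s⁻¹) * u) ^ (Q + 1) = u ^ (Q + 1) := by
    rw [mul_pow, ← map_pow, h1, map_one, one_mul]
  rw [pow_succ] at h2
  linear_combination -h2

/-- the existence of the basic points -/
theorem exists_point (hS : Setup u M (Q + 1)) (hF : Frob F M Q) {s : F} (hs : s ∈ M) :
    ∃ P : E (u ^ (Q + 1)), IsSquare (u * cls 0 P) ∧ cls (-1) P = gs u s := by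
  have : NeZero (2 : RatFunc F) := hF.two_ne
  obtain ⟨k, hk⟩ := hS.even
  have hu0 : u ≠ 0 := hS.u_ne
  set x : RatFunc F := RatFunc.C (-s⁻¹) * u with hx
  have heq : (x * (x + 1) ^ k) ^ 2 = x * (x + 1) * (x + u ^ (Q + 1)) := by
    rw [hF.eq hs hS.even, ← hx]
    have : (x + 1) ^ k * (x + 1) ^ k = (x + 1) ^ Q * (x + 1) := by
      rw [← pow_add, ← hk, pow_succ]
    linear_combination x ^ 2 * this
  have hx0 : x ≠ 0 := mul_ne_zero
    (ne_zero_C (neg_ne_zero.2 (inv_ne_zero (hS.ne_zero s hs)))) hu0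
  have hx1 : x + 1 = gs u s := by
    rw [hx]; unfold gs; rw [map_neg]; ring
  refine ⟨mkP hS.ne_zero' hS.ne_one' x _ heq, ?_, ?_⟩
  · rw [cls_ne (mkP_ne _ _ _ _ _) (by rw [xc_mkP]; exact hx0), xc_mkP, sub_zero]
    obtain ⟨r, hr⟩ := hS.sq s hs
    exact ⟨RatFunc.C r * u, by rw [hx, hr, map_mul]; ring⟩
  · rw [cls_ne (mkP_ne _ _ _ _ _) (by
      rw [xc_mkP]
      intro h
      apply hS.gs_ne hs
      rw [← hx1, h]; ring), xc_mkP, ← hx1]
    ring

/-- the points attached to the subsets of `M` -/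
theorem exists_point_set (hS : Setup u M (Q + 1)) (hF : Frob F M Q) {B : Finset F} (hB : B ⊆ M) :
    ∃ P : E (u ^ (Q + 1)), IsSquare (u ^ B.card * cls 0 P) ∧
      IsSquare ((∏ s ∈ B, gs u s) * cls (-1) P) := by
  classical
  induction B using Finset.induction_on with
  | empty => exact ⟨0, by rw [cls_zero]; exact ⟨1, by simp⟩, by rw [cls_zero]; exact ⟨1, by simp⟩⟩
  | insert s B hsB ih =>
    obtain ⟨P, h1, h2⟩ := ih ((Finset.subset_insert _ _).trans hB)
    obtain ⟨R, h3, h4⟩ := exists_point hS hF (hB (Finset.mem_insert_self _ _))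
    have r0 := root_zero hS.ne_zero'
    have r1 := root_one hS.ne_one'
    refine ⟨P + R, ?_, ?_⟩
    · rw [Finset.card_insert_of_notMem hsB, pow_succ]
      have h5 := (h1.mul h3).mul (r0.cls_add P R)
      obtain ⟨z, hz⟩ := h5
      have n1 := r0.cls_ne_zero P
      have n2 := r0.cls_ne_zero R
      refine ⟨z / (cls 0 P * cls 0 R), ?_⟩
      field_simp
      linear_combination hz
    · rw [Finset.prod_insert hsB]
      have h5 := (h2.mul (r1.cls_add P R))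
      obtain ⟨z, hz⟩ := h5
      have n1 := r1.cls_ne_zero P
      refine ⟨z / cls (-1) P, ?_⟩
      rw [← h4]
      field_simp
      linear_combination hz

/-- **the Hasse principle for the 2-coverings** -/
theorem hasse (hS : Setup u M (Q + 1)) (hF : Frob F M Q) {b₁ b₂ : RatFunc F} (hb₁ : b₁ ≠ 0)
    (hb₂ : b₂ ≠ 0) (h : LocSol b₁ b₂ (u ^ (Q + 1))) :
    HasPoint (RatFunc F) b₁ b₂ (u ^ (Q + 1)) := by
  obtain ⟨B, hBM, h1, h2⟩ := selmer_structure hS hb₁ hb₂ (fun w => h.cond hb₁ hb₂ w)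
  obtain ⟨P, h3, h4⟩ := exists_point_set hS hF hBM
  have hu0 : u ^ B.card ≠ 0 := pow_ne_zero _ hS.u_ne
  have hg0 : ∏ s ∈ B, gs u s ≠ 0 := Finset.prod_ne_zero_iff.2 fun s hs => hS.gs_ne (hBM hs)
  refine hasPoint_of_cls hS.ne_zero' hS.ne_one' hb₁ hb₂ P ?_ ?_
  · obtain ⟨z, hz⟩ := h1.mul h3
    refine ⟨z / u ^ B.card, ?_⟩
    field_simp
    linear_combination hz
  · obtain ⟨z, hz⟩ := h2.mul h4
    refine ⟨z / ∏ s ∈ B, gs u s, ?_⟩
    field_simp
    linear_combination hz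

end OddCov
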