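import Pool.Agent.Helper9.BSD.Places

/-!
# Valuations of rational functions
-/

namespace OddCov

open WithZero Polynomial IsDedekindDomain

variable {F : Type*} [Field F]

/-- the place of an irreducible polynomial -/
noncomputable def vo {π : F[X]} (hπ : Irreducible π) : HeightOneSpectrum F[X] where
  asIdeal := Ideal.span {π}
  isPrime := (Ideal.span_singleton_prime hπ.ne_zero).2 hπ.prime
  ne_bot := by
    rw [Ne, Ideal.span_singleton_eq_bot]
    exact hπ.ne_zero

theorem exists_gen (v : HeightOneSpectrum F[X]) :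
    ∃ π : F[X], Irreducible π ∧ v.asIdeal = Ideal.span {π} := by
  obtain ⟨π, hπ⟩ := (IsPrincipalIdealRing.principal v.asIdeal).principal
  have h0 : π ≠ 0 := by
    rintro rfl
    apply v.ne_bot
    rw [hπ]
    exact Ideal.span_singleton_eq_bot.2 rfl
  refine ⟨π, ?_, hπ⟩
  have h1 := v.isPrime
  rw [hπ] at h1
  exact ((Ideal.span_singleton_prime h0).1 h1).irreducible

theorem val_poly_lt {v : HeightOneSpectrum F[X]} {π : F[X]} (hv : v.asIdeal = Ideal.span {π})
    (p : F[X]) : v.valuation (RatFunc F) (algebraMap F[X] (RatFunc F) p) < 1 ↔ π ∣ p := by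
  rw [v.valuation_of_algebraMap, v.intValuation_lt_one_iff_mem, hv, Ideal.mem_span_singleton]

theorem val_poly_eq {v : HeightOneSpectrum F[X]} {π : F[X]} (hv : v.asIdeal = Ideal.span {π})
    (p : F[X]) : v.valuation (RatFunc F) (algebraMap F[X] (RatFunc F) p) = 1 ↔ ¬ π ∣ p := by
  rw [← val_poly_lt hv, not_lt]
  constructor
  · intro h; exact h.ge
  · intro h
    refine le_antisymm ?_ h
    rw [v.valuation_of_algebraMap]
    exact v.intValuation_le_one p

theorem val_gen {v : HeightOneSpectrum F[X]} {π : F[X]} (hv : v.asIdeal = Ideal.span {π})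
    (h0 : π ≠ 0) : v.valuation (RatFunc F) (algebraMap F[X] (RatFunc F) π) = exp (-1) := by
  rw [v.valuation_of_algebraMap]
  exact v.intValuation_singleton h0 hv

theorem vo_asIdeal {π : F[X]} (hπ : Irreducible π) : (vo hπ).asIdeal = Ideal.span {π} := rfl

/-- a polynomial all of whose valuations are even is a square up to a constant -/
theorem poly_ev (n : ℕ) : ∀ p : F[X], p.natDegree ≤ n → p ≠ 0 →
    (∀ v : HeightOneSpectrum F[X], EvV (v.valuation (RatFunc F))
      (algebraMap F[X] (RatFunc F) p)) → ∃ c : F, c ≠ 0 ∧ ∃ h : F[X], p = C c * h ^ 2 := by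
  induction n with
  | zero =>
    intro p hp hp0 _
    obtain ⟨c, rfl⟩ : ∃ c, p = C c := ⟨_, eq_C_of_natDegree_le_zero hp⟩
    refine ⟨c, ?_, 1, by ring⟩
    rintro rfl
    apply hp0; simp
  | succ n ih =>
    intro p hp hp0 hev
    by_cases hd : p.natDegree = 0
    · exact (show p.natDegree ≤ n by omega) |> fun h => ih p h hp0 hev
    obtain ⟨π, hπ, hπp⟩ := exists_irreducible_of_natDegree_pos (Nat.pos_of_ne_zero hd)
    have h1 : (vo hπ).valuation (RatFunc F) (algebraMap F[X] (RatFunc F) p) < 1 :=
      (val_poly_lt (vo_asIdeal hπ) p).2 hπp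
    obtain ⟨m, hm⟩ := hev (vo hπ)
    have h2 : 2 * m ≤ -2 := by
      rw [hm, ← exp_zero, exp_lt_exp] at h1
      omega
    have h3 : π ^ 2 ∣ p := by
      have h4 : (vo hπ).intValuation p ≤ exp (-((2 : ℕ) : ℤ)) := by
        rw [← (vo hπ).valuation_of_algebraMap (K := RatFunc F), hm, exp_le_exp]
        exact h2
      rw [(vo hπ).intValuation_le_pow_iff_mem, vo_asIdeal, Ideal.span_singleton_pow,
        Ideal.mem_span_singleton] at h4
      exact h4
    obtain ⟨q, rfl⟩ := h3
    have hq0 : q ≠ 0 := right_ne_zero_of_mul hp0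
    have hπ0 := hπ.ne_zero
    have hdeg : q.natDegree ≤ n := by
      rw [natDegree_mul (pow_ne_zero _ hπ0) hq0, natDegree_pow] at hp
      have := hπ.natDegree_pos
      omega
    obtain ⟨c, hc, h, rfl⟩ := ih q hdeg hq0 (fun v => by
      have h5 := hev v
      rw [map_mul, map_pow] at h5
      refine h5.of_mul_right (evV_sq ?_)
      simpa using hπ0)
    exact ⟨c, hc, π * h, by ring⟩

theorem ratFunc_ev {b : RatFunc F} (hb : b ≠ 0)
    (hev : ∀ v : HeightOneSpectrum F[X], EvV (v.valuation (RatFunc F)) b) :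
    ∃ c : F, c ≠ 0 ∧ ∃ h : RatFunc F, b = RatFunc.C c * h ^ 2 := by
  have hd : b.denom ≠ 0 := b.denom_ne_zero
  have hn : b.num ≠ 0 := RatFunc.num_ne_zero hb
  have hd' : algebraMap F[X] (RatFunc F) b.denom ≠ 0 := by simpa using hd
  have e : algebraMap F[X] (RatFunc F) (b.num * b.denom) =
      b * algebraMap F[X] (RatFunc F) b.denom ^ 2 := by
    rw [map_mul]
    have := b.num_div_denom
    rw [div_eq_iff hd'] at this
    rw [this]; ring
  obtain ⟨c, hc, h, hh⟩ := poly_ev _ (b.num * b.denom) le_rfl (mul_ne_zero hn hd) (fun v => by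
    rw [e]
    exact (hev v).mul (evV_sq hd'))
  refine ⟨c, hc, algebraMap F[X] (RatFunc F) h / algebraMap F[X] (RatFunc F) b.denom, ?_⟩
  rw [hh, map_mul, map_pow, RatFunc.algebraMap_C] at e
  field_simp
  rw [← e]

section

variable [DecidableEq (RatFunc F)]

/-- places of odd degree -/
def OddPl : Place F → Prop
  | none => True
  | some v => ∃ π : F[X], Irreducible π ∧ v.asIdeal = Ideal.span {π} ∧ Odd π.natDegree

omit [DecidableEq (RatFunc F)] in
theorem ne_zero_C {c : F} (hc : c ≠ 0) : RatFunc.C c ≠ 0 := by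
  simpa using hc

theorem val_C (w : Place F) {c : F} (hc : c ≠ 0) : plv w (RatFunc.C c) = 1 := by
  match w with
  | none => exact RatFunc.inftyValuation.C F hc
  | some v =>
    obtain ⟨π, hπ, hv⟩ := exists_gen v
    change v.valuation (RatFunc F) (RatFunc.C c) = 1
    rw [← RatFunc.algebraMap_C, val_poly_eq hv]
    intro h
    exact hπ.not_isUnit (isUnit_of_dvd_unit h (isUnit_C.2 hc.isUnit))

theorem infty_poly {p : F[X]} (hp : p ≠ 0) :
    RatFunc.inftyValuation F (algebraMap F[X] (RatFunc F) p) = exp (p.natDegree : ℤ) := by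
  rw [RatFunc.inftyValuation_apply]
  exact RatFunc.inftyValuation.polynomial F hp

/-- all valuations even except possibly one, at a place of odd degree -/
theorem ev_except {b : RatFunc F} (hb : b ≠ 0) {w' : Place F} (hw' : OddPl w')
    (hev : ∀ w, w ≠ w' → EvV (plv w) b) :
    ∃ c : F, c ≠ 0 ∧ ∃ h : RatFunc F, b = RatFunc.C c * h ^ 2 := by
  match w', hw', hev with
  | none, _, hev => exact ratFunc_ev hb fun v => hev (some v) (by simp)
  | some v', ⟨π, hπ, hv', hodd⟩, hev =>
    rcases ev_or_odd (v := v'.valuation (RatFunc F)) hb with h1 | h1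
    · refine ratFunc_ev hb fun v => ?_
      by_cases hvv : v = v'
      · rw [hvv]; exact h1
      · exact hev (some v) (by simpa using hvv)
    · exfalso
      have hπ0 := hπ.ne_zero
      have hπ' : algebraMap F[X] (RatFunc F) π ≠ 0 := by simpa using hπ0
      obtain ⟨c, hc, h, hh⟩ := ratFunc_ev (b := b * algebraMap F[X] (RatFunc F) π)
        (mul_ne_zero hb hπ') (fun v => by
          by_cases hvv : v = v'
          · rw [hvv]
            exact h1.mul ⟨-1, by rw [val_gen hv' hπ0]; rfl⟩
          · refine (hev (some v) (by simpa using hvv)).mul (evV_of_eq_one ?_)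
            obtain ⟨ρ, hρ, hv⟩ := exists_gen v
            change v.valuation (RatFunc F) _ = 1
            rw [val_poly_eq hv]
            intro hdvd
            apply hvv
            have hass : Associated ρ π := hρ.associated_of_dvd hπ hdvd
            apply HeightOneSpectrum.ext
            rw [hv, hv']
            exact Ideal.span_singleton_eq_span_singleton.2 hass)
      have h2 : EvV (plv none) (b * algebraMap F[X] (RatFunc F) π) := by
        rw [hh]
        refine (evV_of_eq_one (val_C none hc)).mul (evV_sq ?_)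
        rintro rfl
        exact mul_ne_zero hb hπ' (by rw [hh]; ring)
      have h3 : OddV (plv none) (algebraMap F[X] (RatFunc F) π) := by
        obtain ⟨k, hk⟩ := hodd
        refine ⟨k, ?_⟩
        change RatFunc.inftyValuation F _ = _
        rw [infty_poly hπ0, hk]
        push_cast; rfl
      exact not_ev_odd (hev none (by simp)) (h2.of_mul_odd h3)

omit [DecidableEq (RatFunc F)] in
theorem isSquare_of_odd_ext {k : Type*} [Field k] [Algebra F k] (h : Odd (Module.finrank F k))
    [FiniteDimensional F k] {c : F} (hc : IsSquare (algebraMap F k c)) : IsSquare c := by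
  by_contra hns
  obtain ⟨r, hr⟩ := hc
  have hirr : Irreducible (X ^ 2 - C c : F[X]) :=
    X_pow_sub_C_irreducible_of_prime Nat.prime_two fun b hb => hns ⟨b, by rw [← hb]; ring⟩
  have hroot : aeval r (X ^ 2 - C c : F[X]) = 0 := by
    simp [hr, sq]
  have hmin : minpoly F r = X ^ 2 - C c :=
    (minpoly.eq_of_irreducible_of_monic hirr hroot (monic_X_pow_sub_C c two_ne_zero)).symm
  have h2 := minpoly.degree_dvd (K := F) (L := k) (x := r) (IsIntegral.of_finite F r)
  rw [hmin, natDegree_X_pow_sub_C] at h2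
  exact (Nat.not_even_iff_odd.2 h) (even_iff_two_dvd.2 h2)

/-- a constant which is a square times a 1-unit at a place of odd degree is a square -/
theorem isSquare_of_sqV {w : Place F} (hw : OddPl w) {c : F} (hc : c ≠ 0)
    (h : SqV (plv w) (RatFunc.C c)) : IsSquare c := by
  obtain ⟨g, hg⟩ := h
  have hval := SqV.val hg
  rw [map_mul, val_C w hc, one_mul, map_pow] at hval
  have hg1 : plv w g = 1 := (pow_eq_one_iff_of_nonneg zero_le two_ne_zero).1 hval
  have hg0 : g ≠ 0 := by
    rintro rfl
    rw [map_zero] at hg1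
    exact zero_ne_one hg1
  set A := g.num with hA
  set B := g.denom with hB
  have hB0 : B ≠ 0 := g.denom_ne_zero
  have hA0 : A ≠ 0 := RatFunc.num_ne_zero hg0
  have hB' : algebraMap F[X] (RatFunc F) B ≠ 0 := by simpa using hB0
  have hgB : algebraMap F[X] (RatFunc F) A = g * algebraMap F[X] (RatFunc F) B := by
    have := g.num_div_denom
    rwa [div_eq_iff hB'] at this
  have hD : algebraMap F[X] (RatFunc F) (C c * A ^ 2 - B ^ 2) =
      (RatFunc.C c * g ^ 2 - 1) * algebraMap F[X] (RatFunc F) B ^ 2 := by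
    rw [map_sub, map_mul, map_pow, map_pow, hgB, RatFunc.algebraMap_C]
    ring
  match w, hw, hg, hg1 with
  | none, _, hg, hg1 =>
    change RatFunc.inftyValuation F _ = 1 at hg1
    change RatFunc.inftyValuation F _ < 1 at hg
    have hdeg : A.natDegree = B.natDegree := by
      have h1 := congrArg (RatFunc.inftyValuation F) hgB
      rw [map_mul, hg1, one_mul, infty_poly hA0, infty_poly hB0, exp_inj] at h1
      exact_mod_cast h1
    have hlt : RatFunc.inftyValuation F (algebraMap F[X] (RatFunc F) (C c * A ^ 2 - B ^ 2)) <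
        exp ((B.natDegree + B.natDegree : ℕ) : ℤ) := by
      rw [hD, map_mul, map_pow, infty_poly hB0]
      push_cast
      rw [exp_add, ← sq]
      have h0 : (0 : ℤᵐ⁰) < exp (B.natDegree : ℤ) ^ 2 := pow_pos (exp_pos) 2
      exact mul_lt_of_lt_one_left h0 hg
    have hco : (C c * A ^ 2 - B ^ 2).coeff (B.natDegree + B.natDegree) = 0 := by
      by_cases h0 : C c * A ^ 2 - B ^ 2 = 0
      · rw [h0, coeff_zero]
      · rw [infty_poly h0, exp_lt_exp] at hlt
        exact coeff_eq_zero_of_natDegree_lt (by exact_mod_cast hlt)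
    rw [coeff_sub, coeff_C_mul, sq, sq, coeff_mul_add_eq_of_natDegree_le le_rfl le_rfl] at hco
    rw [← hdeg, coeff_mul_add_eq_of_natDegree_le le_rfl le_rfl] at hco
    rw [coeff_natDegree, hdeg, coeff_natDegree] at hco
    have ha : A.leadingCoeff ≠ 0 := leadingCoeff_ne_zero.2 hA0
    refine ⟨B.leadingCoeff / A.leadingCoeff, ?_⟩
    field_simp
    linear_combination hco
  | some v, ⟨π, hπ, hv, hodd⟩, hg, hg1 =>
    change v.valuation (RatFunc F) _ = 1 at hg1
    change v.valuation (RatFunc F) _ < 1 at hg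
    have hπB : ¬ π ∣ B := by
      intro h
      have h1 := (val_poly_lt hv B).2 h
      have h2 : v.valuation (RatFunc F) (algebraMap F[X] (RatFunc F) A) < 1 := by
        rw [hgB, map_mul, hg1, one_mul]; exact h1
      have h3 := (val_poly_lt hv A).1 h2
      exact hπ.not_isUnit ((RatFunc.isCoprime_num_denom g).isUnit_of_dvd' h3 h)
    have hdvd : π ∣ C c * A ^ 2 - B ^ 2 := by
      rw [← val_poly_lt hv, hD, map_mul, map_pow, (val_poly_eq hv B).2 hπB, one_pow, mul_one]
      exact hg
    have : Fact (Irreducible π) := ⟨hπ⟩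
    have hfin : Module.finrank F (AdjoinRoot π) = π.natDegree := by
      rw [(AdjoinRoot.powerBasis hπ.ne_zero).finrank, AdjoinRoot.powerBasis_dim]
    have : FiniteDimensional F (AdjoinRoot π) := (AdjoinRoot.powerBasis hπ.ne_zero).finite
    apply isSquare_of_odd_ext (k := AdjoinRoot π) (by rw [hfin]; exact hodd)
    have h1 : AdjoinRoot.mk π (C c * A ^ 2 - B ^ 2) = 0 := AdjoinRoot.mk_eq_zero.2 hdvd
    rw [map_sub, map_mul, map_pow, map_pow, AdjoinRoot.mk_C] at h1
    have hBm : AdjoinRoot.mk π B ≠ 0 := fun h => hπB (AdjoinRoot.mk_eq_zero.1 h)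
    have hAm : AdjoinRoot.mk π A ≠ 0 := by
      intro h
      rw [h] at h1
      apply hBm
      have : (AdjoinRoot.mk π) B ^ 2 = 0 := by linear_combination -h1
      exact pow_eq_zero_iff two_ne_zero |>.1 this
    refine ⟨AdjoinRoot.mk π B / AdjoinRoot.mk π A, ?_⟩
    rw [AdjoinRoot.algebraMap_eq]
    field_simp
    linear_combination h1

end

end OddCov
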