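import Pool.Agent.Helper9.BSD.Cover

/-!
# The structure of the 2-Selmer group of `y² = x (x + 1) (x + u ^ d)`
-/

namespace OddCov

open WithZero Polynomial IsDedekindDomain

variable {F : Type*} [Field F] [DecidableEq (RatFunc F)]

/-- the functions `1 - u / s` -/
noncomputable def gs (u : RatFunc F) (s : F) : RatFunc F := 1 - RatFunc.C s⁻¹ * u

omit [DecidableEq (RatFunc F)] in
theorem gs_eq (u : RatFunc F) {s : F} (hs : s ≠ 0) :
    gs u s = RatFunc.C (-s⁻¹) * (u - RatFunc.C s) := by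
  have h : RatFunc.C s⁻¹ * RatFunc.C s = (1 : RatFunc F) := by
    rw [← map_mul, inv_mul_cancel₀ hs, map_one]
  unfold gs
  rw [map_neg]
  linear_combination -h

omit [DecidableEq (RatFunc F)] in
theorem sqV_one {v : Valuation (RatFunc F) ℤᵐ⁰} : SqV v 1 :=
  sqV_of_isSquare one_ne_zero ⟨1, by ring⟩

omit [DecidableEq (RatFunc F)] in
theorem sqV_pow {v : Valuation (RatFunc F) ℤᵐ⁰} {x : RatFunc F} (hx : SqV v x) (n : ℕ) :
    SqV v (x ^ n) := by
  induction n with
  | zero => rw [pow_zero]; exact sqV_one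
  | succ n ih => rw [pow_succ]; exact ih.mul hx

omit [DecidableEq (RatFunc F)] in
theorem sqV_prod {v : Valuation (RatFunc F) ℤᵐ⁰} {ι : Type*} (B : Finset ι) (f : ι → RatFunc F)
    (h : ∀ s ∈ B, SqV v (f s)) : SqV v (∏ s ∈ B, f s) :=
  Finset.prod_induction f (SqV v) (fun _ _ ha hb => ha.mul hb) sqV_one h

/-- the data used in the descent -/
structure Setup (u : RatFunc F) (M : Finset F) (d : ℕ) : Prop where
  u_ne : u ≠ 0
  one : ∀ s ∈ M, OneAbove u s
  unl : Unlinked d u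
  even : Even d
  pos : 0 < d
  prod : ∀ x : RatFunc F, x ^ d - 1 = ∏ s ∈ M, (x - RatFunc.C s)
  ne_zero : ∀ s ∈ M, s ≠ 0
  sq : ∀ s ∈ M, IsSquare (-s⁻¹)
  i : ∃ i : F, i ^ 2 = -1

variable {u : RatFunc F} {M : Finset F} {d : ℕ}

theorem Setup.at_fin (hS : Setup u M d) {s : F} (hs : s ∈ M) : ∃ w : Place F,
    OddV (plv w) (u - RatFunc.C s) ∧ ∀ w', plv w' (u - RatFunc.C s) < 1 ↔ w' = w := by
  obtain ⟨w, h1, h2, h3⟩ := hS.one s hs
  exact ⟨w, h2, fun w' => ⟨h3 w', fun h => h ▸ h1⟩⟩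

omit [DecidableEq (RatFunc F)] in
theorem val_sub_C_le {w : Valuation (RatFunc F) ℤᵐ⁰} (hw : ∀ c : F, c ≠ 0 → w (RatFunc.C c) = 1)
    (h : w u ≤ 1) (s : F) : w (u - RatFunc.C s) ≤ 1 := by
  refine (w.map_sub _ _).trans (max_le h ?_)
  by_cases hs : s = 0
  · rw [hs, map_zero, map_zero]; exact zero_le_one
  · rw [hw s hs]

/-- at the poles of `u`, the functions `u` and `1 - u / s` have the same class -/
theorem sqV_pole (hS : Setup u M d) {w : Place F} (hw : 1 < plv w u) {s : F} (hs : s ∈ M) :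
    SqV (plv w) (u * gs u s) := by
  have hu0 := hS.u_ne
  have hs0 := hS.ne_zero s hs
  obtain ⟨r, hr⟩ := hS.sq s hs
  have hr0 : r ≠ 0 := by
    rintro rfl
    rw [mul_zero] at hr
    exact neg_ne_zero.2 (inv_ne_zero hs0) hr
  refine ⟨RatFunc.C r⁻¹ * u⁻¹, ?_⟩
  have hC : RatFunc.C r⁻¹ ^ 2 * RatFunc.C (-s⁻¹) = (1 : RatFunc F) := by
    rw [hr, ← map_pow, ← map_mul]
    have : r⁻¹ ^ 2 * (r * r) = 1 := by field_simp
    rw [this, map_one]
  have e : u * gs u s * (RatFunc.C r⁻¹ * u⁻¹) ^ 2 - 1 = -(RatFunc.C s * u⁻¹) := by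
    rw [gs_eq u hs0]
    have h1 : u * (RatFunc.C (-s⁻¹) * (u - RatFunc.C s)) * (RatFunc.C r⁻¹ * u⁻¹) ^ 2 =
        (RatFunc.C r⁻¹ ^ 2 * RatFunc.C (-s⁻¹)) * (u * (u - RatFunc.C s) * u⁻¹ ^ 2) := by ring
    rw [h1, hC]
    field_simp
    ring
  rw [e, Valuation.map_neg, map_mul, val_C _ hs0, one_mul, map_inv₀]
  exact (inv_lt_one₀ (zero_lt_iff.2 ((Valuation.ne_zero_iff _).2 hu0))).2 hw

theorem selmer_structure (hS : Setup u M d) {b₁ b₂ : RatFunc F} (hb₁ : b₁ ≠ 0) (hb₂ : b₂ ≠ 0)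
    (hloc : ∀ w : Place F, LocCond (plv w) b₁ b₂ (u ^ d)) :
    ∃ B ⊆ M, IsSquare (b₁ * u ^ B.card) ∧ IsSquare (b₂ * ∏ s ∈ B, gs u s) := by
  classical
  have hu0 : u ≠ 0 := hS.u_ne
  have hM : ∀ s ∈ M, ∃ w : Place F, OddV (plv w) (u - RatFunc.C s) ∧
      ∀ w', plv w' (u - RatFunc.C s) < 1 ↔ w' = w := fun s hs => hS.at_fin hs
  choose! ws hwsodd hws using hM
  obtain ⟨i, hi⟩ := hS.i
  have hneg : (RatFunc.C i : RatFunc F) ^ 2 = -1 := by rw [← map_pow, hi, map_neg, map_one]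
  -- at the zeros of `u`
  have hat0 : ∀ w, plv w u < 1 → plv w (u ^ d) < 1 := by
    intro w hw
    rw [map_pow]
    exact pow_lt_one₀ zero_le hw hS.pos.ne'
  have hgs0 : ∀ w, plv w u < 1 → ∀ s, s ≠ 0 → plv w (gs u s - 1) < 1 := by
    intro w hw s hs
    have e : gs u s - 1 = -(RatFunc.C s⁻¹ * u) := by unfold gs; ring
    rw [e, Valuation.map_neg, map_mul, val_C _ (inv_ne_zero hs), one_mul]
    exact hw
  -- at `ws s`
  have hwsu : ∀ s ∈ M, plv (ws s) u = 1 := by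
    intro s hs
    have h1 : plv (ws s) (u - RatFunc.C s) < 1 := (hws s hs _).2 rfl
    have h2 : plv (ws s) (RatFunc.C s) = 1 := val_C _ (hS.ne_zero s hs)
    have e : u = RatFunc.C s + (u - RatFunc.C s) := by ring
    rw [e, Valuation.map_add_eq_of_lt_left _ (by rwa [h2]), h2]
  have hwsd : ∀ s ∈ M, plv (ws s) (u ^ d - 1) < 1 := by
    intro s hs
    rw [hS.prod, map_prod, ← Finset.mul_prod_erase _ _ hs]
    refine mul_lt_one_of_lt_of_le ((hws s hs _).2 rfl) (Finset.prod_le_one' fun s' _ => ?_)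
    exact val_sub_C_le (fun c hc => val_C _ hc) (hwsu s hs).le s'
  have hwsinj : ∀ s ∈ M, ∀ s' : F, s' ≠ s → plv (ws s) (u - RatFunc.C s') = 1 := by
    intro s hs s' hne
    have h1 : plv (ws s) (u - RatFunc.C s) < 1 := (hws s hs _).2 rfl
    have h2 : plv (ws s) (RatFunc.C (s - s')) = 1 := val_C _ (sub_ne_zero.2 (Ne.symm hne))
    have e : u - RatFunc.C s' = RatFunc.C (s - s') + (u - RatFunc.C s) := by
      rw [map_sub]; ring
    rw [e, Valuation.map_add_eq_of_lt_left _ (by rwa [h2]), h2]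
  -- good places
  have hgood : ∀ w, plv w u = 1 → (∀ s ∈ M, w ≠ ws s) →
      plv w (u ^ d) = 1 ∧ plv w (u ^ d - 1) = 1 := by
    intro w h0 hs
    refine ⟨by rw [map_pow, h0, one_pow], ?_⟩
    rw [hS.prod, map_prod]
    refine Finset.prod_eq_one fun s hsM => le_antisymm ?_ (not_lt.1 fun h => hs s hsM
      ((hws s hsM w).1 h))
    exact val_sub_C_le (fun c hc => val_C _ hc) h0.le s
  have hgsne : ∀ s ∈ M, gs u s ≠ 0 := by
    intro s hs
    rw [gs_eq u (hS.ne_zero s hs)]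
    refine mul_ne_zero (ne_zero_C (neg_ne_zero.2 (inv_ne_zero (hS.ne_zero s hs)))) ?_
    exact (hwsodd s hs).ne
  have hgsval : ∀ s ∈ M, ∀ w, plv w (gs u s) = plv w (u - RatFunc.C s) := by
    intro s hs w
    rw [gs_eq u (hS.ne_zero s hs), map_mul,
      val_C _ (neg_ne_zero.2 (inv_ne_zero (hS.ne_zero s hs))), one_mul]
  let B : Finset F := M.filter fun s => OddV (plv (ws s)) b₂
  have hBM : B ⊆ M := Finset.filter_subset _ _
  have hne₂ : b₂ * ∏ s ∈ B, gs u s ≠ 0 :=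
    mul_ne_zero hb₂ (Finset.prod_ne_zero_iff.2 fun s hs => hgsne s (hBM hs))
  have hne₁ : b₁ * u ^ B.card ≠ 0 := mul_ne_zero hb₁ (pow_ne_zero _ hu0)
  -- the second class
  have hzero : ∀ w, plv w u < 1 → SqV (plv w) (b₂ * ∏ s ∈ B, gs u s) := by
    intro w hw
    exact ((hloc w).zero (hat0 w hw)).mul (sqV_prod B _ fun s hs =>
      sqV_of_one_unit (hgs0 w hw s (hS.ne_zero s (hBM hs))))
  have hev₂ : ∀ w, plv w u ≤ 1 → EvV (plv w) (b₂ * ∏ s ∈ B, gs u s) := by
    intro w hw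
    rcases hw.lt_or_eq with h0 | h0
    · exact (hzero w h0).ev
    by_cases hs : ∃ s ∈ M, w = ws s
    · obtain ⟨s, hsM, rfl⟩ := hs
      by_cases hsB : s ∈ B
      · rw [← Finset.mul_prod_erase _ _ hsB, ← mul_assoc]
        refine (((Finset.mem_filter.1 hsB).2).mul ?_).mul (evV_of_eq_one ?_)
        · obtain ⟨m, hm⟩ := hwsodd s hsM
          exact ⟨m, by rw [hgsval s hsM, hm]⟩
        · rw [map_prod]
          refine Finset.prod_eq_one fun s' hs' => ?_
          rw [Finset.mem_erase] at hs'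
          rw [hgsval s' (hBM hs'.2)]
          exact hwsinj s hsM s' hs'.1
      · refine EvV.mul ((ev_or_odd (v := plv (ws s)) hb₂).resolve_right fun h =>
          hsB (Finset.mem_filter.2 ⟨hsM, h⟩)) (evV_of_eq_one ?_)
        rw [map_prod]
        refine Finset.prod_eq_one fun s' hs' => ?_
        rw [hgsval s' (hBM hs')]
        exact hwsinj s hsM s' (fun h => hsB (h ▸ hs'))
    · push Not at hs
      obtain ⟨g1, g2⟩ := hgood w h0 hs
      refine ((hloc w).good g1 g2).2.mul (evV_of_eq_one ?_)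
      rw [map_prod]
      refine Finset.prod_eq_one fun s' hs' => ?_
      rw [hgsval s' (hBM hs')]
      refine le_antisymm ?_ (not_lt.1 fun h => hs s' (hBM hs') ((hws s' (hBM hs') w).1 h))
      exact val_sub_C_le (fun c hc => val_C _ hc) h0.le s'
  -- the places above the roots of unity
  have habove : ∀ w, plv w (u ^ d - 1) < 1 → ∃ s ∈ M, w = ws s := by
    intro w hw
    by_contra hs
    push Not at hs
    rcases lt_trichotomy (plv w u) 1 with h0 | h0 | h0
    · have h1 : plv w (u ^ d - 1) = 1 := by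
        have h2 : plv w (-1 : RatFunc F) = 1 := by rw [Valuation.map_neg, map_one]
        rw [sub_eq_add_neg, Valuation.map_add_eq_of_lt_right _ (by rw [h2]; exact hat0 w h0), h2]
      exact hw.ne h1
    · exact hw.ne (hgood w h0 hs).2
    · have h1 : 1 < plv w (u ^ d) := by
        rw [map_pow]; exact one_lt_pow₀ h0 hS.pos.ne'
      have h2 : plv w (u ^ d - 1) = plv w (u ^ d) := by
        rw [sub_eq_add_neg, Valuation.map_add_eq_of_lt_left _ (by
          rw [Valuation.map_neg, map_one]; exact h1)]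
      rw [h2] at hw
      exact lt_asymm h1 hw
  -- the first class
  have hunit : ∀ w, plv w u = 1 → EvV (plv w) (b₁ * u ^ B.card) := by
    intro w h0
    have h1 : EvV (plv w) b₁ := by
      by_cases hs : ∃ s ∈ M, w = ws s
      · obtain ⟨s, hsM, rfl⟩ := hs
        exact ((hloc _).one (RatFunc.C i) hneg (hwsd s hsM)).ev
      · push Not at hs
        obtain ⟨g1, g2⟩ := hgood w h0 hs
        exact ((hloc w).good g1 g2).1
    exact h1.mul (evV_of_eq_one (by rw [map_pow, h0, one_pow]))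
  have hone : ∀ w, plv w (u ^ d - 1) < 1 → SqV (plv w) (b₁ * u ^ B.card) := by
    intro w hw
    refine SqV.mul ((hloc w).one (RatFunc.C i) hneg hw) (sqV_pow ?_ _)
    obtain ⟨s, hsM, rfl⟩ := habove w hw
    have hs0 := hS.ne_zero s hsM
    have hCs : RatFunc.C s ≠ 0 := ne_zero_C hs0
    have h1 : SqV (plv (ws s)) (RatFunc.C s⁻¹ * u) := by
      apply sqV_of_one_unit
      have e : RatFunc.C s⁻¹ * u - 1 = RatFunc.C s⁻¹ * (u - RatFunc.C s) := by
        rw [map_inv₀]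
        field_simp
      rw [e, map_mul, val_C _ (inv_ne_zero hs0), one_mul]
      exact (hws s hsM _).2 rfl
    have h2 : IsSquare (RatFunc.C s) := by
      obtain ⟨r, hr⟩ := hS.sq s hsM
      refine ⟨RatFunc.C (i * s * r), ?_⟩
      rw [← map_mul]
      congr 1
      have : s * s⁻¹ = 1 := mul_inv_cancel₀ hs0
      linear_combination (i ^ 2 * s) * this + i ^ 2 * s ^ 2 * hr + s * hi
    have h3 := (sqV_of_isSquare (v := plv (ws s)) hCs h2).mul h1
    have e : RatFunc.C s * (RatFunc.C s⁻¹ * u) = u := by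
      rw [map_inv₀]
      field_simp
    rwa [e] at h3
  have hpole : ∀ w, 1 < plv w u →
      SqV (plv w) (b₁ * u ^ B.card * (b₂ * ∏ s ∈ B, gs u s)) := by
    intro w hw
    obtain ⟨k, hk⟩ := hS.even
    have h1 : SqV (plv w) (b₁ * b₂) := (hloc w).inf (u ^ k)
      (by rw [hk, ← two_mul, mul_comm, pow_mul])
      (by rw [map_pow]; exact one_lt_pow₀ hw hS.pos.ne')
    have h2 : SqV (plv w) (∏ s ∈ B, u * gs u s) := sqV_prod B _ fun s hs => sqV_pole hS hw (hBM hs)
    rw [Finset.prod_mul_distrib, Finset.prod_const] at h2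
    have e : b₁ * b₂ * (u ^ B.card * ∏ s ∈ B, gs u s) =
        b₁ * u ^ B.card * (b₂ * ∏ s ∈ B, gs u s) := by ring
    rw [← e]
    exact h1.mul h2
  obtain ⟨q1, q2⟩ := hS.unl _ _ hne₁ hne₂ hunit hone hev₂ hzero hpole
  exact ⟨B, hBM, q1, q2⟩

end OddCov
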