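import Pool.Agent.Helper9.BSD.Main

/-!
# Functions with many zeros and poles which are unlinked
-/

namespace OddCov

open Polynomial WithZero IsDedekindDomain

variable {F : Type*} [Field F]

/-- `t ^ n - a` -/
noncomputable def bp (n : ℕ) (a : F) : F[X] := X ^ n - C a

theorem bp_deg {n : ℕ} (_hn : 0 < n) (a : F) : (bp n a).natDegree = n := natDegree_X_pow_sub_C

theorem bp_ne {n : ℕ} (hn : 0 < n) (a : F) : bp n a ≠ 0 := by
  intro h
  have := bp_deg hn a
  rw [h, natDegree_zero] at this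
  omega

theorem bp_sub (n : ℕ) (a b : F) : bp n b = bp n a + C (a - b) := by
  unfold bp
  rw [C_sub]; ring

theorem bp_ratFunc_sub (n : ℕ) (a b : F) : algebraMap F[X] (RatFunc F) (bp n b) = algebraMap F[X] (RatFunc F) (bp n a) + RatFunc.C (a - b) := by
  rw [bp_sub n a b, map_add, RatFunc.algebraMap_C]

theorem bp_ratFunc_ne {n : ℕ} (hn : 0 < n) (a : F) : algebraMap F[X] (RatFunc F) (bp n a) ≠ 0 := by
  simpa using bp_ne hn a

section

variable [DecidableEq (RatFunc F)]

omit [DecidableEq (RatFunc F)] in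
theorem val_poly_le (v : HeightOneSpectrum F[X]) (p : F[X]) :
    v.valuation (RatFunc F) (algebraMap F[X] (RatFunc F) p) ≤ 1 := by
  rw [v.valuation_of_algebraMap]
  exact v.intValuation_le_one p

/-- the valuations of `t ^ n - b` at the place of `t ^ n - a` -/
theorem bp_val_ne {n : ℕ} {a b : F} (hab : a ≠ b) (hirr : Irreducible (bp n a)) :
    (vo hirr).valuation (RatFunc F) (algebraMap F[X] (RatFunc F) (bp n b)) = 1 := by
  have h1 : (vo hirr).valuation (RatFunc F) (algebraMap F[X] (RatFunc F) (bp n a)) < 1 :=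
    (val_poly_lt (vo_asIdeal hirr) _).2 dvd_rfl
  have h2 : (vo hirr).valuation (RatFunc F) (RatFunc.C (a - b)) = 1 :=
    val_C (some (vo hirr)) (sub_ne_zero.2 hab)
  rw [bp_ratFunc_sub n a b, Valuation.map_add_eq_of_lt_right _ (by rwa [h2]), h2]

omit [DecidableEq (RatFunc F)] in
theorem eq_vo_of_lt {π : F[X]} (hπ : Irreducible π) {v : HeightOneSpectrum F[X]}
    (h : v.valuation (RatFunc F) (algebraMap F[X] (RatFunc F) π) < 1) : v = vo hπ := by
  obtain ⟨ρ, hρ, hv⟩ := exists_gen v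
  rw [val_poly_lt hv] at h
  apply HeightOneSpectrum.ext
  rw [hv, vo_asIdeal]
  exact Ideal.span_singleton_eq_span_singleton.2 (hρ.associated_of_dvd hπ h)

/-- the data of the linking argument: the classes of `t ^ n - a i`, `t ^ n - b j` -/
structure Link {I : Type*} (n : ℕ) (R : Finset I) (a b : I → F) : Prop where
  pos : 0 < n
  odd : Odd n
  card : Odd R.card
  irr : ∀ i ∈ R, Irreducible (bp n (a i))
  irr' : ∀ i ∈ R, Irreducible (bp n (b i))
  inj : ∀ i ∈ R, ∀ j ∈ R, a i = a j → i = j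
  inj' : ∀ i ∈ R, ∀ j ∈ R, b i = b j → i = j
  ne : ∀ i ∈ R, ∀ j ∈ R, a i ≠ b j
  sq : ∀ i ∈ R, ∀ j ∈ R, IsSquare (a i - b j) ↔ i ≠ j

variable {I : Type*} {n : ℕ} {R : Finset I} {a b : I → F}

omit [DecidableEq (RatFunc F)] in
theorem Link.symm (h : Link n R a b) (hs : IsSquare (-1 : F)) : Link n R b a where
  pos := h.pos
  odd := h.odd
  card := h.card
  irr := h.irr'
  irr' := h.irr
  inj := h.inj'
  inj' := h.inj
  ne i hi j hj := (h.ne j hj i hi).symm
  sq i hi j hj := by
    have h1 : ∀ x : F, IsSquare x ↔ IsSquare (-x) := by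
      intro x
      constructor
      · intro hx
        have := hs.mul hx
        rwa [neg_one_mul] at this
      · intro hx
        have := hs.mul hx
        rwa [neg_one_mul, neg_neg] at this
    rw [h1, neg_sub, h.sq j hj i hi, ne_comm]

/-- the function with these zeros and poles -/
noncomputable def lf (n : ℕ) (R : Finset I) (a b : I → F) (κ : F) : RatFunc F :=
  RatFunc.C κ * (∏ i ∈ R, algebraMap F[X] (RatFunc F) (bp n (a i))) / ∏ i ∈ R, algebraMap F[X] (RatFunc F) (bp n (b i))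

omit [DecidableEq (RatFunc F)] in
theorem prod_bp_ne (hn : 0 < n) (R : Finset I) (a : I → F) : ∏ i ∈ R, algebraMap F[X] (RatFunc F) (bp n (a i)) ≠ 0 :=
  Finset.prod_ne_zero_iff.2 fun _ _ => bp_ratFunc_ne hn _

theorem infty_prod_bp (hn : 0 < n) (R : Finset I) (a : I → F) :
    RatFunc.inftyValuation F (∏ i ∈ R, algebraMap F[X] (RatFunc F) (bp n (a i))) = exp ((R.card * n : ℕ) : ℤ) := by
  classical
  induction R using Finset.induction_on with
  | empty => simp
  | insert i R hi ih =>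
    rw [Finset.prod_insert hi, map_mul, ih, infty_poly (bp_ne hn _), bp_deg hn, ← exp_add,
      Finset.card_insert_of_notMem hi]
    congr 1
    push_cast; ring

omit [DecidableEq (RatFunc F)] in
theorem lf_inv {κ : F} (hκ : κ ≠ 0) (h : Link n R a b) : (lf n R a b κ)⁻¹ = lf n R b a κ⁻¹ := by
  have h1 := prod_bp_ne h.pos R a
  have h2 := prod_bp_ne h.pos R b
  have h3 : RatFunc.C κ ≠ 0 := ne_zero_C hκ
  unfold lf
  rw [map_inv₀]
  field_simp

omit [DecidableEq (RatFunc F)] in
theorem lf_ne {κ : F} (hκ : κ ≠ 0) (h : Link n R a b) : lf n R a b κ ≠ 0 :=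
  div_ne_zero (mul_ne_zero (ne_zero_C hκ) (prod_bp_ne h.pos R a)) (prod_bp_ne h.pos R b)

/-- the values of the function away from its poles -/
theorem lf_le {κ : F} (hκ : κ ≠ 0) (h : Link n R a b) (w : Place F)
    (hw : ∀ i, ∀ hi : i ∈ R, w ≠ some (vo (h.irr' i hi))) : plv w (lf n R a b κ) ≤ 1 := by
  match w, hw with
  | none, _ =>
    change RatFunc.inftyValuation F _ ≤ 1
    unfold lf
    rw [map_div₀, map_mul, RatFunc.inftyValuation.C F hκ, infty_prod_bp h.pos, infty_prod_bp h.pos,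
      one_mul, div_self exp_ne_zero]
  | some v, hw =>
    change v.valuation (RatFunc F) _ ≤ 1
    unfold lf
    have h1 : v.valuation (RatFunc F) (∏ i ∈ R, algebraMap F[X] (RatFunc F) (bp n (b i))) = 1 := by
      rw [map_prod]
      refine Finset.prod_eq_one fun i hi => ?_
      refine le_antisymm (val_poly_le v _) (not_lt.1 fun hlt => hw i hi ?_)
      rw [eq_vo_of_lt (h.irr' i hi) hlt]
    have h2 : v.valuation (RatFunc F) (RatFunc.C κ) = 1 := val_C (some v) hκ
    rw [map_div₀, map_mul, h1, h2, one_mul, div_one, map_prod]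
    exact Finset.prod_le_one' fun i _ => val_poly_le v _

theorem lf_zero {κ : F} (hκ : κ ≠ 0) (h : Link n R a b) (i : I) (hi : i ∈ R) :
    plv (some (vo (h.irr i hi))) (lf n R a b κ) < 1 := by
  classical
  change (vo (h.irr i hi)).valuation (RatFunc F) _ < 1
  unfold lf
  have h1 : (vo (h.irr i hi)).valuation (RatFunc F) (∏ j ∈ R, algebraMap F[X] (RatFunc F) (bp n (b j))) = 1 := by
    rw [map_prod]
    exact Finset.prod_eq_one fun j hj => bp_val_ne (h.ne i hi j hj) _
  have h2 : (vo (h.irr i hi)).valuation (RatFunc F) (RatFunc.C κ) = 1 := val_C (some _) hκ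
  rw [map_div₀, map_mul, h1, h2, one_mul, div_one, map_prod, ← Finset.mul_prod_erase _ _ hi]
  refine mul_lt_one_of_lt_of_le ((val_poly_lt (vo_asIdeal _) _).2 dvd_rfl)
    (Finset.prod_le_one' fun j _ => val_poly_le _ _)

/-- **the linking argument** -/
theorem Link.side (h : Link n R a b) {κ : F} (hκ : κ ≠ 0) {z : RatFunc F} (hz : z ≠ 0)
    (hev : ∀ w : Place F, plv w (lf n R a b κ) ≤ 1 → EvV (plv w) z)
    (hsq : ∀ w : Place F, plv w (lf n R a b κ) < 1 → SqV (plv w) z) : IsSquare z := by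
  classical
  let Y : Finset I := R.filter fun j => if hj : j ∈ R then
    OddV (plv (some (vo (h.irr' j hj)))) z else False
  have hYR : Y ⊆ R := Finset.filter_subset _ _
  have hY : ∀ j, ∀ hj : j ∈ R, (j ∈ Y ↔ OddV (plv (some (vo (h.irr' j hj)))) z) := by
    intro j hj
    simp only [Y, Finset.mem_filter, hj, dif_pos, true_and]
  have hPne : ∏ j ∈ Y, algebraMap F[X] (RatFunc F) (bp n (b j)) ≠ 0 := prod_bp_ne h.pos Y b
  obtain ⟨c, hc, g, hg⟩ := ratFunc_ev (b := z * ∏ j ∈ Y, algebraMap F[X] (RatFunc F) (bp n (b j)))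
    (mul_ne_zero hz hPne) (fun v => by
      by_cases hv : ∃ i, ∃ hi : i ∈ R, v = vo (h.irr' i hi)
      · obtain ⟨i, hi, rfl⟩ := hv
        by_cases hiY : i ∈ Y
        · rw [← Finset.mul_prod_erase _ _ hiY, ← mul_assoc]
          refine (((hY i hi).1 hiY).mul ⟨-1, ?_⟩).mul (evV_of_eq_one ?_)
          · change (vo (h.irr' i hi)).valuation (RatFunc F) _ = _
            rw [val_gen (vo_asIdeal _) (bp_ne h.pos _)]
            rfl
          · rw [map_prod]
            refine Finset.prod_eq_one fun j hj => ?_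
            rw [Finset.mem_erase] at hj
            exact bp_val_ne (fun e => hj.1 (h.inj' i hi j (hYR hj.2) e).symm) _
        · refine ((ev_or_odd hz).resolve_right fun h' => hiY ((hY i hi).2 h')).mul
            (evV_of_eq_one ?_)
          rw [map_prod]
          refine Finset.prod_eq_one fun j hj => ?_
          exact bp_val_ne (fun e => hiY ((h.inj' i hi j (hYR hj) e) ▸ hj)) _
      · push Not at hv
        refine EvV.mul (hev (some v) (lf_le hκ h _ fun i hi e =>
          hv i hi (Option.some_injective _ e))) (evV_of_eq_one ?_)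
        rw [map_prod]
        refine Finset.prod_eq_one fun j hj => ?_
        refine le_antisymm (val_poly_le v _) (not_lt.1 fun hlt => hv j (hYR hj) ?_)
        exact eq_vo_of_lt (h.irr' j (hYR hj)) hlt)
  have hg0 : g ≠ 0 := by
    rintro rfl
    exact mul_ne_zero hz hPne (by rw [hg]; ring)
  have hC : RatFunc.C c ≠ 0 := ne_zero_C hc
  -- parity of `Y`
  have hYeven : Even Y.card := by
    have h1 : EvV (plv none) (z * ∏ j ∈ Y, algebraMap F[X] (RatFunc F) (bp n (b j))) := by
      rw [hg]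
      exact (evV_of_eq_one (val_C none hc)).mul (evV_sq hg0)
    have h2 : EvV (plv none) z := hev none (lf_le hκ h none fun i hi => by simp)
    obtain ⟨m, hm⟩ := h1.of_mul_right h2
    change RatFunc.inftyValuation F _ = _ at hm
    rw [infty_prod_bp h.pos, exp_inj] at hm
    have h3 : Even (Y.card * n) := by
      rw [← Int.even_coe_nat, hm]
      exact even_two_mul m
    rcases Nat.even_mul.1 h3 with h4 | h4
    · exact h4
    · exact absurd h.odd (Nat.not_odd_iff_even.2 h4)
  -- the local conditions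
  have key : ∀ i ∈ R, IsSquare (c * ∏ j ∈ Y, (a i - b j)) := by
    intro i hi
    set w : Place F := some (vo (h.irr i hi)) with hw
    have hodd : OddPl w := ⟨bp n (a i), h.irr i hi, vo_asIdeal _, by
      rw [bp_deg h.pos]; exact h.odd⟩
    have hne : c * ∏ j ∈ Y, (a i - b j) ≠ 0 :=
      mul_ne_zero hc (Finset.prod_ne_zero_iff.2 fun j hj =>
        sub_ne_zero.2 (h.ne i hi j (hYR hj)))
    refine isSquare_of_sqV hodd hne ?_
    have h1 : SqV (plv w) z := hsq w (lf_zero hκ h i hi)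
    have h2 : SqV (plv w) (RatFunc.C c * ∏ j ∈ Y, algebraMap F[X] (RatFunc F) (bp n (b j))) := by
      have h3 : SqV (plv w) (z * (∏ j ∈ Y, algebraMap F[X] (RatFunc F) (bp n (b j))) ^ 2) :=
        h1.mul (sqV_of_isSquare (pow_ne_zero _ hPne) ⟨_, pow_two _⟩)
      have e : z * (∏ j ∈ Y, algebraMap F[X] (RatFunc F) (bp n (b j))) ^ 2 =
          RatFunc.C c * (∏ j ∈ Y, algebraMap F[X] (RatFunc F) (bp n (b j))) * g ^ 2 := by
        rw [pow_two, ← mul_assoc, hg]; ring
      rw [e] at h3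
      exact h3.of_mul_right (sqV_of_isSquare (pow_ne_zero _ hg0) ⟨_, pow_two _⟩)
    have h4 : SqV (plv w) (∏ j ∈ Y, (RatFunc.C (a i - b j) * algebraMap F[X] (RatFunc F) (bp n (b j)))) := by
      refine sqV_prod Y _ fun j hj => ?_
      have hd : a i - b j ≠ 0 := sub_ne_zero.2 (h.ne i hi j (hYR hj))
      have hCd : RatFunc.C (a i - b j) ≠ 0 := ne_zero_C hd
      have h5 : SqV (plv w) (RatFunc.C (a i - b j)⁻¹ * algebraMap F[X] (RatFunc F) (bp n (b j))) := by
        apply sqV_of_one_unit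
        have e : RatFunc.C (a i - b j)⁻¹ * algebraMap F[X] (RatFunc F) (bp n (b j)) - 1 =
            RatFunc.C (a i - b j)⁻¹ * algebraMap F[X] (RatFunc F) (bp n (a i)) := by
          rw [bp_ratFunc_sub n (a i) (b j), map_inv₀]
          field_simp
          ring
        rw [e, map_mul, val_C w (inv_ne_zero hd), one_mul]
        exact (val_poly_lt (vo_asIdeal _) _).2 dvd_rfl
      have h6 := (sqV_of_isSquare (v := plv w) (pow_ne_zero 2 hCd) ⟨_, pow_two _⟩).mul h5
      have e : RatFunc.C (a i - b j) ^ 2 * (RatFunc.C (a i - b j)⁻¹ * algebraMap F[X] (RatFunc F) (bp n (b j))) =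
          RatFunc.C (a i - b j) * algebraMap F[X] (RatFunc F) (bp n (b j)) := by
        rw [map_inv₀]
        field_simp
      rwa [e] at h6
    rw [Finset.prod_mul_distrib] at h4
    have h7 := h2.mul h4
    have e : RatFunc.C c * (∏ j ∈ Y, algebraMap F[X] (RatFunc F) (bp n (b j))) *
        ((∏ j ∈ Y, RatFunc.C (a i - b j)) * ∏ j ∈ Y, algebraMap F[X] (RatFunc F) (bp n (b j))) =
        RatFunc.C (c * ∏ j ∈ Y, (a i - b j)) * (∏ j ∈ Y, algebraMap F[X] (RatFunc F) (bp n (b j))) ^ 2 := by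
      rw [map_mul, map_prod]; ring
    rw [e] at h7
    exact h7.of_mul_right (sqV_of_isSquare (pow_ne_zero _ hPne) ⟨_, pow_two _⟩)
  have hsqmul : ∀ {x y : F}, IsSquare (x * y) → IsSquare y → y ≠ 0 → IsSquare x := by
    rintro x y ⟨r, hr⟩ ⟨s, hs⟩ hy
    have hs0 : s ≠ 0 := by
      rintro rfl
      exact hy (by rw [hs, mul_zero])
    refine ⟨r / s, ?_⟩
    field_simp
    rw [pow_two, ← hs, pow_two, ← hr]
  have hprod : ∀ i ∈ R, ∀ T ⊆ R, i ∉ T → IsSquare (∏ j ∈ T, (a i - b j)) ∧
      ∏ j ∈ T, (a i - b j) ≠ 0 := by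
    intro i hi T hT hiT
    refine ⟨Finset.prod_induction _ IsSquare (fun _ _ => IsSquare.mul) ⟨1, by ring⟩
      fun j hj => (h.sq i hi j (hT hj)).2 fun e => hiT (e ▸ hj), ?_⟩
    exact Finset.prod_ne_zero_iff.2 fun j hj => sub_ne_zero.2 (h.ne i hi j (hT hj))
  -- there is `i ∉ Y`
  have hex : ∃ i ∈ R, i ∉ Y := by
    by_contra hcon
    push Not at hcon
    have : Y = R := Finset.Subset.antisymm hYR hcon
    rw [this] at hYeven
    exact (Nat.not_even_iff_odd.2 h.card) hYeven
  obtain ⟨i, hi, hiY⟩ := hex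
  obtain ⟨p1, p2⟩ := hprod i hi Y hYR hiY
  have hcsq : IsSquare c := hsqmul (key i hi) p1 p2
  have hYemp : Y = ∅ := by
    by_contra hne
    obtain ⟨j, hj⟩ := Finset.nonempty_iff_ne_empty.2 hne
    have h1 := key j (hYR hj)
    rw [← Finset.mul_prod_erase _ _ hj, ← mul_assoc] at h1
    obtain ⟨q1, q2⟩ := hprod j (hYR hj) (Y.erase j) ((Finset.erase_subset _ _).trans hYR)
      (Finset.notMem_erase _ _)
    have h2 : IsSquare (c * (a j - b j)) := hsqmul h1 q1 q2
    rw [mul_comm] at h2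
    have h3 := hsqmul h2 hcsq hc
    exact (h.sq j (hYR hj) j (hYR hj)).1 h3 rfl
  rw [hYemp, Finset.prod_empty, mul_one] at hg
  obtain ⟨r, hr⟩ := hcsq
  exact ⟨RatFunc.C r * g, by rw [hg, hr, map_mul]; ring⟩

theorem Link.unlinked (h : Link n R a b) (hs : IsSquare (-1 : F)) {κ : F} (hκ : κ ≠ 0) (d : ℕ) :
    Unlinked d (lf n R a b κ) := by
  intro b₁ b₂ hb₁ hb₂ h1 _ h3 h4 h5
  have hsq₂ : IsSquare b₂ := h.side hκ hb₂ h3 h4
  have hu0 := lf_ne hκ h
  have hpole : ∀ w : Place F, 1 < plv w (lf n R a b κ) → SqV (plv w) b₁ := fun w hw =>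
    (h5 w hw).of_mul_right (sqV_of_isSquare hb₂ hsq₂)
  refine ⟨(h.symm hs).side (inv_ne_zero hκ) hb₁ (fun w hw => ?_) (fun w hw => ?_), hsq₂⟩
  · rw [← lf_inv hκ h, map_inv₀] at hw
    have h6 : 1 ≤ plv w (lf n R a b κ) :=
      (inv_le_one₀ (zero_lt_iff.2 ((Valuation.ne_zero_iff _).2 hu0))).1 hw
    rcases h6.lt_or_eq with h7 | h7
    · exact (hpole w h7).ev
    · exact h1 w h7.symm
  · rw [← lf_inv hκ h, map_inv₀] at hw
    exact hpole w ((inv_lt_one₀ (zero_lt_iff.2 ((Valuation.ne_zero_iff _).2 hu0))).1 hw)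

end

end OddCov
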