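import Pool.Agent.Helper9.BSD.Tower
import Pool.Agent.Helper9.BSD.Exist

/-!
# The places above the roots of unity
-/

namespace OddCov

open Polynomial WithZero IsDedekindDomain

variable {F : Type*} [Field F]

theorem prod_bp {r n : ℕ} (hr : 0 < r) {ω : F} (hω : IsPrimitiveRoot ω r) {α : F} (hα : α ≠ 0) :
    ∏ s ∈ nthRootsFinset r (1 : F), bp n (s * α) = bp (n * r) (α ^ r) := by
  have h1 := congrArg (aeval (X ^ n * C α⁻¹ : F[X])) (X_pow_sub_one_eq_prod hr hω)
  rw [map_prod, map_sub, map_pow, aeval_X, map_one] at h1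
  have h2 : ∏ s ∈ nthRootsFinset r (1 : F), (C α : F[X]) = C (α ^ r) := by
    rw [Finset.prod_const, hω.card_nthRootsFinset, C_pow]
  have h3 : ∏ s ∈ nthRootsFinset r (1 : F), bp n (s * α) =
      (∏ s ∈ nthRootsFinset r (1 : F), (C α : F[X])) *
        ∏ s ∈ nthRootsFinset r (1 : F), aeval (X ^ n * C α⁻¹ : F[X]) (X - C s : F[X]) := by
    rw [← Finset.prod_mul_distrib]
    refine Finset.prod_congr rfl fun s _ => ?_
    rw [map_sub, aeval_X, aeval_C]
    unfold bp
    have : (C α : F[X]) * C α⁻¹ = 1 := by rw [← C_mul, mul_inv_cancel₀ hα, C_1]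
    rw [C_mul]
    change X ^ n - C s * C α = C α * (X ^ n * C α⁻¹ - C s)
    linear_combination -(X ^ n : F[X]) * this
  rw [h3, ← h1, h2]
  unfold bp
  have : (C α : F[X]) ^ r * (C α⁻¹) ^ r = 1 := by
    rw [← mul_pow, ← C_mul, mul_inv_cancel₀ hα, C_1, one_pow]
  rw [C_pow, mul_sub, mul_one, mul_pow, ← pow_mul]
  linear_combination (X ^ (n * r) : F[X]) * this

section

variable [DecidableEq (RatFunc F)]

theorem oneAbove_of_rep {m : ℕ} (hm : 0 < m) {e e' k s : F} {u : RatFunc F} (hk : k ≠ 0)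
    (hirr : Irreducible (bp m e)) (hne : e ≠ e')
    (hu : u - RatFunc.C s = RatFunc.C k * algebraMap F[X] (RatFunc F) (bp m e) / algebraMap F[X] (RatFunc F) (bp m e')) : OneAbove u s := by
  have hval : plv (some (vo hirr)) (u - RatFunc.C s) = exp (-1) := by
    have h1 : plv (some (vo hirr)) (RatFunc.C k) = 1 := val_C _ hk
    rw [hu, map_div₀, map_mul, h1, one_mul]
    change (vo hirr).valuation (RatFunc F) _ / (vo hirr).valuation (RatFunc F) _ = _
    rw [bp_val_ne hne hirr, div_one, val_gen (vo_asIdeal _) (bp_ne hm _)]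
  refine ⟨some (vo hirr), ?_, ⟨-1, ?_⟩, ?_⟩
  · rw [hval, ← exp_zero, exp_lt_exp]
    norm_num
  · rw [hval]
    rfl
  · intro w' hw'
    match w' with
    | none =>
      exfalso
      change RatFunc.inftyValuation F _ < 1 at hw'
      rw [hu, map_div₀, map_mul, RatFunc.inftyValuation.C F hk, infty_poly (bp_ne hm _),
        infty_poly (bp_ne hm _), bp_deg hm, bp_deg hm, one_mul, div_self exp_ne_zero] at hw'
      exact lt_irrefl _ hw'
    | some v =>
      have h1 : plv (some v) (RatFunc.C k) = 1 := val_C _ hk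
      rw [hu, map_div₀, map_mul, h1, one_mul] at hw'
      change v.valuation (RatFunc F) _ / v.valuation (RatFunc F) _ < 1 at hw'
      have h2 : 0 < v.valuation (RatFunc F) (algebraMap F[X] (RatFunc F) (bp m e')) :=
        zero_lt_iff.2 ((Valuation.ne_zero_iff _).2 (bp_ratFunc_ne hm _))
      rw [div_lt_one₀ h2] at hw'
      rw [eq_vo_of_lt hirr (hw'.trans_le (val_poly_le v _))]

omit [DecidableEq (RatFunc F)] in
/-- the functions `κ (t ^ (n r) - α ^ r) / (t ^ (n r) - β ^ r)` -/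
theorem tower {r n : ℕ} (hr : Odd r) (hn : Odd n) {ω : F} (hω : IsPrimitiveRoot ω r)
    {α β : F} (hirrα : ∀ s : F, s ^ r = 1 → Irreducible (bp n (s * α)))
    (hirrβ : ∀ s : F, s ^ r = 1 → Irreducible (bp n (s * β)))
    (hα : α ≠ 0) (hβ : β ≠ 0) (hne : ∀ s : F, s ^ r = 1 → α ≠ s * β)
    (hsq : ∀ s : F, s ^ r = 1 → (IsSquare (α - s * β) ↔ s ≠ 1)) :
    Link n (nthRootsFinset r (1 : F)) (fun s => s * α) (fun s => s * β) := by
  have hmem : ∀ s ∈ nthRootsFinset r (1 : F), s ^ r = 1 := fun s hs =>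
    (mem_nthRootsFinset hr.pos (1 : F)).1 hs
  have hne0 : ∀ s : F, s ^ r = 1 → s ≠ 0 := by
    rintro s hs rfl
    rw [zero_pow hr.pos.ne'] at hs
    exact zero_ne_one hs
  have hsqall : ∀ s : F, s ^ r = 1 → IsSquare s := by
    intro s hs
    obtain ⟨k, hk⟩ := hr
    refine ⟨s ^ (k + 1), ?_⟩
    rw [← pow_add, show k + 1 + (k + 1) = r + 1 by omega, pow_succ, hs, one_mul]
  have hiff : ∀ s t : F, s ^ r = 1 → t ^ r = 1 → (s * α - t * β = s * (α - (t / s) * β)) := by
    intro s t hs ht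
    have := hne0 s hs
    field_simp
  have hdiv : ∀ s t : F, s ^ r = 1 → t ^ r = 1 → (t / s) ^ r = 1 := by
    intro s t hs ht
    rw [div_pow, hs, ht, div_one]
  refine ⟨hn.pos, hn, ?_, fun s hs => hirrα s (hmem s hs), fun s hs => hirrβ s (hmem s hs),
    fun s _ t _ h => mul_right_cancel₀ hα h, fun s _ t _ h => mul_right_cancel₀ hβ h, ?_, ?_⟩
  · rw [hω.card_nthRootsFinset]
    exact hr
  · intro s hs t ht h
    have h1 := hiff s t (hmem s hs) (hmem t ht)
    rw [sub_eq_zero.2 h] at h1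
    rcases mul_eq_zero.1 h1.symm with h2 | h2
    · exact hne0 s (hmem s hs) h2
    · exact hne _ (hdiv s t (hmem s hs) (hmem t ht)) (sub_eq_zero.1 h2)
  · intro s hs t ht
    rw [hiff s t (hmem s hs) (hmem t ht)]
    have h1 := hsq _ (hdiv s t (hmem s hs) (hmem t ht))
    have h2 : t / s ≠ 1 ↔ s ≠ t := by
      rw [Ne, div_eq_one_iff_eq (hne0 s (hmem s hs))]
      exact ⟨fun h e => h e.symm, fun h e => h e.symm⟩
    rw [← h2, ← h1]
    have hs0 := hne0 s (hmem s hs)
    obtain ⟨g, hg⟩ := hsqall s (hmem s hs)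
    have hg0 : g ≠ 0 := by
      rintro rfl
      exact hs0 (by rw [hg, mul_zero])
    constructor
    · rintro ⟨x, hx⟩
      refine ⟨x / g, ?_⟩
      have e : α - t / s * β = (x * x) / s := by
        rw [← hx]
        field_simp
      rw [e, hg]
      field_simp
    · intro h
      exact IsSquare.mul ⟨g, hg⟩ h

/-- the functions `κ (t ^ (n r) - α ^ r) / (t ^ (n r) - β ^ r)`, above `s` -/
theorem tower_above {r n : ℕ} (hr : 0 < r) (hn : 0 < n) {ω : F} (hω : IsPrimitiveRoot ω r)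
    {α β κ s e : F} (hα : α ≠ 0) (hβ : β ≠ 0) (hκ : κ ≠ s)
    (he : (κ - s) * e = κ * α ^ r - s * β ^ r) (hirr : Irreducible (bp (n * r) e))
    (hne : e ≠ β ^ r) :
    OneAbove (lf n (nthRootsFinset r (1 : F)) (fun s => s * α) (fun s => s * β) κ) s := by
  have hm : 0 < n * r := Nat.mul_pos hn hr
  refine oneAbove_of_rep hm (sub_ne_zero.2 hκ) hirr hne ?_
  unfold lf
  rw [← map_prod, ← map_prod, prod_bp hr hω hα, prod_bp hr hω hβ]
  have h1 := bp_ratFunc_ne hm (β ^ r)
  rw [eq_div_iff h1, sub_mul, div_mul_cancel₀ _ h1]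
  have h2 : ∀ a : F, algebraMap F[X] (RatFunc F) (bp (n * r) a) = algebraMap F[X] (RatFunc F) (X ^ (n * r)) - RatFunc.C a := by
    intro a
    unfold bp
    rw [map_sub, RatFunc.algebraMap_C]
  rw [h2, h2, h2]
  have h3 : RatFunc.C (κ - s) * RatFunc.C e = RatFunc.C (κ * α ^ r - s * β ^ r) := by
    rw [← map_mul, he]
  rw [map_sub, map_sub, map_mul, map_mul] at h3
  rw [map_sub]
  linear_combination h3

end

end OddCov
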